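import Mathlib

/-!
Central binomial coefficients are almost constant near the middle.
-/

namespace Pool.Agent.Lib.MP_8b1b48_lc

open Finset

theorem choose_ge (L : ℕ) (hL : 0 < L) (a : ℕ) :
    (1 - (a : ℝ) ^ 2 / L) * ((2 * L).choose L : ℝ) ≤ ((2 * L).choose (L + a) : ℝ) := by
  have hLr : (0 : ℝ) < L := by exact_mod_cast hL
  induction a with
  | zero => simp
  | succ a ih =>
    have hc : (0 : ℝ) < ((2 * L).choose L : ℝ) := by
      exact_mod_cast Nat.choose_pos (by omega)
    by_cases hbig : (L : ℝ) ≤ ((a + 1 : ℕ) : ℝ) ^ 2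
    · have h1 : (1 - ((a + 1 : ℕ) : ℝ) ^ 2 / L) ≤ 0 := by
        have : 1 ≤ ((a + 1 : ℕ) : ℝ) ^ 2 / L := by
          rw [le_div_iff₀ hLr]; linarith
        linarith
      have h2 : (0 : ℝ) ≤ ((2 * L).choose (L + (a + 1)) : ℝ) := by positivity
      nlinarith
    · rw [not_le] at hbig
      have hle : a ≤ L := by
        have h1 : ((a : ℝ) + 1) ^ 2 < L := by push_cast at hbig; exact hbig
        have h2 : (a : ℝ) ≤ L := by nlinarith [sq_nonneg (a : ℝ)]
        exact_mod_cast h2
      have hrec := Nat.choose_succ_right_eq (2 * L) (L + a)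
      have hrec' : ((2 * L).choose (L + (a + 1)) : ℝ) * ((L : ℝ) + a + 1) =
          ((2 * L).choose (L + a) : ℝ) * ((L : ℝ) - a) := by
        have h3 : 2 * L - (L + a) = L - a := by omega
        rw [h3] at hrec
        have h4 : (((2 * L).choose (L + a + 1) * (L + a + 1) : ℕ) : ℝ) =
            (((2 * L).choose (L + a) * (L - a) : ℕ) : ℝ) := by rw [hrec]
        push_cast at h4
        rw [Nat.cast_sub hle] at h4
        rw [show L + (a + 1) = L + a + 1 by ring]
        exact h4
      have hpos : (0 : ℝ) < (L : ℝ) + a + 1 := by positivity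
      have hfrac : (1 : ℝ) - (2 * a + 1) / L ≤ ((L : ℝ) - a) / (L + a + 1) := by
        rw [le_div_iff₀ hpos]
        have h5 : ((1 : ℝ) - (2 * a + 1) / L) * (L + a + 1) =
            (L - a) - (2 * a + 1) * (a + 1) / L := by
          field_simp; ring
        rw [h5]
        have : (0 : ℝ) ≤ (2 * a + 1) * (a + 1) / L := by positivity
        linarith
      have heq : ((2 * L).choose (L + (a + 1)) : ℝ) =
          ((2 * L).choose (L + a) : ℝ) * (((L : ℝ) - a) / (L + a + 1)) := by
        field_simp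
        linarith [hrec']
      rw [heq]
      have hA : (0 : ℝ) ≤ 1 - (2 * a + 1) / L := by
        rw [sub_nonneg, div_le_one hLr]
        push_cast at hbig
        nlinarith [sq_nonneg (a : ℝ)]
      have hB : (0 : ℝ) ≤ 1 - (a : ℝ) ^ 2 / L := by
        rw [sub_nonneg, div_le_one hLr]
        push_cast at hbig
        nlinarith [sq_nonneg (a : ℝ)]
      calc (1 - ((a + 1 : ℕ) : ℝ) ^ 2 / L) * ((2 * L).choose L : ℝ)
          ≤ ((1 - (a : ℝ) ^ 2 / L) * (1 - (2 * a + 1) / L)) * ((2 * L).choose L : ℝ) := by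
            refine mul_le_mul_of_nonneg_right ?_ hc.le
            have : (1 - (a : ℝ) ^ 2 / L) * (1 - (2 * a + 1) / L) =
              1 - ((a + 1 : ℕ) : ℝ) ^ 2 / L + ((a : ℝ) ^ 2 / L) * ((2 * a + 1) / L) := by
              push_cast; field_simp; ring
            rw [this]
            have : (0 : ℝ) ≤ ((a : ℝ) ^ 2 / L) * ((2 * a + 1) / L) := by positivity
            linarith
        _ = ((1 - (a : ℝ) ^ 2 / L) * ((2 * L).choose L : ℝ)) * (1 - (2 * a + 1) / L) := by ring
        _ ≤ ((2 * L).choose (L + a) : ℝ) * (((L : ℝ) - a) / (L + a + 1)) := by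
            refine mul_le_mul ih hfrac hA (by positivity)

theorem choose_le (L a : ℕ) : ((2 * L).choose (L + a) : ℝ) ≤ ((2 * L).choose L : ℝ) := by
  have h := Nat.choose_le_centralBinom (L + a) L
  rw [Nat.centralBinom] at h
  exact_mod_cast h

theorem one_sub_sum_le_prod {ι : Type} (S : Finset ι) (y : ι → ℝ) (h0 : ∀ i ∈ S, 0 ≤ y i)
    (h1 : ∀ i ∈ S, y i ≤ 1) : 1 - ∑ i ∈ S, y i ≤ ∏ i ∈ S, (1 - y i) := by
  classical
  induction S using Finset.induction_on with
  | empty => simp
  | insert i S hi ih =>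
    rw [Finset.sum_insert hi, Finset.prod_insert hi]
    have a1 := h0 i (Finset.mem_insert_self _ _)
    have a2 := h1 i (Finset.mem_insert_self _ _)
    have ih' := ih (fun j hj => h0 j (Finset.mem_insert_of_mem hj))
      (fun j hj => h1 j (Finset.mem_insert_of_mem hj))
    have a3 : 0 ≤ ∑ j ∈ S, y j := Finset.sum_nonneg fun j hj => h0 j (Finset.mem_insert_of_mem hj)
    nlinarith [mul_nonneg (sub_nonneg.2 a2) (sub_nonneg.2 ih'), mul_nonneg a1 a3]

/-- The product of the binomials is almost the central one. -/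
theorem prod_choose_bounds {V : Type} [Fintype V] (L : ℕ) (hL : 0 < L) (d : V → ℕ) (D : ℝ)
    (hD : (∑ v, (d v : ℝ)) ≤ D) :
    (1 - D ^ 2 / L) * ((2 * L).choose L : ℝ) ^ (Fintype.card V) ≤
      ∏ v, ((2 * L).choose (L + d v) : ℝ) ∧
    ∏ v, ((2 * L).choose (L + d v) : ℝ) ≤ ((2 * L).choose L : ℝ) ^ (Fintype.card V) := by
  have hLr : (0 : ℝ) < L := by exact_mod_cast hL
  have hc : (0 : ℝ) < ((2 * L).choose L : ℝ) := by
    exact_mod_cast Nat.choose_pos (by omega)
  constructor
  · by_cases hbig : (L : ℝ) ≤ D ^ 2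
    · have h1 : (1 - D ^ 2 / L) ≤ 0 := by
        have : 1 ≤ D ^ 2 / L := by
          rw [le_div_iff₀ hLr]; linarith
        linarith
      have h2 : (0 : ℝ) ≤ ∏ v, ((2 * L).choose (L + d v) : ℝ) := by positivity
      have h3 : (0 : ℝ) < ((2 * L).choose L : ℝ) ^ (Fintype.card V) := by positivity
      nlinarith
    · rw [not_le] at hbig
      have hsq : ∑ v, (d v : ℝ) ^ 2 ≤ D ^ 2 := by
        have hs0 : 0 ≤ ∑ v, (d v : ℝ) := by positivity
        calc ∑ v, (d v : ℝ) ^ 2 ≤ ∑ v, (d v : ℝ) * ∑ w, (d w : ℝ) := by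
              refine Finset.sum_le_sum fun v _ => ?_
              rw [pow_two]
              refine mul_le_mul_of_nonneg_left ?_ (by positivity)
              exact Finset.single_le_sum (f := fun v => (d v : ℝ)) (fun i _ => by positivity)
                (Finset.mem_univ v)
          _ = (∑ v, (d v : ℝ)) ^ 2 := by rw [← Finset.sum_mul, pow_two]
          _ ≤ D ^ 2 := by nlinarith
      have hone : ∀ v, (d v : ℝ) ^ 2 / L ≤ 1 := by
        intro v
        rw [div_le_one hLr]
        have : (d v : ℝ) ^ 2 ≤ ∑ v, (d v : ℝ) ^ 2 :=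
          Finset.single_le_sum (f := fun v => (d v : ℝ) ^ 2) (fun i _ => by positivity)
            (Finset.mem_univ v)
        linarith
      calc (1 - D ^ 2 / L) * ((2 * L).choose L : ℝ) ^ (Fintype.card V)
          ≤ (1 - ∑ v, (d v : ℝ) ^ 2 / L) * ((2 * L).choose L : ℝ) ^ (Fintype.card V) := by
            refine mul_le_mul_of_nonneg_right ?_ (by positivity)
            rw [← Finset.sum_div]
            have := div_le_div_of_nonneg_right hsq hLr.le
            linarith
        _ ≤ (∏ v, (1 - (d v : ℝ) ^ 2 / L)) * ((2 * L).choose L : ℝ) ^ (Fintype.card V) := by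
            refine mul_le_mul_of_nonneg_right ?_ (by positivity)
            exact one_sub_sum_le_prod univ _ (fun v _ => by positivity) (fun v _ => hone v)
        _ = ∏ v, ((1 - (d v : ℝ) ^ 2 / L) * ((2 * L).choose L : ℝ)) := by
            rw [Finset.prod_mul_distrib, Finset.prod_const, Finset.card_univ]
        _ ≤ ∏ v, ((2 * L).choose (L + d v) : ℝ) := by
            refine Finset.prod_le_prod (fun v _ => ?_) (fun v _ => choose_ge L hL (d v))
            exact mul_nonneg (by linarith [hone v]) hc.le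
  · calc ∏ v, ((2 * L).choose (L + d v) : ℝ) ≤ ∏ _v : V, ((2 * L).choose L : ℝ) :=
          Finset.prod_le_prod (fun v _ => by positivity) (fun v _ => choose_le L (d v))
      _ = ((2 * L).choose L : ℝ) ^ (Fintype.card V) := by
          rw [Finset.prod_const, Finset.card_univ]

end Pool.Agent.Lib.MP_8b1b48_lc
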