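import Pool.Agent.Lib.MP_8b1b48_lc.ScoreDC

/-!
The number of interior score vectors equals the signed forest sum.
-/

namespace Pool.Agent.Lib.MP_8b1b48_lc

open Finset

variable {W E : Type} [Fintype W] [DecidableEq W] [DecidableEq E]

/-- Multiplicity of the edges between `S \ S'` and `S' \ S`. -/
def between (s t : E → W) (A : Finset E) (b : E → ℤ) (S S' : Finset W) : ℤ :=
  ∑ f ∈ A, if ((s f ∈ S ∧ s f ∉ S') ∧ (t f ∈ S' ∧ t f ∉ S)) ∨
    ((t f ∈ S ∧ t f ∉ S') ∧ (s f ∈ S' ∧ s f ∉ S)) then b f else 0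

omit [Fintype W] [DecidableEq E] in
theorem inside_super {s t : E → W} {A : Finset E} {b : E → ℤ} (hb : ∀ f ∈ A, 0 ≤ b f)
    (S S' : Finset W) : inside s t A b S + inside s t A b S' + between s t A b S S' ≤
      inside s t A b (S ∪ S') + inside s t A b (S ∩ S') := by
  unfold inside between
  rw [← Finset.sum_add_distrib, ← Finset.sum_add_distrib, ← Finset.sum_add_distrib]
  refine Finset.sum_le_sum fun f hf => ?_
  have h := hb f hf
  simp only [Finset.mem_union, Finset.mem_inter]
  by_cases h1 : s f ∈ S <;> by_cases h2 : t f ∈ S <;> by_cases h3 : s f ∈ S' <;>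
    by_cases h4 : t f ∈ S' <;> simp [h1, h2, h3, h4, h]

omit [Fintype W] [DecidableEq E] in
theorem between_nonneg {s t : E → W} {A : Finset E} {b : E → ℤ} (hb : ∀ f ∈ A, 0 ≤ b f)
    (S S' : Finset W) : 0 ≤ between s t A b S S' := by
  unfold between
  refine Finset.sum_nonneg fun f hf => ?_
  split_ifs
  · exact hb f hf
  · exact le_rfl

omit [Fintype W] [DecidableEq E] in
theorem one_le_between {s t : E → W} {A : Finset E} {b : E → ℤ} (hb : ∀ f ∈ A, 1 ≤ b f)
    (S S' : Finset W) {f : E} (hf : f ∈ A)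
    (h : ((s f ∈ S ∧ s f ∉ S') ∧ (t f ∈ S' ∧ t f ∉ S)) ∨
      ((t f ∈ S ∧ t f ∉ S') ∧ (s f ∈ S' ∧ s f ∉ S))) : 1 ≤ between s t A b S S' := by
  unfold between
  refine le_trans ?_ (Finset.single_le_sum (f := fun f => if ((s f ∈ S ∧ s f ∉ S') ∧
    (t f ∈ S' ∧ t f ∉ S)) ∨ ((t f ∈ S ∧ t f ∉ S') ∧ (s f ∈ S' ∧ s f ∉ S)) then b f else 0)
    (fun g hg => ?_) hf)
  · simp only [if_pos h]; exact hb f hf
  · split_ifs
    · have := hb g hg; linarith
    · exact le_rfl

omit [Fintype W] [DecidableEq E] in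
/-- If some edge leaves `S`, then some edge runs between the differences or leaves the union or
the intersection. -/
theorem cross_split {s t : E → W} {A : Finset E} {b : E → ℤ} (hb : ∀ f ∈ A, 1 ≤ b f)
    (S S' : Finset W) (h : ∃ f ∈ A, ¬ (s f ∈ S ↔ t f ∈ S)) :
    1 ≤ between s t A b S S' + crossInd s t A (S ∪ S') + crossInd s t A (S ∩ S') := by
  have hb0 : ∀ f ∈ A, 0 ≤ b f := fun f hf => le_trans (by norm_num) (hb f hf)
  have e1 := between_nonneg hb0 S S' (s := s) (t := t)
  have e2 := crossInd_nonneg s t A (S ∪ S')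
  have e3 := crossInd_nonneg s t A (S ∩ S')
  obtain ⟨f, hf, hne⟩ := h
  by_cases h2 : ∃ e ∈ A, ¬ (s e ∈ S ∪ S' ↔ t e ∈ S ∪ S')
  · rw [crossInd_eq_one h2]; linarith
  by_cases h3 : ∃ e ∈ A, ¬ (s e ∈ S ∩ S' ↔ t e ∈ S ∩ S')
  · rw [crossInd_eq_one h3]; linarith
  have h2' : s f ∈ S ∪ S' ↔ t f ∈ S ∪ S' := by
    by_contra hh; exact h2 ⟨f, hf, hh⟩
  have h3' : s f ∈ S ∩ S' ↔ t f ∈ S ∩ S' := by
    by_contra hh; exact h3 ⟨f, hf, hh⟩
  rw [Finset.mem_union, Finset.mem_union] at h2'
  rw [Finset.mem_inter, Finset.mem_inter] at h3'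
  have := one_le_between hb S S' (s := s) (t := t) hf (by tauto)
  linarith

omit [DecidableEq E] in
theorem theta_ge {s t : E → W} {A : Finset E} {b : E → ℤ} (hb : ∀ f ∈ A, 0 ≤ b f) {u v : W}
    (hne : u ≠ v) {δ : W → ℤ} (hK : KCond s t A b u v δ) :
    lo s t A b u v hne δ ≤ hi s t A b u v hne δ + 2 := by
  rw [lo_le_iff]
  intro S hu hv
  rw [← sub_le_iff_le_add, le_hi_iff]
  intro S' hv' hu'
  have h1 := hK.2 (S ∪ S') (by simp [hu, hv'])
  have h2 := hK.2 (S ∩ S') (by simp [hu', hv])
  have h3 := inside_super hb S S' (s := s) (t := t)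
  have h4 := between_nonneg hb S S' (s := s) (t := t)
  have h5 := crossInd_nonneg s t A (S ∪ S')
  have h6 := crossInd_nonneg s t A (S ∩ S')
  have h7 := Finset.sum_union_inter (s₁ := S) (s₂ := S') (f := δ)
  linarith

omit [DecidableEq E] [Fintype W] in
theorem cross_of_conn {s t : E → W} {A : Finset E} {u v : W} (hc : conn s t A u v)
    {S : Finset W} (hS : ¬ (u ∈ S ↔ v ∈ S)) : ∃ f ∈ A, ¬ (s f ∈ S ↔ t f ∈ S) := by
  by_contra hh
  apply hS
  refine conn_lift (P := fun w => w ∈ S) (fun e he => ?_) hc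
  by_contra h'
  exact hh ⟨e, he, h'⟩

omit [DecidableEq E] in
theorem theta_nonbridge {s t : E → W} {A : Finset E} {b : E → ℤ} (hb : ∀ f ∈ A, 1 ≤ b f)
    {u v : W} (hne : u ≠ v) (hc : conn s t A u v) {δ : W → ℤ} (hK : KCond s t A b u v δ) :
    lo s t A b u v hne δ ≤ hi s t A b u v hne δ + 1 := by
  have hb0 : ∀ f ∈ A, 0 ≤ b f := fun f hf => le_trans (by norm_num) (hb f hf)
  rw [lo_le_iff]
  intro S hu hv
  rw [← sub_le_iff_le_add, le_hi_iff]
  intro S' hv' hu'
  have h1 := hK.2 (S ∪ S') (by simp [hu, hv'])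
  have h2 := hK.2 (S ∩ S') (by simp [hu', hv])
  have h3 := inside_super hb0 S S' (s := s) (t := t)
  have h5 := cross_split hb S S' (s := s) (t := t) (cross_of_conn hc (by simp [hu, hv]))
  have h7 := Finset.sum_union_inter (s₁ := S) (s₂ := S') (f := δ)
  linarith

omit [DecidableEq E] in
theorem theta_bridge {s t : E → W} {A : Finset E} {b : E → ℤ}
    {u v : W} (hne : u ≠ v) (hc : ¬ conn s t A u v) {δ : W → ℤ} (hK : KCond s t A b u v δ) :
    hi s t A b u v hne δ + 2 ≤ lo s t A b u v hne δ := by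
  classical
  set S : Finset W := univ.filter fun w => conn s t A u w with hS
  have hu : u ∈ S := by
    rw [hS, Finset.mem_filter]
    exact ⟨Finset.mem_univ _, rfl⟩
  have hv : v ∉ S := by simp [hS, hc]
  have hcl : ∀ f ∈ A, (s f ∈ S ↔ t f ∈ S) := by
    intro f hf
    simp only [hS, Finset.mem_filter, Finset.mem_univ, true_and]
    have h := conn_edge s t A hf
    unfold conn at h ⊢
    rw [h]
  have h1 := (lo_le_iff s t A b hne δ _).1 le_rfl S hu hv
  have h2 := (le_hi_iff s t A b hne δ _).1 le_rfl Sᶜ (by simp [hv]) (by simp [hu])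
  have h3 : inside s t A b S + inside s t A b Sᶜ = ∑ f ∈ A, b f := by
    unfold inside
    rw [← Finset.sum_add_distrib]
    refine Finset.sum_congr rfl fun f hf => ?_
    have h := hcl f hf
    by_cases h4 : s f ∈ S
    · have h5 := h.1 h4
      simp [h4, h5]
    · have h5 : t f ∉ S := fun h' => h4 (h.2 h')
      simp [h4, h5]
  have h4 : ∑ w ∈ S, δ w + ∑ w ∈ Sᶜ, δ w = ∑ f ∈ A, b f := by
    rw [Finset.sum_add_sum_compl]; exact hK.1
  linarith

omit [Fintype W] in
theorem split_insert (s t : E → W) {A : Finset E} {e : E} (he : e ∉ A) (b : E → ℤ) :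
    Split s t A (insert e A) b (s e) (t e) (b e) where
  tot := by rw [Finset.sum_insert he]; ring
  both := fun S h1 h2 => by
    rw [inside_insert s t he, crossInd_insert_of s t (by simp [h1, h2]), if_pos ⟨h1, h2⟩]
    ring
  none := fun S h1 h2 => by
    rw [inside_insert s t he, crossInd_insert_of s t (by simp [h1, h2]),
      if_neg (fun h => h1 h.1)]
    ring
  one := fun S h => by
    rw [inside_insert s t he, crossInd_eq_one ⟨e, Finset.mem_insert_self _ _, h⟩,
      if_neg (by tauto)]
    ring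

omit [DecidableEq E] in
theorem split_self (s t : E → W) {A : Finset E} {u v : W} (hc : conn s t A u v) (b : E → ℤ) :
    Split s t A A b u v 0 where
  tot := by ring
  both := fun S _ _ => by ring
  none := fun S _ _ => rfl
  one := fun S h => by rw [crossInd_eq_one (cross_of_conn hc h)]

/-- Deletion-contraction for the number of interior score vectors, non-bridge case. -/
theorem card_scores_conn (s t : E → W) {A : Finset E} {e : E} (he : e ∉ A) (hne : s e ≠ t e)
    (hc : conn s t A (s e) (t e)) (b : E → ℤ) (hb : ∀ f ∈ insert e A, 1 ≤ b f) :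
    ((scores s t (insert e A) b).card : ℤ) =
      b e * (scores (cs s t e hne) (ct s t e hne) A b).card + (scores s t A b).card := by
  have hbA : ∀ f ∈ A, 1 ≤ b f := fun f hf => hb f (Finset.mem_insert_of_mem hf)
  have hb0 : ∀ f ∈ insert e A, 0 ≤ b f := fun f hf => le_trans (by norm_num) (hb f hf)
  have hbA0 : ∀ f ∈ A, 0 ≤ b f := fun f hf => le_trans (by norm_num) (hbA f hf)
  rw [card_scores_split s t e hne (split_insert s t he b) hbA0 hb0,
    card_scores_split s t e hne (split_self s t hc b) hbA0 hbA0]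
  push_cast
  have hbe := hb0 e (Finset.mem_insert_self _ _)
  have : (b e * (scores (cs s t e hne) (ct s t e hne) A b).card : ℤ) =
      ∑ d ∈ scores (cs s t e hne) (ct s t e hne) A b, b e := by
    rw [Finset.sum_const, nsmul_eq_mul]; ring
  rw [this, ← Finset.sum_add_distrib]
  refine Finset.sum_congr rfl fun d hd => ?_
  rw [mem_scores hbA0, isScore_contr_iff] at hd
  have h := theta_nonbridge hbA hne hc hd
  rw [Int.toNat_of_nonneg (by linarith), Int.toNat_of_nonneg (by linarith)]
  ring

/-- Deletion-contraction for the number of interior score vectors, bridge case. -/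
theorem card_scores_bridge (s t : E → W) {A : Finset E} {e : E} (he : e ∉ A) (hne : s e ≠ t e)
    (hc : ¬ conn s t A (s e) (t e)) (b : E → ℤ) (hb : ∀ f ∈ insert e A, 1 ≤ b f) :
    ((scores s t (insert e A) b).card : ℤ) =
      (b e - 1) * (scores (cs s t e hne) (ct s t e hne) A b).card := by
  have hbA : ∀ f ∈ A, 1 ≤ b f := fun f hf => hb f (Finset.mem_insert_of_mem hf)
  have hb0 : ∀ f ∈ insert e A, 0 ≤ b f := fun f hf => le_trans (by norm_num) (hb f hf)
  have hbA0 : ∀ f ∈ A, 0 ≤ b f := fun f hf => le_trans (by norm_num) (hbA f hf)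
  rw [card_scores_split s t e hne (split_insert s t he b) hbA0 hb0]
  push_cast
  have hbe := hb e (Finset.mem_insert_self _ _)
  have : ((b e - 1) * (scores (cs s t e hne) (ct s t e hne) A b).card : ℤ) =
      ∑ d ∈ scores (cs s t e hne) (ct s t e hne) A b, (b e - 1) := by
    rw [Finset.sum_const, nsmul_eq_mul]; ring
  rw [this]
  refine Finset.sum_congr rfl fun d hd => ?_
  rw [mem_scores hbA0, isScore_contr_iff] at hd
  have h1 := theta_ge hbA0 hne hd
  have h2 := theta_bridge hne hc hd
  rw [Int.toNat_of_nonneg (by linarith)]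
  linarith

/-- The number of interior score vectors equals the signed forest sum. -/
theorem card_scores_eq_fsum (A : Finset E) : ∀ (W : Type) [Fintype W] [DecidableEq W]
    (s t : E → W) (b : E → ℤ), (∀ f ∈ A, 1 ≤ b f) →
    ((scores s t A b).card : ℝ) = fsum s t A (fun e => (b e : ℝ)) := by
  induction A using Finset.induction_on with
  | empty =>
    intro W _ _ s t b _
    rw [card_scores_empty, fsum_empty]; norm_num
  | insert e A he ih =>
    intro W _ _ s t b hb
    have hbA : ∀ f ∈ A, 1 ≤ b f := fun f hf => hb f (Finset.mem_insert_of_mem hf)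
    have hb0 : ∀ f ∈ insert e A, 0 ≤ b f := fun f hf => le_trans (by norm_num) (hb f hf)
    by_cases hne : s e = t e
    · rw [card_scores_loop s t he hne b hb0, fsum_loop s t he hne]
      exact ih W s t b hbA
    · have h1 := ih _ (cs s t e hne) (ct s t e hne) b hbA
      by_cases hc : conn s t A (s e) (t e)
      · have h2 := card_scores_conn s t he hne hc b hb
        have h3 := ih W s t b hbA
        rw [fsum_conn s t e hne he hc, ← h1, ← h3]
        have h4 : (((scores s t (insert e A) b).card : ℤ) : ℝ) =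
          ((b e * (scores (cs s t e hne) (ct s t e hne) A b).card +
            (scores s t A b).card : ℤ) : ℝ) := by rw [h2]
        push_cast at h4
        exact h4
      · have h2 := card_scores_bridge s t he hne hc b hb
        rw [fsum_bridge s t e hne he hc, ← h1]
        have h4 : (((scores s t (insert e A) b).card : ℤ) : ℝ) =
          (((b e - 1) * (scores (cs s t e hne) (ct s t e hne) A b).card : ℤ) : ℝ) := by rw [h2]
        push_cast at h4
        exact h4

end Pool.Agent.Lib.MP_8b1b48_lc
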