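import Mathlib

/-!
# Definitions for the approximation of `T(G; x, 1)`, `0 ≤ x < 1`

A finite multigraph is given by a vertex set `V`, an edge set `E` and the two ends `s e`, `t e` of
every edge (loops and parallel edges allowed).
-/

namespace Pool.Agent.Lib.MP_8b1b48_lc

open Finset

/-! ### The Tutte polynomial -/

section tutte

variable {W E : Type}

/-- `u` and `v` are joined by an edge of `A` (directed version). -/
def rel (s t : E → W) (A : Finset E) (u v : W) : Prop := ∃ e ∈ A, s e = u ∧ t e = v

/-- The number of connected components of the graph with vertex set `W` and edge set `A`. -/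
noncomputable def comps (s t : E → W) (A : Finset E) : ℕ := Nat.card (Quot (rel s t A))

/-- The rank `|W| - (number of components)`. -/
noncomputable def rk (s t : E → W) (A : Finset E) : ℕ := Nat.card W - comps s t A

/-- The Tutte polynomial of the multigraph with vertex set `W`, edge set `E` and end points
`s e`, `t e`: the sum over all `A ⊆ E` of `(x-1)^(r(E)-r(A)) (y-1)^(|A|-r(A))`. -/
noncomputable def tutte [Fintype W] [Fintype E] [DecidableEq E] (s t : E → W) (x y : ℝ) : ℝ :=
  ∑ A : Finset E, (x - 1) ^ (rk s t univ - rk s t A) * (y - 1) ^ (A.card - rk s t A)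

end tutte

/-! ### States -/

section states

variable {V E : Type} [Fintype V] [DecidableEq V] [Fintype E] [DecidableEq E]

omit [Fintype V] [DecidableEq E] in
/-- `d` is the score vector of an orientation of the multigraph with multiplicities `b`: of the
`b e` copies of the edge `e`, `f e` give one unit to `s e` and the others give one unit to
`t e`. -/
def IsOrient (s t : E → V) (b : E → ℤ) (d : V → ℤ) : Prop :=
  ∃ f : E → ℤ, (∀ e, 0 ≤ f e ∧ f e ≤ b e) ∧
    ∀ v, d v = ∑ e, ((if s e = v then f e else 0) + (if t e = v then b e - f e else 0))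

omit [Fintype V] in
/-- Move one unit from `u` to `v`. -/
def bump (u v : V) (d : V → ℤ) (w : V) : ℤ :=
  d w - (if w = u then 1 else 0) + (if w = v then 1 else 0)

/-- Ground set: `N` elements for every vertex and `a` elements for every edge. -/
abbrev Ground (V E : Type) (N a : ℕ) : Type := (V × Fin N) ⊕ (E × Fin a)

omit [Fintype V] [Fintype E] in
/-- Score of a vertex in the state `B`. -/
def dval {N a : ℕ} (L : ℕ) (B : Finset (Ground V E N a)) (v : V) : ℤ :=
  ((univ.filter fun i : Fin N => Sum.inl (v, i) ∈ B).card : ℤ) - L

omit [Fintype V] [Fintype E] in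
/-- Multiplicity of an edge in the state `B`. -/
def mval {N a : ℕ} (n : ℕ) (B : Finset (Ground V E N a)) (e : E) : ℤ :=
  (n : ℤ) + a - ((univ.filter fun i : Fin a => Sum.inr (e, i) ∈ B).card : ℤ)

omit [Fintype V] in
/-- `B` is a state: `dval L B` is the score vector of an orientation for the multiplicities
`mval n B`, and so are all vectors obtained by moving a unit along an edge, in either direction. -/
def FlowState (s t : E → V) {N a : ℕ} (L n : ℕ) (B : Finset (Ground V E N a)) : Prop :=
  IsOrient s t (mval n B) (dval L B) ∧
    ∀ e, s e ≠ t e → IsOrient s t (mval n B) (bump (s e) (t e) (dval L B)) ∧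
      IsOrient s t (mval n B) (bump (t e) (s e) (dval L B))

open Classical in
/-- The set of all states. -/
noncomputable def states (s t : E → V) (L n a : ℕ) : Finset (Finset (Ground V E (2 * L) a)) :=
  univ.filter (FlowState s t L n)

/-- The weights of the ground elements: `1` for the elements belonging to vertices and `lam` for
the elements belonging to edges. -/
def gw (lam : ℝ) {N a : ℕ} : Ground V E N a → ℝ := Sum.elim (fun _ => 1) (fun _ => lam)

/-- The common number of elements of the states. -/
def rank (V E : Type) [Fintype V] [Fintype E] (L n a : ℕ) : ℕ :=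
  Fintype.card V * L + (n + a) * Fintype.card E

omit [Fintype V] [DecidableEq E] in
/-- Initial score of a vertex: every edge gives one unit to its first end and the remaining
`n + a - 1` units to its second end. -/
def startScore (s t : E → V) (n a : ℕ) (v : V) : ℕ :=
  ∑ e, ((if s e = v then 1 else 0) + (if t e = v then n + a - 1 else 0))

omit [DecidableEq E] in
/-- An explicit state. -/
def startState (s t : E → V) (L n a : ℕ) : Finset (Ground V E (2 * L) a) :=
  (univ.filter fun x : V × Fin (2 * L) => (x.2 : ℕ) < L + startScore s t n a x.1).disjSum ∅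

end states

/-! ### The basis exchange walk -/

namespace Mix

variable {α : Type} [Fintype α] [DecidableEq α]

omit [Fintype α] [DecidableEq α] in
/-- Product weight. -/
def wt (w : α → ℝ) (B : Finset α) : ℝ := ∏ b ∈ B, w b

omit [Fintype α] [DecidableEq α] in
/-- Total weight. -/
def Z (w : α → ℝ) (F : Finset (Finset α)) : ℝ := ∑ B ∈ F, wt w B

/-- The members containing `T`. -/
def up (F : Finset (Finset α)) (T : Finset α) : Finset (Finset α) := F.filter fun B => T ⊆ B

/-- One step of the basis exchange walk: from `B` remove a uniformly random element `x` of `B`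
(`r` is the common cardinality) and move to a member `B'` of `F` containing `B.erase x`, chosen
with probability proportional to its weight. -/
noncomputable def step (w : α → ℝ) (F : Finset (Finset α)) (r : ℕ) (B B' : Finset α) : ℝ :=
  (1 / (r : ℝ)) * ∑ x ∈ B, if B' ∈ up F (B.erase x) then wt w B' / Z w (up F (B.erase x)) else 0

/-- Distribution of the walk started at `B₀` after the given number of steps. -/
noncomputable def walk (w : α → ℝ) (F : Finset (Finset α)) (r : ℕ) (B₀ : Finset α) :
    ℕ → Finset α → ℝ
  | 0, B => if B = B₀ then 1 else 0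
  | k + 1, B => ∑ C ∈ F, walk w F r B₀ k C * step w F r C B

/-- The weight with every element outside `B₀` multiplied by `τ`. -/
def tw (w : α → ℝ) (B₀ : Finset α) (τ : ℝ) (x : α) : ℝ := if x ∈ B₀ then w x else τ * w x

/-- The weights used at stage `i`: every element outside `B₀` is multiplied by
`(1 + 1/r)^(-(i+1))`. -/
noncomputable def stageW (w : α → ℝ) (r : ℕ) (B₀ : Finset α) (i : ℕ) : α → ℝ :=
  tw w B₀ ((1 + 1 / (r : ℝ))⁻¹ ^ (i + 1))

/-- Probability that `l * M` independent runs of length `m` of the basis exchange walk, all
started at `B₀`, those of stage `i` with the weights of stage `i`, end in the states `ω i j`. -/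
noncomputable def runs (w : α → ℝ) (F : Finset (Finset α)) (r : ℕ) (B₀ : Finset α) (m : ℕ)
    {l M : ℕ} (ω : Fin l → Fin M → Finset α) : ℝ :=
  ∏ i : Fin l, ∏ j : Fin M, walk (stageW w r B₀ (i : ℕ)) F r B₀ m (ω i j)

/-- The statistic. -/
noncomputable def stat (r : ℕ) (B₀ B : Finset α) : ℝ := (1 + 1 / (r : ℝ)) ^ (B \ B₀).card

/-- The estimator: the weight of `B₀` times the product over the `l` stages of the average of the
statistic over the `M` outcomes of the stage. -/
noncomputable def estimate (w : α → ℝ) (r : ℕ) (B₀ : Finset α) {l M : ℕ}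
    (ω : Fin l → Fin M → Finset α) : ℝ :=
  wt w B₀ * ∏ i, ((∑ j, stat r B₀ (ω i j)) / M)

end Mix

/-! ### The algorithm -/

/-- The integral part of `1/(1-x)`. -/
noncomputable def nx (x : ℝ) : ℕ := ⌊1 / (1 - x)⌋₊

/-- The fractional part of `1/(1-x)`. -/
noncomputable def px (x : ℝ) : ℝ := 1 / (1 - x) - nx x

open Classical in
/-- `0` if `1/(1-x)` is an integer, and `1` otherwise. -/
noncomputable def ax (x : ℝ) : ℕ := if px x = 0 then 0 else 1

/-- The weight of the edge elements. -/
noncomputable def lx (x : ℝ) : ℝ := (1 - px x) / px x

section algorithm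

variable {V E : Type} [Fintype V] [DecidableEq V] [Fintype E] [DecidableEq E]

omit [DecidableEq V] [DecidableEq E] in
/-- The scaling factor. -/
noncomputable def scale (s t : E → V) (x : ℝ) (L : ℕ) : ℝ :=
  (1 - x) ^ (rk s t univ) * px x ^ (ax x * Fintype.card E) /
    ((2 * L).choose L : ℝ) ^ (Fintype.card V)

/-- The states of the graph for the parameter `x`. -/
noncomputable def xstates (s t : E → V) (x : ℝ) (L : ℕ) :
    Finset (Finset (Ground V E (2 * L) (ax x))) := states s t L (nx x) (ax x)

/-- The number of elements of every state. -/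
noncomputable def xrank (V E : Type) [Fintype V] [Fintype E] (x : ℝ) (L : ℕ) : ℕ :=
  rank V E L (nx x) (ax x)

/-- The output of the algorithm as a function of the final states of the runs of the walk. -/
noncomputable def output (s t : E → V) (x : ℝ) (L : ℕ) {l M : ℕ}
    (B₀ : Finset (Ground V E (2 * L) (ax x)))
    (ω : Fin l → Fin M → Finset (Ground V E (2 * L) (ax x))) : ℝ :=
  scale s t x L * Mix.estimate (gw (lx x)) (xrank V E x L) B₀ ω

open Classical in
/-- The probability that the output is within the factor `1 ± ε` of `T(G; x, 1)`. -/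
noncomputable def successProb (s t : E → V) (x ε : ℝ) (L m l M : ℕ)
    (B₀ : Finset (Ground V E (2 * L) (ax x))) : ℝ :=
  ∑ ω : Fin l → Fin M → Finset (Ground V E (2 * L) (ax x)),
    if |output s t x L B₀ ω - tutte s t x 1| ≤ ε * tutte s t x 1 then
      Mix.runs (gw (lx x)) (xstates s t x L) (xrank V E x L) B₀ m ω else 0

end algorithm

end Pool.Agent.Lib.MP_8b1b48_lc
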