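import Mathlib

/-!
Product estimators: independent samples, means, Chebyshev.
-/

namespace Pool.Agent.Lib.MP_8b1b48_lc.Est

open Finset

variable {β : Type} [Fintype β]

/-- Probability of a finite sequence of independent outcomes. -/
def seqw (q : β → ℝ) {M : ℕ} (η : Fin M → β) : ℝ := ∏ j, q (η j)

theorem sum_cons {M : ℕ} (g : (Fin (M + 1) → β) → ℝ) :
    ∑ η : Fin (M + 1) → β, g η = ∑ b : β, ∑ η : Fin M → β, g (Fin.cons b η) := by
  rw [← (Fin.consEquiv (fun _ : Fin (M + 1) => β)).sum_comp, Fintype.sum_prod_type]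
  rfl

theorem moments (q Y : β → ℝ) (hq : ∑ b, q b = 1) (M : ℕ) :
    ∑ η : Fin M → β, seqw q η = 1 ∧
    ∑ η : Fin M → β, seqw q η * ∑ j, Y (η j) = M * ∑ b, q b * Y b ∧
    ∑ η : Fin M → β, seqw q η * (∑ j, Y (η j)) ^ 2 =
      M * ∑ b, q b * Y b ^ 2 + M * (M - 1) * (∑ b, q b * Y b) ^ 2 := by
  induction M with
  | zero => simp [seqw]
  | succ M ih =>
    obtain ⟨i0, i1, i2⟩ := ih
    have hs : ∀ (b : β) (η : Fin M → β), seqw q (Fin.cons b η : Fin (M + 1) → β) =
        q b * seqw q η := by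
      intro b η
      unfold seqw
      rw [Fin.prod_univ_succ]
      simp
    have hY : ∀ (b : β) (η : Fin M → β), ∑ j, Y ((Fin.cons b η : Fin (M + 1) → β) j) =
        Y b + ∑ j, Y (η j) := by
      intro b η
      rw [Fin.sum_univ_succ]
      simp
    refine ⟨?_, ?_, ?_⟩
    · rw [sum_cons]
      simp only [hs]
      simp only [← Finset.mul_sum, i0, mul_one]
      exact hq
    · rw [sum_cons]
      simp only [hs, hY]
      have e : ∀ b, ∑ η : Fin M → β, q b * seqw q η * (Y b + ∑ j, Y (η j)) =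
          q b * Y b + q b * (M * ∑ b, q b * Y b) := by
        intro b
        rw [← i1]
        have : ∑ η : Fin M → β, q b * seqw q η * (Y b + ∑ j, Y (η j)) =
            q b * Y b * ∑ η : Fin M → β, seqw q η +
            q b * ∑ η : Fin M → β, seqw q η * ∑ j, Y (η j) := by
          rw [Finset.mul_sum, Finset.mul_sum, ← Finset.sum_add_distrib]
          exact Finset.sum_congr rfl fun η _ => by ring
        rw [this, i0]; ring
      simp only [e]
      rw [Finset.sum_add_distrib, ← Finset.sum_mul, hq]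
      push_cast; ring
    · rw [sum_cons]
      simp only [hs, hY]
      set y := ∑ b, q b * Y b with hy
      have e : ∀ b, ∑ η : Fin M → β, q b * seqw q η * (Y b + ∑ j, Y (η j)) ^ 2 =
          q b * Y b ^ 2 + 2 * (M * y) * (q b * Y b) +
            q b * (M * ∑ b, q b * Y b ^ 2 + M * (M - 1) * y ^ 2) := by
        intro b
        rw [← i2, ← i1]
        have : ∑ η : Fin M → β, q b * seqw q η * (Y b + ∑ j, Y (η j)) ^ 2 =
            q b * Y b ^ 2 * ∑ η : Fin M → β, seqw q η +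
            2 * (q b * Y b) * (∑ η : Fin M → β, seqw q η * ∑ j, Y (η j)) +
            q b * ∑ η : Fin M → β, seqw q η * (∑ j, Y (η j)) ^ 2 := by
          rw [Finset.mul_sum, Finset.mul_sum, Finset.mul_sum, ← Finset.sum_add_distrib,
            ← Finset.sum_add_distrib]
          exact Finset.sum_congr rfl fun η _ => by ring
        rw [this, i0]; ring
      simp only [e]
      rw [Finset.sum_add_distrib, Finset.sum_add_distrib, ← Finset.sum_mul, ← Finset.mul_sum,
        ← hy, hq]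
      push_cast; ring

/-- Chebyshev. -/
theorem chebyshev {Ω : Type} [Fintype Ω] (μ X : Ω → ℝ) (hμ : ∀ ω, 0 ≤ μ ω) (h1 : ∑ ω, μ ω = 1)
    (m v η : ℝ) (hm : 0 < m) (hη : 0 < η) (hX : ∑ ω, μ ω * X ω = m)
    (hX2 : ∑ ω, μ ω * X ω ^ 2 ≤ (1 + v) * m ^ 2) :
    1 - v / η ^ 2 ≤ ∑ ω, if |X ω - m| ≤ η * m then μ ω else 0 := by
  have h2 : ∑ ω, μ ω * (X ω - m) ^ 2 ≤ v * m ^ 2 := by
    have : ∑ ω, μ ω * (X ω - m) ^ 2 = ∑ ω, μ ω * X ω ^ 2 - 2 * m * ∑ ω, μ ω * X ω +
        m ^ 2 * ∑ ω, μ ω := by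
      rw [Finset.mul_sum, Finset.mul_sum, ← Finset.sum_sub_distrib, ← Finset.sum_add_distrib]
      exact Finset.sum_congr rfl fun ω _ => by ring
    rw [this, hX, h1]
    nlinarith
  have hηm : 0 < (η * m) ^ 2 := by positivity
  have h3 : ∀ ω, μ ω - (if |X ω - m| ≤ η * m then μ ω else 0) ≤
      μ ω * (X ω - m) ^ 2 / (η * m) ^ 2 := by
    intro ω
    by_cases h : |X ω - m| ≤ η * m
    · rw [if_pos h, sub_self]
      exact div_nonneg (mul_nonneg (hμ ω) (sq_nonneg _)) hηm.le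
    · rw [if_neg h, sub_zero, le_div_iff₀ hηm]
      refine mul_le_mul_of_nonneg_left ?_ (hμ ω)
      rw [← sq_abs (X ω - m)]
      exact pow_le_pow_left₀ (by positivity) (not_le.1 h).le 2
  have h4 : ∑ ω, (μ ω - (if |X ω - m| ≤ η * m then μ ω else 0)) ≤
      ∑ ω, μ ω * (X ω - m) ^ 2 / (η * m) ^ 2 := Finset.sum_le_sum fun ω _ => h3 ω
  rw [Finset.sum_sub_distrib, h1, ← Finset.sum_div] at h4
  have h5 : (∑ ω, μ ω * (X ω - m) ^ 2) / (η * m) ^ 2 ≤ v / η ^ 2 := by
    rw [div_le_div_iff₀ hηm (by positivity)]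
    calc _ ≤ v * m ^ 2 * η ^ 2 := mul_le_mul_of_nonneg_right h2 (by positivity)
      _ = _ := by ring
  linarith

theorem one_add_pow_le {x : ℝ} (hx : 0 ≤ x) (l : ℕ) (h : l * x ≤ 1 / 2) :
    (1 + x) ^ l ≤ 1 + 2 * (l * x) := by
  rcases Nat.eq_zero_or_pos l with hl | hl
  · subst hl; simp
  · have hl1 : (1 : ℝ) ≤ l := by exact_mod_cast hl
    have hx1 : x ≤ 1 / 2 := by nlinarith
    have hb := one_add_mul_le_pow (a := -x) (by linarith) l
    have h1 : (1 + x) ^ l * (1 + -x) ^ l ≤ 1 := by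
      rw [← mul_pow]
      exact pow_le_one₀ (by nlinarith) (by nlinarith)
    have h2 : 0 < (1 + x) ^ l := by positivity
    have h3 : (1 + x) ^ l * (1 - l * x) ≤ 1 := by
      refine le_trans ?_ h1
      refine mul_le_mul_of_nonneg_left ?_ h2.le
      linarith
    have h4 : 0 ≤ l * x := by positivity
    nlinarith [mul_nonneg h4 h2.le]

/-- The product of the sample means. -/
noncomputable def prodMean (Y : β → ℝ) {l M : ℕ} (ω : Fin l → Fin M → β) : ℝ :=
  ∏ i, ((∑ j, Y (ω i j)) / M)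

/-- The probability of a family of independent outcomes. -/
def prodw {l M : ℕ} (q : Fin l → β → ℝ) (ω : Fin l → Fin M → β) : ℝ := ∏ i, seqw (q i) (ω i)

theorem sum_prod {l : ℕ} {γ : Type} [Fintype γ] (g : Fin l → γ → ℝ) :
    ∑ ω : Fin l → γ, ∏ i, g i (ω i) = ∏ i, ∑ c, g i c := by
  classical
  rw [Finset.prod_univ_sum]
  rw [Fintype.piFinset_univ]

/-- The product estimator is concentrated. -/
theorem product_estimator [DecidableEq β] {l M : ℕ} (hM : 0 < M) (q : Fin l → β → ℝ)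
    (hq0 : ∀ i b, 0 ≤ q i b)
    (hq1 : ∀ i, ∑ b, q i b = 1) (Y : β → ℝ) (hy : ∀ i, 1 ≤ ∑ b, q i b * Y b)
    (hs : ∀ i, ∑ b, q i b * Y b ^ 2 ≤ 9) (η : ℝ) (hη : 0 < η) (h : (l : ℝ) * (9 / M) ≤ 1 / 2) :
    1 - (2 * (l * (9 / M))) / η ^ 2 ≤ ∑ ω : Fin l → Fin M → β,
      if |prodMean Y ω - ∏ i, ∑ b, q i b * Y b| ≤ η * ∏ i, ∑ b, q i b * Y b then prodw q ω
        else 0 := by
  have hMr : (0 : ℝ) < M := by exact_mod_cast hM
  refine chebyshev (prodw q) (prodMean Y) ?_ ?_ _ _ η ?_ hη ?_ ?_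
  · intro ω
    unfold prodw seqw
    exact Finset.prod_nonneg fun i _ => Finset.prod_nonneg fun j _ => hq0 i _
  · unfold prodw
    rw [sum_prod (fun i => seqw (q i))]
    exact Finset.prod_eq_one fun i _ => (moments (q i) Y (hq1 i) M).1
  · exact Finset.prod_pos fun i _ => lt_of_lt_of_le one_pos (hy i)
  · have : ∀ ω : Fin l → Fin M → β, prodw q ω * prodMean Y ω =
        ∏ i, (seqw (q i) (ω i) * ((∑ j, Y (ω i j)) / M)) := by
      intro ω
      unfold prodw prodMean
      rw [Finset.prod_mul_distrib]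
    simp only [this]
    rw [sum_prod (fun i (η : Fin M → β) => seqw (q i) η * ((∑ j, Y (η j)) / M))]
    refine Finset.prod_congr rfl fun i _ => ?_
    have h1 := (moments (q i) Y (hq1 i) M).2.1
    have : ∑ η : Fin M → β, seqw (q i) η * ((∑ j, Y (η j)) / M) =
        (∑ η : Fin M → β, seqw (q i) η * ∑ j, Y (η j)) / M := by
      rw [Finset.sum_div]
      exact Finset.sum_congr rfl fun η _ => by ring
    rw [this, h1]
    field_simp
  · have : ∀ ω : Fin l → Fin M → β, prodw q ω * prodMean Y ω ^ 2 =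
        ∏ i, (seqw (q i) (ω i) * ((∑ j, Y (ω i j)) / M) ^ 2) := by
      intro ω
      unfold prodw prodMean
      rw [Finset.prod_mul_distrib, Finset.prod_pow]
    simp only [this]
    rw [sum_prod (fun i (η : Fin M → β) => seqw (q i) η * ((∑ j, Y (η j)) / M) ^ 2)]
    have hi : ∀ i, ∑ η : Fin M → β, seqw (q i) η * ((∑ j, Y (η j)) / M) ^ 2 ≤
        (1 + 9 / M) * (∑ b, q i b * Y b) ^ 2 := by
      intro i
      have h1 := (moments (q i) Y (hq1 i) M).2.2
      have : ∑ η : Fin M → β, seqw (q i) η * ((∑ j, Y (η j)) / M) ^ 2 =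
          (∑ η : Fin M → β, seqw (q i) η * (∑ j, Y (η j)) ^ 2) / M ^ 2 := by
        rw [Finset.sum_div]
        exact Finset.sum_congr rfl fun η _ => by ring
      rw [this, h1]
      have h2 : (M * ∑ b, q i b * Y b ^ 2 + M * (M - 1) * (∑ b, q i b * Y b) ^ 2) / (M : ℝ) ^ 2 =
          (∑ b, q i b * Y b ^ 2) / M + (1 - 1 / M) * (∑ b, q i b * Y b) ^ 2 := by
        field_simp
      rw [h2]
      have h3 : (∑ b, q i b * Y b ^ 2) / M ≤ 9 / M := div_le_div_of_nonneg_right (hs i) hMr.le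
      have h4 : 1 ≤ (∑ b, q i b * Y b) ^ 2 := one_le_pow₀ (hy i)
      have h5 : 0 < 9 / (M : ℝ) := by positivity
      have h6 : 0 < 1 / (M : ℝ) := by positivity
      nlinarith
    calc ∏ i, ∑ η : Fin M → β, seqw (q i) η * ((∑ j, Y (η j)) / M) ^ 2
        ≤ ∏ i, ((1 + 9 / M) * (∑ b, q i b * Y b) ^ 2) := by
          refine Finset.prod_le_prod (fun i _ => ?_) (fun i _ => hi i)
          refine Finset.sum_nonneg fun η _ => mul_nonneg ?_ (sq_nonneg _)
          unfold seqw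
          exact Finset.prod_nonneg fun j _ => hq0 i _
      _ = (1 + 9 / M) ^ l * (∏ i, ∑ b, q i b * Y b) ^ 2 := by
          rw [Finset.prod_mul_distrib, Finset.prod_const, Finset.card_univ, Fintype.card_fin,
            Finset.prod_pow]
      _ ≤ (1 + 2 * (l * (9 / M))) * (∏ i, ∑ b, q i b * Y b) ^ 2 :=
          mul_le_mul_of_nonneg_right (one_add_pow_le (by positivity) l h) (sq_nonneg _)

end Pool.Agent.Lib.MP_8b1b48_lc.Est
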