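import Pool.Agent.Lib.MP_8b1b48_lc.Count

/-!
Exchange property (M-convexity) for interior score vectors with varying edge multiplicities.
-/

namespace Pool.Agent.Lib.MP_8b1b48_lc

open Finset

variable {W E : Type} [Fintype W] [DecidableEq W] [Fintype E] [DecidableEq E]

/-- Vertices of `M` together with the edges touching `M`. -/
def U (s t : E → W) (M : Finset W) : Finset (W ⊕ E) :=
  M.disjSum (univ.filter fun e => s e ∈ M ∨ t e ∈ M)

theorem inl_mem_U {s t : E → W} {M : Finset W} {w : W} :
    (Sum.inl w : W ⊕ E) ∈ U s t M ↔ w ∈ M := by simp [U]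

theorem inr_mem_U {s t : E → W} {M : Finset W} {e : E} :
    (Sum.inr e : W ⊕ E) ∈ U s t M ↔ (s e ∈ M ∨ t e ∈ M) := by simp [U]

theorem U_union (s t : E → W) (M M' : Finset W) : U s t (M ∪ M') = U s t M ∪ U s t M' := by
  ext q
  rcases q with w | e
  · simp only [Finset.mem_union, inl_mem_U]
  · simp only [Finset.mem_union, inr_mem_U]; tauto

theorem U_mono {s t : E → W} {M M' : Finset W} (h : M ⊆ M') : U s t M ⊆ U s t M' := by
  intro q
  rcases q with w | e
  · simp only [inl_mem_U]; exact fun hw => h hw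
  · simp only [inr_mem_U]; exact fun hw => hw.imp (fun a => h a) (fun a => h a)

theorem U_empty (s t : E → W) : U s t (∅ : Finset W) = ∅ := by
  ext q
  rcases q with w | e
  · simp [inl_mem_U]
  · simp [inr_mem_U]

/-- Admissible vectors: vertex coordinates are scores, edge coordinates are minus the
multiplicities. -/
structure Good (s t : E → W) (z : W ⊕ E → ℤ) : Prop where
  tot : ∑ q, z q = 0
  cut : ∀ M : Finset W, ∑ q ∈ U s t M, z q + crossInd s t univ M ≤ 0
  mul : ∀ e : E, z (Sum.inr e) ≤ -1

omit [DecidableEq E] [Fintype W] in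
theorem crossInd_compl [Fintype W] (s t : E → W) (M : Finset W) :
    crossInd s t univ Mᶜ = crossInd s t univ M := by
  by_cases h : ∃ e ∈ (univ : Finset E), ¬ (s e ∈ M ↔ t e ∈ M)
  · rw [crossInd_eq_one h, crossInd_eq_one]
    obtain ⟨e, he, hne⟩ := h
    refine ⟨e, he, ?_⟩
    simp only [Finset.mem_compl]; tauto
  · have h' : ∀ e ∈ (univ : Finset E), (s e ∈ M ↔ t e ∈ M) := by
      intro e he
      by_contra hne
      exact h ⟨e, he, hne⟩
    rw [crossInd_eq_zero h', crossInd_eq_zero]
    intro e he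
    simp only [Finset.mem_compl, h' e he]

theorem sum_U (s t : E → W) (z : W ⊕ E → ℤ) (M : Finset W) :
    ∑ q ∈ U s t M, z q = ∑ w ∈ M, z (Sum.inl w) +
      ∑ e : E, if s e ∈ M ∨ t e ∈ M then z (Sum.inr e) else 0 := by
  unfold U
  rw [Finset.sum_disjSum, Finset.sum_filter]

theorem good_iff (s t : E → W) (b : E → ℤ) (hb : ∀ e, 1 ≤ b e) (d : W → ℤ) :
    Good s t (Sum.elim d (fun e => - b e)) ↔ IsScore s t univ b d := by
  have key : ∀ M : Finset W, ∑ q ∈ U s t M, Sum.elim d (fun e => - b e) q =
      ∑ w ∈ M, d w - (∑ e, b e - inside s t univ b Mᶜ) := by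
    intro M
    rw [sum_U]
    simp only [Sum.elim_inl, Sum.elim_inr]
    unfold inside
    rw [← Finset.sum_sub_distrib, sub_eq_add_neg, ← Finset.sum_neg_distrib]
    congr 1
    refine Finset.sum_congr rfl fun e _ => ?_
    simp only [Finset.mem_compl]
    by_cases h1 : s e ∈ M <;> by_cases h2 : t e ∈ M <;> simp [h1, h2]
  constructor
  · intro h
    have h0 := h.tot
    rw [Fintype.sum_sum_type] at h0
    simp only [Sum.elim_inl, Sum.elim_inr, Finset.sum_neg_distrib] at h0
    refine ⟨by linarith, fun S => ?_⟩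
    have h1 := h.cut Sᶜ
    rw [key, compl_compl, crossInd_compl] at h1
    have h2 := Finset.sum_add_sum_compl S d
    linarith
  · intro h
    refine ⟨?_, ?_, ?_⟩
    · rw [Fintype.sum_sum_type]
      simp only [Sum.elim_inl, Sum.elim_inr, Finset.sum_neg_distrib]
      linarith [h.1]
    · intro M
      have h1 := h.2 Mᶜ
      rw [key]
      rw [crossInd_compl] at h1
      have h2 := Finset.sum_add_sum_compl M d
      linarith [h.1]
    · intro e
      simp only [Sum.elim_inr]
      linarith [hb e]

section exchange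

variable {s t : E → W} {z z' : W ⊕ E → ℤ}

theorem sum_U_inter_le (hz : Good s t z) {M M' : Finset W}
    (h : (M ∩ M').Nonempty → ∑ q ∈ U s t (M ∩ M'), z q ≤ -1)
    (hne : (U s t M ∩ U s t M').Nonempty) : ∑ q ∈ U s t M ∩ U s t M', z q ≤ -1 := by
  have hsub : U s t (M ∩ M') ⊆ U s t M ∩ U s t M' :=
    Finset.subset_inter (U_mono Finset.inter_subset_left) (U_mono Finset.inter_subset_right)
  have hX : ∀ q ∈ (U s t M ∩ U s t M') \ U s t (M ∩ M'), z q ≤ -1 := by
    intro q hq
    rw [Finset.mem_sdiff, Finset.mem_inter] at hq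
    rcases q with w | e
    · exfalso
      simp only [inl_mem_U, Finset.mem_inter] at hq
      exact hq.2 hq.1
    · exact hz.mul e
  rw [← Finset.sum_sdiff hsub]
  by_cases hn : (M ∩ M').Nonempty
  · have h1 := h hn
    have h2 : ∑ q ∈ (U s t M ∩ U s t M') \ U s t (M ∩ M'), z q ≤ 0 :=
      Finset.sum_nonpos fun q hq => by linarith [hX q hq]
    linarith
  · rw [Finset.not_nonempty_iff_eq_empty] at hn
    rw [hn, U_empty, Finset.sum_empty, Finset.sdiff_empty]
    rw [hn, U_empty, Finset.sdiff_empty] at hX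
    obtain ⟨q0, hq0⟩ := hne
    have h3 := Finset.sum_le_sum_of_subset_of_nonneg (f := fun q => - z q)
      (Finset.singleton_subset_iff.2 hq0) (fun q hq _ => by linarith [hX q hq])
    rw [Finset.sum_singleton, Finset.sum_neg_distrib] at h3
    have h4 := hX q0 hq0
    linarith

/-- The exchange property. -/
theorem exchange (hz : Good s t z) (hz' : Good s t z') (p : W ⊕ E) (hp : z' p < z p) :
    ∃ q, z q < z' q ∧
      Good s t (fun x => z x - (if x = p then 1 else 0) + (if x = q then 1 else 0)) := by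
  classical
  by_contra hcon
  -- the component of p
  let vp : W := Sum.elim id s p
  have hvp : ∀ M : Finset W, p ∉ U s t M → vp ∉ M := by
    intro M hM h
    apply hM
    rcases p with w | e
    · exact inl_mem_U.2 h
    · exact inr_mem_U.2 (Or.inl h)
  set C : Finset W := univ.filter fun w => conn s t univ vp w with hC
  have hvC : vp ∈ C := by
    rw [hC, Finset.mem_filter]; exact ⟨Finset.mem_univ _, rfl⟩
  have hcl : ∀ e : E, (s e ∈ C ↔ t e ∈ C) := by
    intro e
    simp only [hC, Finset.mem_filter, Finset.mem_univ, true_and]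
    have h := conn_edge s t univ (Finset.mem_univ e)
    unfold conn at h ⊢
    rw [h]
  have hpC : p ∈ U s t C := by
    by_contra h
    exact hvp C h hvC
  have hcross : ∀ M : Finset W, M ⊆ C → M.Nonempty → p ∉ U s t M → crossInd s t univ M = 1 := by
    intro M hM hne hpM
    apply crossInd_eq_one
    by_contra hno
    obtain ⟨w, hw⟩ := hne
    have h1 : conn s t univ vp w := by
      have := hM hw
      rw [hC, Finset.mem_filter] at this
      exact this.2
    apply hvp M hpM
    refine (conn_lift (P := fun w => w ∈ M) (fun e he => ?_) h1).2 hw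
    by_contra h'
    exact hno ⟨e, he, h'⟩
  -- the family of tight sets
  let F : Finset (Finset W) := univ.filter fun M =>
    M ⊆ C ∧ M.Nonempty ∧ p ∉ U s t M ∧ ∑ q ∈ U s t M, z q = -1
  have hF : ∀ M, M ∈ F ↔ (M ⊆ C ∧ M.Nonempty ∧ p ∉ U s t M ∧ ∑ q ∈ U s t M, z q = -1) := by
    intro M; simp [F]
  have hle : ∀ (y : W ⊕ E → ℤ), Good s t y → ∀ M : Finset W, M ⊆ C → M.Nonempty →
      p ∉ U s t M → ∑ q ∈ U s t M, y q ≤ -1 := by
    intro y hy M h1 h2 h3
    have := hy.cut M
    rw [hcross M h1 h2 h3] at this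
    linarith
  have hunion : ∀ M ∈ F, ∀ M' ∈ F, (U s t M ∩ U s t M').Nonempty → M ∪ M' ∈ F := by
    intro M hM M' hM' hne
    rw [hF] at hM hM' ⊢
    obtain ⟨a1, a2, a3, a4⟩ := hM
    obtain ⟨b1, b2, b3, b4⟩ := hM'
    have hsub : M ∪ M' ⊆ C := Finset.union_subset a1 b1
    have hnem : (M ∪ M').Nonempty := a2.mono Finset.subset_union_left
    have hpn : p ∉ U s t (M ∪ M') := by
      rw [U_union, Finset.mem_union]; tauto
    refine ⟨hsub, hnem, hpn, ?_⟩
    have h1 := hle z hz _ hsub hnem hpn
    have h2 := sum_U_inter_le hz (M := M) (M' := M') (fun hn =>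
      hle z hz _ (Finset.inter_subset_left.trans a1) hn
        (fun h => a3 (U_mono Finset.inter_subset_left h))) hne
    have h3 := Finset.sum_union_inter (s₁ := U s t M) (s₂ := U s t M') (f := z)
    rw [← U_union] at h3
    linarith
  -- maximal members
  let MM : Finset (Finset W) := F.filter fun M => ∀ M' ∈ F, M ⊆ M' → M' = M
  have hMM : ∀ M ∈ F, ∃ M' ∈ MM, M ⊆ M' := by
    intro M hM
    obtain ⟨M', h1, h2⟩ := Finset.exists_max_image (F.filter fun M' => M ⊆ M') Finset.card
      ⟨M, Finset.mem_filter.2 ⟨hM, Finset.Subset.refl _⟩⟩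
    rw [Finset.mem_filter] at h1
    refine ⟨M', Finset.mem_filter.2 ⟨h1.1, fun M'' h3 h4 => ?_⟩, h1.2⟩
    have h5 := h2 M'' (Finset.mem_filter.2 ⟨h3, h1.2.trans h4⟩)
    exact (Finset.eq_of_subset_of_card_le h4 h5).symm
  have hdisj : (MM : Set (Finset W)).PairwiseDisjoint (U s t) := by
    intro M hM M' hM' hne
    rw [Finset.mem_coe, Finset.mem_filter] at hM hM'
    rw [Function.onFun, Finset.disjoint_iff_inter_eq_empty]
    by_contra hint
    have h1 := hunion M hM.1 M' hM'.1 (Finset.nonempty_iff_ne_empty.2 hint)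
    have h2 := hM.2 _ h1 Finset.subset_union_left
    have h3 := hM'.2 _ h1 Finset.subset_union_right
    exact hne (h2.symm.trans h3)
  let T : Finset (W ⊕ E) := MM.biUnion (U s t)
  have hT1 : ∑ q ∈ T, z q = ∑ M ∈ MM, ∑ q ∈ U s t M, z q := Finset.sum_biUnion hdisj
  have hT2 : ∑ q ∈ T, z' q = ∑ M ∈ MM, ∑ q ∈ U s t M, z' q := Finset.sum_biUnion hdisj
  have hT3 : ∑ q ∈ T, z' q ≤ ∑ q ∈ T, z q := by
    rw [hT1, hT2]
    refine Finset.sum_le_sum fun M hM => ?_
    rw [Finset.mem_filter, hF] at hM
    obtain ⟨⟨a1, a2, a3, a4⟩, _⟩ := hM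
    rw [a4]
    exact hle z' hz' M a1 a2 a3
  have hTC : T ⊆ U s t C := by
    intro q hq
    rw [Finset.mem_biUnion] at hq
    obtain ⟨M, hM, hq⟩ := hq
    rw [Finset.mem_filter, hF] at hM
    exact U_mono hM.1.1 hq
  have hpT : p ∉ T := by
    intro hq
    rw [Finset.mem_biUnion] at hq
    obtain ⟨M, hM, hq⟩ := hq
    rw [Finset.mem_filter, hF] at hM
    exact hM.1.2.2.1 hq
  -- closed set C
  have hUC : ∀ M : Finset W, Disjoint (U s t (M ∩ C)) (U s t (M \ C)) := by
    intro M
    rw [Finset.disjoint_left]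
    intro q h1 h2
    rcases q with w | e
    · simp only [inl_mem_U, Finset.mem_inter, Finset.mem_sdiff] at h1 h2
      tauto
    · simp only [inr_mem_U, Finset.mem_inter, Finset.mem_sdiff] at h1 h2
      have := hcl e
      tauto
  have hsplit : ∀ (y : W ⊕ E → ℤ) (M : Finset W), ∑ q ∈ U s t M, y q =
      ∑ q ∈ U s t (M ∩ C), y q + ∑ q ∈ U s t (M \ C), y q := by
    intro y M
    rw [← Finset.sum_union (hUC M), ← U_union]
    congr 2
    ext w; simp only [Finset.mem_union, Finset.mem_inter, Finset.mem_sdiff]; tauto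
  have hzero : ∀ y : W ⊕ E → ℤ, Good s t y → ∑ q ∈ U s t C, y q = 0 := by
    intro y hy
    have h1 := hsplit y univ
    have h0 : U s t univ = univ := by
      ext q
      rcases q with w | e
      · simp [inl_mem_U]
      · simp [inr_mem_U]
    rw [h0, hy.tot, Finset.univ_inter] at h1
    have h2 := hy.cut C
    have h3 := hy.cut (univ \ C)
    have h4 := crossInd_nonneg s t univ C
    have h5 := crossInd_nonneg s t univ (univ \ C)
    linarith
  -- outside T there is no increase
  have hout : ∀ q ∈ U s t C \ T, z' q ≤ z q := by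
    intro q hq
    rw [Finset.mem_sdiff] at hq
    obtain ⟨hqC, hqT⟩ := hq
    by_contra hlt
    rw [not_le] at hlt
    apply hcon
    refine ⟨q, hlt, ?_⟩
    have hsum : ∀ S : Finset (W ⊕ E), ∑ x ∈ S, (z x - (if x = p then 1 else 0) +
        (if x = q then 1 else 0)) = ∑ x ∈ S, z x - (if p ∈ S then 1 else 0) +
          (if q ∈ S then 1 else 0) := by
      intro S
      rw [Finset.sum_add_distrib, Finset.sum_sub_distrib, Finset.sum_ite_eq',
        Finset.sum_ite_eq']
    refine ⟨?_, ?_, ?_⟩
    · rw [hsum, hz.tot]; simp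
    · intro M
      rw [hsum]
      by_contra hviol
      rw [not_le] at hviol
      have h1 := hz.cut M
      have hq1 : q ∈ U s t M := by
        by_contra h
        rw [if_neg h] at hviol
        split_ifs at hviol <;> linarith
      have hp1 : p ∉ U s t M := by
        intro h
        rw [if_pos h, if_pos hq1] at hviol
        linarith
      rw [if_neg hp1, if_pos hq1] at hviol
      have hcrle : crossInd s t univ M ≤ 1 := by
        unfold crossInd; split_ifs <;> norm_num
      have h2 := hsplit z M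
      have h3 := hz.cut (M \ C)
      have h4 := crossInd_nonneg s t univ (M \ C)
      have hqM : q ∈ U s t (M ∩ C) := by
        rcases q with w | e
        · simp only [inl_mem_U, Finset.mem_inter] at hq1 hqC ⊢
          exact ⟨hq1, hqC⟩
        · simp only [inr_mem_U, Finset.mem_inter] at hq1 hqC ⊢
          have := hcl e
          tauto
      have hne : (M ∩ C).Nonempty := by
        rw [Finset.nonempty_iff_ne_empty]
        intro h
        rw [h, U_empty] at hqM
        exact absurd hqM (Finset.notMem_empty _)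
      have hpM : p ∉ U s t (M ∩ C) := fun h => hp1 (U_mono Finset.inter_subset_left h)
      have h5 := hle z hz (M ∩ C) Finset.inter_subset_right hne hpM
      have h6 : M ∩ C ∈ F := by
        rw [hF]
        refine ⟨Finset.inter_subset_right, hne, hpM, ?_⟩
        linarith
      obtain ⟨M', hM', hsub⟩ := hMM _ h6
      apply hqT
      rw [Finset.mem_biUnion]
      exact ⟨M', hM', U_mono hsub hqM⟩
    · intro e
      have h1 := hz.mul e
      have h2 := hz'.mul e
      by_cases h : (Sum.inr e : W ⊕ E) = q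
      · simp only [h, if_true]
        rw [h] at h1 h2
        split_ifs <;> linarith
      · simp only [h, if_false]
        split_ifs <;> linarith
  have e1 := hzero z hz
  have e2 := hzero z' hz'
  rw [← Finset.sum_sdiff hTC] at e1 e2
  have e3 : ∑ q ∈ U s t C \ T, z' q < ∑ q ∈ U s t C \ T, z q :=
    Finset.sum_lt_sum hout ⟨p, Finset.mem_sdiff.2 ⟨hpC, hpT⟩, hp⟩
  linarith

end exchange

end Pool.Agent.Lib.MP_8b1b48_lc
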