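import Pool.Agent.Lib.MP_8b1b48_lc.States

/-!
Approximation of `T(G; x, 1)`, `0 ≤ x < 1`, from polynomially many steps of the basis exchange
walk.
-/

namespace Pool.Agent.Lib.MP_8b1b48_lc

open Finset

theorem params {x : ℝ} (hx0 : 0 ≤ x) (hx1 : x < 1) : 1 ≤ nx x ∧ ax x ≤ 1 ∧
    ((ax x = 0 ∧ px x = 0 ∧ 1 / (1 - x) = nx x) ∨
      (ax x = 1 ∧ 0 < px x ∧ px x < 1 ∧ 1 / (1 - x) = nx x + px x)) := by
  have hpos : 0 < 1 - x := by linarith
  have h1 : 1 ≤ 1 / (1 - x) := by rw [le_div_iff₀ hpos]; linarith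
  have h2 : (nx x : ℝ) ≤ 1 / (1 - x) := Nat.floor_le (by positivity)
  have h3 : 1 / (1 - x) < nx x + 1 := Nat.lt_floor_add_one _
  have hp0 : 0 ≤ px x := by unfold px; linarith
  refine ⟨?_, ?_, ?_⟩
  · unfold nx
    exact Nat.le_floor (by exact_mod_cast h1)
  · unfold ax; split_ifs <;> norm_num
  · by_cases h : px x = 0
    · left
      refine ⟨by unfold ax; rw [if_pos h], h, ?_⟩
      have : px x = 1 / (1 - x) - nx x := rfl
      linarith
    · right
      refine ⟨by unfold ax; rw [if_neg h], lt_of_le_of_ne hp0 (Ne.symm h), ?_, ?_⟩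
      · unfold px; linarith
      · unfold px; ring

variable {V E : Type} [Fintype V] [DecidableEq V] [Fintype E] [DecidableEq E]

/-- Approximation of `T(G; x, 1)` by the weighted number of states. -/
theorem approx (s t : E → V) {x : ℝ} (hx0 : 0 ≤ x) (hx1 : x < 1) {L : ℕ} (hL : 0 < L) :
    (1 - (((nx x : ℝ) + ax x) * Fintype.card E) ^ 2 / L) * tutte s t x 1 ≤
      scale s t x L * Mix.Z (gw (lx x)) (xstates s t x L) ∧
    scale s t x L * Mix.Z (gw (lx x)) (xstates s t x L) ≤ tutte s t x 1 := by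
  obtain ⟨h1, -, h2⟩ := params hx0 hx1
  unfold scale xstates
  rw [Z_gw]
  exact tutte_bounds s t hx0 hx1 (nx x) (ax x) L (px x) hL h1 h2

omit [DecidableEq V] [DecidableEq E] in
theorem scale_pos (s t : E → V) {x : ℝ} (hx0 : 0 ≤ x) (hx1 : x < 1) (L : ℕ) :
    0 < scale s t x L := by
  obtain ⟨-, -, h2⟩ := params hx0 hx1
  unfold scale
  have hpos : 0 < 1 - x := by linarith
  have hc : (0 : ℝ) < ((2 * L).choose L : ℝ) := by
    exact_mod_cast Nat.choose_pos (by omega)
  have hp : 0 < px x ^ (ax x * Fintype.card E) := by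
    rcases h2 with ⟨ha, -, -⟩ | ⟨ha, hp, -, -⟩
    · rw [ha, zero_mul, pow_zero]; exact one_pos
    · exact pow_pos hp _
  positivity

omit [Fintype V] [DecidableEq V] [Fintype E] [DecidableEq E] in
theorem gw_pos {x : ℝ} (hx0 : 0 ≤ x) (hx1 : x < 1) {N : ℕ} (b : Ground V E N (ax x)) :
    0 < gw (lx x) b := by
  obtain ⟨-, -, h2⟩ := params hx0 hx1
  rcases b with b | ⟨e, i⟩
  · exact one_pos
  · rcases h2 with ⟨ha, -, -⟩ | ⟨ha, hp, hp1, -⟩
    · exact absurd i.2 (by omega)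
    · change 0 < lx x
      unfold lx
      have : 0 < 1 - px x := by linarith
      positivity

theorem two_le {r : ℕ} (hr : 0 < r) : (2 : ℝ) ≤ (1 + 1 / (r : ℝ)) ^ r := by
  have hr' : (0 : ℝ) < r := by exact_mod_cast hr
  have h0 : (0 : ℝ) < 1 / r := by positivity
  have := one_add_mul_le_pow (a := 1 / (r : ℝ)) (by linarith) r
  calc (2 : ℝ) = 1 + r * (1 / r) := by field_simp; norm_num
    _ ≤ _ := this

theorem le_half {r : ℕ} (hr : 0 < r) : (1 - 1 / (r : ℝ)) ^ r ≤ 1 / 2 := by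
  have hr' : (1 : ℝ) ≤ r := by exact_mod_cast hr
  have h0 : 0 < 1 / (r : ℝ) := by positivity
  have h1 : 1 / (r : ℝ) ≤ 1 := by rw [div_le_one (by linarith)]; exact hr'
  have h2 := two_le hr
  have h3 : (1 - 1 / (r : ℝ)) ^ r * (1 + 1 / (r : ℝ)) ^ r ≤ 1 := by
    rw [← mul_pow]
    exact pow_le_one₀ (mul_nonneg (by linarith) (by linarith)) (by nlinarith)
  have h4 : 0 ≤ (1 - 1 / (r : ℝ)) ^ r := pow_nonneg (by linarith) _
  nlinarith

theorem nat_le_two_pow (n : ℕ) : (n : ℝ) ≤ 2 ^ n := by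
  exact_mod_cast Nat.lt_two_pow_self.le

/-- The algorithm is accurate with probability at least `3/4`. -/
theorem success (s t : E → V) [Nonempty V] {x : ℝ} (hx0 : 0 ≤ x) (hx1 : x < 1) {Λ D L m l M : ℕ}
    (hΛ : 1 ≤ Λ) (hΛ2 : ax x = 0 ∨ (lx x ≤ Λ ∧ 1 / lx x ≤ Λ)) {ε : ℝ} (hε : 0 < ε) (hε1 : ε ≤ 1)
    (hD : 1 ≤ ε * D) (hDE : Fintype.card E ≤ D)
    (hL : L = 2 * (nx x + ax x) ^ 2 * D ^ 3)
    (hl : l = xrank V E x L * (2 * L * Fintype.card V + ax x * Fintype.card E +
      2 * Λ * Fintype.card E + 3 + 2 * D))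
    (hM : M = 4608 * l * D ^ 2)
    (hm : m = xrank V E x L * (2 * L * Fintype.card V + ax x * Fintype.card E +
      2 * Λ * Fintype.card E + 96 * l * D))
    {B₀ : Finset (Ground V E (2 * L) (ax x))} (hB₀ : B₀ ∈ xstates s t x L) :
    3 / 4 ≤ successProb s t x ε L m l M B₀ := by
  obtain ⟨hn, ha1, hcase⟩ := params hx0 hx1
  have hD0 : 0 < D := by
    rcases Nat.eq_zero_or_pos D with h | h
    · rw [h] at hD; norm_num at hD
    · exact h
  have hDr : (1 : ℝ) ≤ D := by exact_mod_cast hD0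
  have hL0 : 0 < L := by rw [hL]; positivity
  have hr0 : 0 < xrank V E x L := rank_pos hL0 _ _
  have hl0 : 0 < l := by rw [hl]; positivity
  have hlr : (0 : ℝ) < l := by exact_mod_cast hl0
  obtain ⟨k, hk⟩ : ∃ k, xrank V E x L = k + 1 := ⟨xrank V E x L - 1, by omega⟩
  have hw : ∀ b : Ground V E (2 * L) (ax x), 0 < gw (lx x) b := gw_pos hx0 hx1
  have hE : Mix.Exch (xstates s t x L) := states_exch s t L hn _
  have hU : Mix.Unif (xstates s t x L) (k + 1) := by
    rw [← hk]; exact states_unif s t L _ _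
  set Zt := Mix.Z (gw (lx x)) (xstates s t x L) with hZt
  set R := Zt / Mix.wt (gw (lx x)) B₀ with hR
  have hRle : R ≤ 2 ^ (2 * L * Fintype.card V + ax x * Fintype.card E) *
      (Λ : ℝ) ^ (2 * Fintype.card E) := by
    refine ratio_le s t L (nx x) (ax x) hΛ ?_ B₀
    rcases hcase with ⟨ha, -, -⟩ | ⟨ha, hp, hp1, -⟩
    · exact Or.inl ha
    · refine Or.inr ⟨ha, ?_, ?_⟩
      · unfold lx
        have : 0 < 1 - px x := by linarith
        positivity
      · rcases hΛ2 with h | h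
        · omega
        · exact h
  set N := 2 * L * Fintype.card V + ax x * Fintype.card E with hN
  have hR2 : R ≤ 2 ^ (N + 2 * Λ * Fintype.card E) := by
    have hΛp : (Λ : ℝ) ^ (2 * Fintype.card E) ≤ 2 ^ (2 * Λ * Fintype.card E) := by
      calc (Λ : ℝ) ^ (2 * Fintype.card E) ≤ (2 ^ Λ) ^ (2 * Fintype.card E) :=
            pow_le_pow_left₀ (Nat.cast_nonneg _) (nat_le_two_pow Λ) _
        _ = 2 ^ (2 * Λ * Fintype.card E) := by rw [← pow_mul]; congr 1; ring
    calc R ≤ 2 ^ N * (Λ : ℝ) ^ (2 * Fintype.card E) := hRle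
      _ ≤ 2 ^ N * 2 ^ (2 * Λ * Fintype.card E) :=
          mul_le_mul_of_nonneg_left hΛp (pow_nonneg zero_le_two _)
      _ = _ := (pow_add 2 N _).symm
  have hR0 : 0 ≤ R := div_nonneg (Mix.Z_nonneg hw _) (Mix.wt_pos hw B₀).le
  have hεD : 1 ≤ ε / 2 * (2 * D) := by linarith
  have h1 : 8 * R ≤ ε / 2 * (1 + 1 / ((k + 1 : ℕ) : ℝ)) ^ l := by
    have h2 := two_le hr0
    rw [hk] at h2
    have h3 : (2 : ℝ) ^ (N + 2 * Λ * Fintype.card E + 3 + 2 * D) ≤
        (1 + 1 / ((k + 1 : ℕ) : ℝ)) ^ l := by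
      rw [hl, hk, pow_mul]
      exact pow_le_pow_left₀ (zero_le_two : (0 : ℝ) ≤ 2) h2 _
    have h4 : (2 : ℝ) * D ≤ 2 ^ (2 * D) := by
      have := nat_le_two_pow (2 * D)
      push_cast at this
      exact this
    calc 8 * R ≤ 8 * 2 ^ (N + 2 * Λ * Fintype.card E) := by linarith
      _ ≤ 8 * 2 ^ (N + 2 * Λ * Fintype.card E) * (ε / 2 * 2 ^ (2 * D)) := by
          refine le_mul_of_one_le_right (by positivity) (hεD.trans ?_)
          exact mul_le_mul_of_nonneg_left h4 (by positivity)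
      _ = ε / 2 * 2 ^ (N + 2 * Λ * Fintype.card E + 3 + 2 * D) := by
          rw [pow_add _ _ (2 * D), pow_add _ _ 3]; ring
      _ ≤ _ := mul_le_mul_of_nonneg_left h3 (by positivity)
  have h2 : 1152 * (l : ℝ) ≤ M * (ε / 2) ^ 2 := by
    rw [hM]
    push_cast
    have : 1 ≤ (ε * D) ^ 2 := one_le_pow₀ hD
    calc 1152 * (l : ℝ) ≤ 1152 * l * (ε * D) ^ 2 := le_mul_of_one_le_right (by positivity) this
      _ = _ := by ring
  have h3 : (1 - 1 / ((k + 1 : ℕ) : ℝ)) ^ m * R ≤ (ε / 2 / (24 * l)) ^ 2 := by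
    have h4 := le_half hr0
    rw [hk] at h4
    have hk1 : (0 : ℝ) ≤ 1 - 1 / ((k + 1 : ℕ) : ℝ) := by
      rw [sub_nonneg, div_le_one (by positivity)]
      push_cast; linarith [Nat.cast_nonneg (α := ℝ) k]
    have h5 : (1 - 1 / ((k + 1 : ℕ) : ℝ)) ^ m ≤
        (1 / 2) ^ (N + 2 * Λ * Fintype.card E + 96 * l * D) := by
      rw [hm, hk, pow_mul]
      exact pow_le_pow_left₀ (pow_nonneg hk1 _) h4 _
    have h6 : (48 : ℝ) * l * D ≤ 2 ^ (48 * l * D) := by
      have := nat_le_two_pow (48 * l * D)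
      push_cast at this
      exact this
    have h7 : (0 : ℝ) < 48 * l * D := by positivity
    calc (1 - 1 / ((k + 1 : ℕ) : ℝ)) ^ m * R
        ≤ (1 / 2) ^ (N + 2 * Λ * Fintype.card E + 96 * l * D) *
          2 ^ (N + 2 * Λ * Fintype.card E) := mul_le_mul h5 hR2 hR0 (by positivity)
      _ = (1 / 2 ^ (48 * l * D)) ^ 2 := by
          rw [pow_add, one_div, inv_pow, inv_pow, one_div, inv_pow, ← pow_mul]
          have : 48 * l * D * 2 = 96 * l * D := by ring
          rw [this]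
          field_simp
      _ ≤ (1 / (48 * l * D)) ^ 2 := by
          refine pow_le_pow_left₀ (by positivity) ?_ 2
          exact one_div_le_one_div_of_le h7 h6
      _ ≤ _ := by
          refine pow_le_pow_left₀ (by positivity) ?_ 2
          rw [div_div, div_le_div_iff₀ h7 (by positivity)]
          calc 1 * (2 * (24 * (l : ℝ))) = 48 * l * 1 := by ring
            _ ≤ 48 * l * (ε * D) := mul_le_mul_of_nonneg_left hD (by positivity)
            _ = _ := by ring
  have key := Mix.estimator hw hE hU hB₀ (ε := ε / 2) (by positivity) (by linarith) hl0 h1 h2 h3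
  refine key.trans ?_
  unfold successProb
  refine Finset.sum_le_sum fun ω _ => ?_
  have hrun : 0 ≤ Mix.runs (gw (lx x)) (xstates s t x L) (xrank V E x L) B₀ m ω := by
    unfold Mix.runs
    refine Finset.prod_nonneg fun i _ => Finset.prod_nonneg fun j _ => ?_
    refine Mix.walk_nonneg ?_ _ _ _ _ _
    exact Mix.tw_pos hw _ (by positivity)
  rw [← hk]
  by_cases h : |Mix.estimate (gw (lx x)) (xrank V E x L) B₀ ω - Zt| ≤ ε / 2 * Zt
  · rw [if_pos h, if_pos]
    have hap := approx s t hx0 hx1 hL0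
    have hsc := scale_pos s t hx0 hx1 L
    rw [← hZt] at hap
    set T := tutte s t x 1 with hT
    have hLr : (0 : ℝ) < L := by exact_mod_cast hL0
    have hdiv : (((nx x : ℝ) + ax x) * Fintype.card E) ^ 2 / L ≤ ε / 2 := by
      rw [div_le_iff₀ hLr, hL]
      push_cast
      have h4 : (Fintype.card E : ℝ) ≤ D := by exact_mod_cast hDE
      have h5 : (Fintype.card E : ℝ) ^ 2 ≤ (D : ℝ) ^ 2 := pow_le_pow_left₀ (by positivity) h4 2
      calc (((nx x : ℝ) + ax x) * Fintype.card E) ^ 2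
          = ((nx x : ℝ) + ax x) ^ 2 * (Fintype.card E : ℝ) ^ 2 := by ring
        _ ≤ ((nx x : ℝ) + ax x) ^ 2 * (D : ℝ) ^ 2 :=
            mul_le_mul_of_nonneg_left h5 (by positivity)
        _ ≤ ((nx x : ℝ) + ax x) ^ 2 * (D : ℝ) ^ 2 * (ε * D) :=
            le_mul_of_one_le_right (by positivity) hD
        _ = _ := by ring
    have hT0 : 0 ≤ T := le_trans (mul_nonneg hsc.le (Mix.Z_nonneg hw _)) hap.2
    have hlow : (1 - ε / 2) * T ≤ scale s t x L * Zt := by
      refine le_trans ?_ hap.1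
      exact mul_le_mul_of_nonneg_right (by linarith) hT0
    rw [abs_le] at h ⊢
    unfold output
    set X := Mix.estimate (gw (lx x)) (xrank V E x L) B₀ ω with hX
    have h8 : scale s t x L * X ≤ (1 + ε / 2) * (scale s t x L * Zt) := by
      calc scale s t x L * X ≤ scale s t x L * ((1 + ε / 2) * Zt) :=
            mul_le_mul_of_nonneg_left (by linarith [h.2]) hsc.le
        _ = _ := by ring
    have h9 : (1 - ε / 2) * (scale s t x L * Zt) ≤ scale s t x L * X := by
      calc (1 - ε / 2) * (scale s t x L * Zt) = scale s t x L * ((1 - ε / 2) * Zt) := by ring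
        _ ≤ _ := mul_le_mul_of_nonneg_left (by linarith [h.1]) hsc.le
    have h10 : (1 + ε / 2) * (scale s t x L * Zt) ≤ (1 + ε / 2) * T :=
      mul_le_mul_of_nonneg_left hap.2 (by linarith)
    have h11 : (1 - ε / 2) * ((1 - ε / 2) * T) ≤ (1 - ε / 2) * (scale s t x L * Zt) :=
      mul_le_mul_of_nonneg_left hlow (by linarith)
    have h12 : (1 - ε) * T ≤ (1 - ε / 2) * ((1 - ε / 2) * T) := by
      rw [← mul_assoc]
      exact mul_le_mul_of_nonneg_right (by nlinarith) hT0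
    have h13 : (1 + ε / 2) * T ≤ (1 + ε) * T := mul_le_mul_of_nonneg_right (by linarith) hT0
    constructor <;> linarith
  · rw [if_neg h]
    split_ifs
    · exact hrun
    · exact le_rfl

end Pool.Agent.Lib.MP_8b1b48_lc
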