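import Pool.Agent.Lib.MP_8b1b48_lc.Lift

/-!
States described by orientations (integral flows).
-/

namespace Pool.Agent.Lib.MP_8b1b48_lc

open Finset

variable {V E : Type} [Fintype V] [DecidableEq V] [Fintype E] [DecidableEq E]

omit [DecidableEq E] [Fintype V] in
theorem IsOrient.le {s t : E → V} {b : E → ℤ} {d : V → ℤ} (h : IsOrient s t b d)
    (S : Finset V) : inside s t univ b S ≤ ∑ v ∈ S, d v := by
  obtain ⟨f, hf, hd⟩ := h
  have h1 : ∑ v ∈ S, d v = ∑ e, ((if s e ∈ S then f e else 0) +
      (if t e ∈ S then b e - f e else 0)) := by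
    rw [Finset.sum_congr rfl fun v _ => hd v, Finset.sum_comm]
    refine Finset.sum_congr rfl fun e _ => ?_
    rw [Finset.sum_add_distrib, Finset.sum_ite_eq, Finset.sum_ite_eq]
  rw [h1]
  unfold inside
  refine Finset.sum_le_sum fun e _ => ?_
  have := hf e
  by_cases hs : s e ∈ S <;> by_cases ht : t e ∈ S <;> simp [hs, ht] <;> linarith

omit [DecidableEq E] in
theorem IsOrient.total {s t : E → V} {b : E → ℤ} {d : V → ℤ} (h : IsOrient s t b d) :
    ∑ v, d v = ∑ e, b e := by
  obtain ⟨f, hf, hd⟩ := h
  rw [Finset.sum_congr rfl fun v _ => hd v, Finset.sum_comm]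
  refine Finset.sum_congr rfl fun e _ => ?_
  rw [Finset.sum_add_distrib, Finset.sum_ite_eq, Finset.sum_ite_eq]
  simp

omit [DecidableEq E] in
theorem card_sigma_fst (c : V → ℕ) (S : Finset V) :
    (univ.filter fun p : Σ v, Fin (c v) => p.1 ∈ S).card = ∑ v ∈ S, c v := by
  have : (univ.filter fun p : Σ v, Fin (c v) => p.1 ∈ S) = S.sigma fun v => univ := by
    ext p; simp
  rw [this, Finset.card_sigma]
  simp

/-- Landau's theorem for multigraphs, via Hall's theorem. -/
theorem isOrient_of_le {s t : E → V} {b : E → ℤ} {d : V → ℤ} (hb : ∀ e, 0 ≤ b e)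
    (hsum : ∑ v, d v = ∑ e, b e) (hle : ∀ S : Finset V, inside s t univ b S ≤ ∑ v ∈ S, d v) :
    IsOrient s t b d := by
  classical
  have hd0 : ∀ v, 0 ≤ d v := by
    intro v
    have h1 := hle {v}
    rw [Finset.sum_singleton] at h1
    exact le_trans (inside_nonneg (fun e _ => hb e) _) h1
  set bn : E → ℕ := fun e => (b e).toNat with hbn
  set dn : V → ℕ := fun v => (d v).toNat with hdn
  have hbn' : ∀ e, (bn e : ℤ) = b e := fun e => Int.toNat_of_nonneg (hb e)
  have hdn' : ∀ v, (dn v : ℤ) = d v := fun v => Int.toNat_of_nonneg (hd0 v)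
  set N : (Σ e, Fin (bn e)) → Finset (Σ v, Fin (dn v)) := fun p =>
    univ.filter fun q => q.1 = s p.1 ∨ q.1 = t p.1 with hN
  have hall : ∀ A : Finset (Σ e, Fin (bn e)), A.card ≤ (A.biUnion N).card := by
    intro A
    set S : Finset V := (A.image fun p => s p.1) ∪ (A.image fun p => t p.1) with hS
    have h1 : A.biUnion N = univ.filter fun q : Σ v, Fin (dn v) => q.1 ∈ S := by
      ext q
      rw [Finset.mem_biUnion, Finset.mem_filter, hS, Finset.mem_union, Finset.mem_image,
        Finset.mem_image]
      constructor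
      · rintro ⟨p, hp, hq⟩
        rw [hN] at hq
        simp only [Finset.mem_filter, Finset.mem_univ, true_and] at hq
        refine ⟨Finset.mem_univ _, ?_⟩
        rcases hq with hq | hq
        · exact Or.inl ⟨p, hp, hq.symm⟩
        · exact Or.inr ⟨p, hp, hq.symm⟩
      · rintro ⟨_, ⟨p, hp, hq⟩ | ⟨p, hp, hq⟩⟩
        · refine ⟨p, hp, ?_⟩
          rw [hN]
          simp only [Finset.mem_filter, Finset.mem_univ, true_and]
          exact Or.inl hq.symm
        · refine ⟨p, hp, ?_⟩
          rw [hN]
          simp only [Finset.mem_filter, Finset.mem_univ, true_and]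
          exact Or.inr hq.symm
    rw [h1, card_sigma_fst]
    have h2 : A ⊆ univ.filter fun p : Σ e, Fin (bn e) =>
        p.1 ∈ (univ.filter fun e => s e ∈ S ∧ t e ∈ S) := by
      intro p hp
      rw [Finset.mem_filter, Finset.mem_filter]
      refine ⟨Finset.mem_univ _, Finset.mem_univ _, ?_, ?_⟩
      · rw [hS, Finset.mem_union]
        exact Or.inl (Finset.mem_image_of_mem _ hp)
      · rw [hS, Finset.mem_union]
        exact Or.inr (Finset.mem_image_of_mem (fun p : (Σ e, Fin (bn e)) => t p.1) hp)
    have h3 : A.card ≤ ∑ e ∈ univ.filter (fun e => s e ∈ S ∧ t e ∈ S), bn e := by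
      rw [← card_sigma_fst bn]
      exact Finset.card_le_card h2
    have h4 : ((∑ e ∈ univ.filter (fun e => s e ∈ S ∧ t e ∈ S), bn e : ℕ) : ℤ) =
        inside s t univ b S := by
      unfold inside
      push_cast
      rw [Finset.sum_filter]
      refine Finset.sum_congr rfl fun e _ => ?_
      rw [hbn']
    have h5 : ((∑ v ∈ S, dn v : ℕ) : ℤ) = ∑ v ∈ S, d v := by
      push_cast
      exact Finset.sum_congr rfl fun v _ => hdn' v
    have h6 : ((∑ e ∈ univ.filter (fun e => s e ∈ S ∧ t e ∈ S), bn e : ℕ) : ℤ) ≤
        ((∑ v ∈ S, dn v : ℕ) : ℤ) := by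
      rw [h4, h5]; exact hle S
    exact h3.trans (by exact_mod_cast h6)
  obtain ⟨g, hg, hgN⟩ := (Finset.all_card_le_biUnion_card_iff_exists_injective N).1 hall
  have hcard : Fintype.card (Σ e, Fin (bn e)) = Fintype.card (Σ v, Fin (dn v)) := by
    rw [Fintype.card_sigma, Fintype.card_sigma]
    simp only [Fintype.card_fin]
    have : ((∑ e, bn e : ℕ) : ℤ) = ((∑ v, dn v : ℕ) : ℤ) := by
      push_cast
      rw [Finset.sum_congr rfl fun e _ => hbn' e, Finset.sum_congr rfl fun v _ => hdn' v, hsum]
    exact_mod_cast this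
  have hbij : Function.Bijective g := (Fintype.bijective_iff_injective_and_card g).2 ⟨hg, hcard⟩
  have hend : ∀ e (i : Fin (bn e)), (g ⟨e, i⟩).1 = s e ∨ (g ⟨e, i⟩).1 = t e := by
    intro e i
    have := hgN ⟨e, i⟩
    rw [hN] at this
    simpa using this
  have hfib : ∀ v, dn v = ∑ e, (univ.filter fun i : Fin (bn e) => (g ⟨e, i⟩).1 = v).card := by
    intro v
    have h1 : (univ.filter fun q : Σ v, Fin (dn v) => q.1 ∈ ({v} : Finset V)).card = dn v := by
      rw [card_sigma_fst, Finset.sum_singleton]
    have h2 : (univ.filter fun q : Σ v, Fin (dn v) => q.1 ∈ ({v} : Finset V)).card =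
        (univ.filter fun p : Σ e, Fin (bn e) => (g p).1 = v).card := by
      symm
      refine Finset.card_bij (fun p _ => g p) ?_ ?_ ?_
      · intro p hp
        rw [Finset.mem_filter] at hp ⊢
        exact ⟨Finset.mem_univ _, Finset.mem_singleton.2 hp.2⟩
      · intro p _ q _ h; exact hg h
      · intro q hq
        obtain ⟨p, rfl⟩ := hbij.2 q
        rw [Finset.mem_filter] at hq
        exact ⟨p, Finset.mem_filter.2 ⟨Finset.mem_univ _, Finset.mem_singleton.1 hq.2⟩, rfl⟩
    have h3 : (univ.filter fun p : Σ e, Fin (bn e) => (g p).1 = v) =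
        (univ : Finset E).sigma fun e => univ.filter fun i : Fin (bn e) => (g ⟨e, i⟩).1 = v := by
      ext ⟨e, i⟩; simp
    rw [← h1, h2, h3, Finset.card_sigma]
  refine ⟨fun e => ((univ.filter fun i : Fin (bn e) => (g ⟨e, i⟩).1 = s e).card : ℤ), ?_, ?_⟩
  · intro e
    refine ⟨by positivity, ?_⟩
    rw [← hbn' e]
    have := Finset.card_le_univ (univ.filter fun i : Fin (bn e) => (g ⟨e, i⟩).1 = s e)
    rw [Fintype.card_fin] at this
    change ((univ.filter fun i : Fin (bn e) => (g ⟨e, i⟩).1 = s e).card : ℤ) ≤ (bn e : ℤ)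
    exact_mod_cast this
  · intro v
    rw [← hdn' v, hfib v]
    push_cast
    refine Finset.sum_congr rfl fun e _ => ?_
    by_cases hs : s e = v
    · by_cases ht : t e = v
      · rw [if_pos hs, if_pos ht]
        have : (univ.filter fun i : Fin (bn e) => (g ⟨e, i⟩).1 = v) = univ := by
          rw [Finset.filter_true_of_mem]
          intro i _
          rcases hend e i with h | h
          · exact h.trans hs
          · exact h.trans ht
        rw [this, Finset.card_univ, Fintype.card_fin, ← hbn' e]; ring
      · rw [if_pos hs, if_neg ht, hs, add_zero]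
    · by_cases ht : t e = v
      · rw [if_neg hs, if_pos ht, zero_add, ← hbn' e]
        have h1 : (univ.filter fun i : Fin (bn e) => (g ⟨e, i⟩).1 = v) =
            univ.filter fun i : Fin (bn e) => ¬ (g ⟨e, i⟩).1 = s e := by
          refine Finset.filter_congr fun i _ => ?_
          constructor
          · intro h h'; exact hs (h'.symm.trans h)
          · intro h
            rcases hend e i with h' | h'
            · exact absurd h' h
            · exact h'.trans ht
        have h2 := Finset.card_filter_add_card_filter_not (s := (univ : Finset (Fin (bn e))))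
          (fun i => (g ⟨e, i⟩).1 = s e)
        rw [Finset.card_univ, Fintype.card_fin] at h2
        rw [h1]
        have h3 : ((univ.filter fun i : Fin (bn e) => (g ⟨e, i⟩).1 = s e).card : ℤ) +
          ((univ.filter fun i : Fin (bn e) => ¬ (g ⟨e, i⟩).1 = s e).card : ℤ) = bn e := by
          exact_mod_cast h2
        linarith
      · rw [if_neg hs, if_neg ht, add_zero]
        have : (univ.filter fun i : Fin (bn e) => (g ⟨e, i⟩).1 = v) = ∅ := by
          rw [Finset.filter_eq_empty_iff]
          intro i _ h
          rcases hend e i with h' | h'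
          · exact hs (h'.symm.trans h)
          · exact ht (h'.symm.trans h)
        rw [this]; simp

omit [Fintype V] in
theorem sum_bump (u v : V) (d : V → ℤ) (S : Finset V) :
    ∑ w ∈ S, bump u v d w = ∑ w ∈ S, d w - (if u ∈ S then 1 else 0) + (if v ∈ S then 1 else 0) := by
  unfold bump
  rw [Finset.sum_add_distrib, Finset.sum_sub_distrib, Finset.sum_ite_eq', Finset.sum_ite_eq']

/-- Interior score vectors are the score vectors which stay score vectors when one unit is moved
along an edge in either direction. -/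
theorem isScore_iff_orient {s t : E → V} {b : E → ℤ} {d : V → ℤ} (hb : ∀ e, 0 ≤ b e) :
    IsScore s t univ b d ↔ IsOrient s t b d ∧
      ∀ e, s e ≠ t e → IsOrient s t b (bump (s e) (t e) d) ∧
        IsOrient s t b (bump (t e) (s e) d) := by
  constructor
  · rintro ⟨h1, h2⟩
    have hge : ∀ S : Finset V, inside s t univ b S ≤ ∑ v ∈ S, d v := by
      intro S
      have := h2 S
      have := crossInd_nonneg s t univ S
      linarith
    have hcr : ∀ e : E, ∀ S : Finset V, ¬ (s e ∈ S ↔ t e ∈ S) →
        inside s t univ b S + 1 ≤ ∑ v ∈ S, d v := by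
      intro e S h
      have h3 := h2 S
      rw [crossInd_eq_one ⟨e, Finset.mem_univ _, h⟩] at h3
      exact h3
    refine ⟨isOrient_of_le hb h1 hge, fun e _ => ⟨isOrient_of_le hb ?_ ?_,
      isOrient_of_le hb ?_ ?_⟩⟩
    · rw [sum_bump]; simp [h1]
    · intro S
      rw [sum_bump]
      by_cases hs : s e ∈ S
      · by_cases ht : t e ∈ S
        · rw [if_pos hs, if_pos ht]
          have := hge S
          linarith
        · rw [if_pos hs, if_neg ht]
          have := hcr e S (by tauto)
          linarith
      · rw [if_neg hs]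
        have := hge S
        split_ifs <;> linarith
    · rw [sum_bump]; simp [h1]
    · intro S
      rw [sum_bump]
      by_cases ht : t e ∈ S
      · by_cases hs : s e ∈ S
        · rw [if_pos hs, if_pos ht]
          have := hge S
          linarith
        · rw [if_neg hs, if_pos ht]
          have := hcr e S (by tauto)
          linarith
      · rw [if_neg ht]
        have := hge S
        split_ifs <;> linarith
  · rintro ⟨h1, h2⟩
    refine ⟨h1.total, fun S => ?_⟩
    by_cases h : ∃ e ∈ (univ : Finset E), ¬ (s e ∈ S ↔ t e ∈ S)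
    · rw [crossInd_eq_one h]
      obtain ⟨e, -, hne⟩ := h
      have hst : s e ≠ t e := fun h' => hne (by rw [h'])
      obtain ⟨h3, h4⟩ := h2 e hst
      by_cases hs : s e ∈ S
      · have ht : t e ∉ S := by tauto
        have h5 := h3.le S
        rw [sum_bump, if_pos hs, if_neg ht] at h5
        linarith
      · have ht : t e ∈ S := by tauto
        have h5 := h4.le S
        rw [sum_bump, if_pos ht, if_neg hs] at h5
        linarith
    · rw [crossInd_eq_zero (fun e he => by
        by_contra hne
        exact h ⟨e, he, hne⟩)]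
      have := h1.le S
      linarith

theorem flowState_iff (s t : E → V) {N a : ℕ} (L n : ℕ) (B : Finset (Ground V E N a)) :
    FlowState s t L n B ↔ IsState s t L n B := by
  unfold FlowState IsState
  rw [isScore_iff_orient]
  intro e
  have := mval_ge n B e
  have h1 : (0 : ℤ) ≤ n := by positivity
  linarith

end Pool.Agent.Lib.MP_8b1b48_lc
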