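import Pool.Agent.Lib.MP_8b1b48_lc.Graph

/-!
The signed forest sum of a multigraph and its deletion-contraction rules.
-/

namespace Pool.Agent.Lib.MP_8b1b48_lc

open Finset

variable {W E : Type}

/-- `F` is a forest. -/
def IsForest (s t : E → W) (F : Finset E) : Prop := F.card + comps s t F ≤ Nat.card W

open Classical in
/-- The signed forest sum. -/
noncomputable def fsum (s t : E → W) (A : Finset E) (κ : E → ℝ) : ℝ :=
  ∑ F ∈ A.powerset, if IsForest s t F then (-1) ^ (rk s t A - F.card) * ∏ e ∈ F, κ e else 0

theorem fsum_empty [Finite W] (s t : E → W) (κ : E → ℝ) : fsum s t ∅ κ = 1 := by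
  classical
  unfold fsum
  rw [Finset.powerset_empty, Finset.sum_singleton, if_pos]
  · simp [rk, comps_empty]
  · unfold IsForest
    rw [comps_empty]; simp

theorem card_le_rk [Finite W] {s t : E → W} {A F : Finset E} (hF : F ⊆ A)
    (h : IsForest s t F) : F.card ≤ rk s t A := by
  have h1 := comps_mono s t hF
  unfold IsForest at h
  unfold rk
  omega

variable [DecidableEq E]

theorem fsum_loop [Finite W] (s t : E → W) {A : Finset E} {e : E} (he : e ∉ A) (hl : s e = t e)
    (κ : E → ℝ) : fsum s t (insert e A) κ = fsum s t A κ := by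
  classical
  unfold fsum
  rw [Finset.sum_powerset_insert he]
  have hconn : ∀ F : Finset E, conn s t F (s e) (t e) := by
    intro F; unfold conn; rw [hl]
  have h1 : rk s t (insert e A) = rk s t A := by
    unfold rk
    rw [comps_insert_of_conn s t (hconn A)]
  rw [h1]
  have h2 : ∀ F ∈ A.powerset, (if IsForest s t (insert e F) then
      (-1 : ℝ) ^ (rk s t A - (insert e F).card) * ∏ e ∈ insert e F, κ e else 0) = 0 := by
    intro F hF
    rw [Finset.mem_powerset] at hF
    rw [if_neg]
    unfold IsForest
    rw [comps_insert_of_conn s t (hconn F), Finset.card_insert_of_notMem (fun h => he (hF h))]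
    have := card_le_card_add_comps s t F
    omega
  rw [Finset.sum_congr rfl h2]
  simp

section contraction

variable [Finite W] [DecidableEq W] (s t : E → W) (e : E) (hne : s e ≠ t e)

/-- Source map after contraction of `e`. -/
noncomputable def cs (f : E) : {w : W // w ≠ t e} := contr (s e) (t e) hne (s f)
/-- Target map after contraction of `e`. -/
noncomputable def ct (f : E) : {w : W // w ≠ t e} := contr (s e) (t e) hne (t f)

omit [Finite W] in
theorem comps_c (F : Finset E) :
    comps (cs s t e hne) (ct s t e hne) F = comps s t (insert e F) :=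
  comps_contr s t F e hne

theorem isForest_insert {F : Finset E} (he : e ∉ F) :
    IsForest s t (insert e F) ↔ IsForest (cs s t e hne) (ct s t e hne) F := by
  unfold IsForest
  rw [comps_c, Finset.card_insert_of_notMem he]
  have := card_ne_add_one (t e)
  omega

theorem rk_insert (A : Finset E) :
    rk s t (insert e A) = rk (cs s t e hne) (ct s t e hne) A + 1 := by
  unfold rk
  rw [comps_c]
  have h1 := card_ne_add_one (t e)
  have h2 := comps_le (cs s t e hne) (ct s t e hne) A
  rw [comps_c] at h2
  omega

theorem sum_insert_part {A : Finset E} (he : e ∉ A) (κ : E → ℝ) :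
    (∑ F ∈ A.powerset, (open Classical in if IsForest s t (insert e F) then
      (-1 : ℝ) ^ (rk s t (insert e A) - (insert e F).card) * ∏ e ∈ insert e F, κ e else 0)) =
      κ e * fsum (cs s t e hne) (ct s t e hne) A κ := by
  classical
  unfold fsum
  rw [Finset.mul_sum]
  refine Finset.sum_congr rfl ?_
  intro F hF
  rw [Finset.mem_powerset] at hF
  have heF : e ∉ F := fun h => he (hF h)
  by_cases h : IsForest s t (insert e F)
  · rw [if_pos h, if_pos ((isForest_insert s t e hne heF).1 h), rk_insert s t e hne,
      Finset.card_insert_of_notMem heF, Finset.prod_insert heF, Nat.add_sub_add_right]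
    ring
  · rw [if_neg h, if_neg (fun h' => h ((isForest_insert s t e hne heF).2 h'))]
    simp

/-- Deletion-contraction for a non-bridge. -/
theorem fsum_conn {A : Finset E} (he : e ∉ A) (hc : conn s t A (s e) (t e)) (κ : E → ℝ) :
    fsum s t (insert e A) κ = κ e * fsum (cs s t e hne) (ct s t e hne) A κ + fsum s t A κ := by
  classical
  have h1 : rk s t (insert e A) = rk s t A := by
    unfold rk
    rw [comps_insert_of_conn s t hc]
  rw [← sum_insert_part s t e hne he]
  unfold fsum
  rw [Finset.sum_powerset_insert he, add_comm]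
  congr 1
  rw [h1]

omit [Finite W] [DecidableEq W] in
theorem not_conn_mono {A F : Finset E} (hF : F ⊆ A) (hc : ¬ conn s t A (s e) (t e)) :
    ¬ conn s t F (s e) (t e) := fun h => hc (conn_mono hF h)

/-- Deletion-contraction for a bridge. -/
theorem fsum_bridge {A : Finset E} (he : e ∉ A) (hc : ¬ conn s t A (s e) (t e)) (κ : E → ℝ) :
    fsum s t (insert e A) κ = (κ e - 1) * fsum (cs s t e hne) (ct s t e hne) A κ := by
  classical
  have hrk : rk s t A = rk (cs s t e hne) (ct s t e hne) A := by
    unfold rk
    rw [comps_c]
    have h1 := card_ne_add_one (t e)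
    have h2 := comps_insert_of_not s t hc
    omega
  have hrk1 : rk s t (insert e A) = rk s t A + 1 := by
    rw [rk_insert s t e hne, hrk]
  have hfor : ∀ F ⊆ A, (IsForest s t F ↔ IsForest (cs s t e hne) (ct s t e hne) F) := by
    intro F hF
    unfold IsForest
    rw [comps_c]
    have h1 := card_ne_add_one (t e)
    have h2 := comps_insert_of_not s t (not_conn_mono s t e hF hc)
    omega
  have h0 : fsum s t (insert e A) κ =
      (∑ F ∈ A.powerset, (if IsForest s t F then
        (-1 : ℝ) ^ (rk s t (insert e A) - F.card) * ∏ e ∈ F, κ e else 0)) +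
      κ e * fsum (cs s t e hne) (ct s t e hne) A κ := by
    rw [← sum_insert_part s t e hne he]
    unfold fsum
    rw [Finset.sum_powerset_insert he]
  rw [h0]
  have h3 : (∑ F ∈ A.powerset, (if IsForest s t F then
        (-1 : ℝ) ^ (rk s t (insert e A) - F.card) * ∏ e ∈ F, κ e else 0)) =
      - fsum (cs s t e hne) (ct s t e hne) A κ := by
    unfold fsum
    rw [← Finset.sum_neg_distrib]
    refine Finset.sum_congr rfl ?_
    intro F hF
    rw [Finset.mem_powerset] at hF
    by_cases h : IsForest s t F
    · have hle := card_le_rk hF h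
      rw [if_pos h, if_pos ((hfor F hF).1 h), hrk1, ← hrk, Nat.succ_sub hle, pow_succ]
      ring
    · rw [if_neg h, if_neg (fun h' => h ((hfor F hF).2 h'))]
      simp
  rw [h3]; ring

end contraction

end Pool.Agent.Lib.MP_8b1b48_lc
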