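import Pool.Agent.Lib.MP_8b1b48_lc.Defs

/-!
Finite multigraphs given by two endpoint maps `s t : E → W`; number of connected components of an
edge set, behaviour under adding an edge and under contraction.
-/

namespace Pool.Agent.Lib.MP_8b1b48_lc

open Finset

variable {W E : Type}

/-- `u` and `v` are in the same connected component of `(W, A)`. -/
def conn (s t : E → W) (A : Finset E) (u v : W) : Prop :=
  Quot.mk (rel s t A) u = Quot.mk (rel s t A) v

theorem conn_edge (s t : E → W) (A : Finset E) {e : E} (he : e ∈ A) : conn s t A (s e) (t e) :=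
  Quot.sound ⟨e, he, rfl, rfl⟩

theorem conn_lift {s t : E → W} {A : Finset E} {P : W → Prop}
    (hP : ∀ e ∈ A, (P (s e) ↔ P (t e))) {u v : W} (h : conn s t A u v) : P u ↔ P v := by
  let f : Quot (rel s t A) → Prop := Quot.lift P (by
    rintro a b ⟨e, he, rfl, rfl⟩
    exact propext (hP e he))
  have : f (Quot.mk _ u) = f (Quot.mk _ v) := congrArg f h
  exact iff_of_eq this

theorem conn_mono {s t : E → W} {A B : Finset E} (hAB : A ⊆ B) {u v : W}
    (h : conn s t A u v) : conn s t B u v := by
  let f : Quot (rel s t A) → Quot (rel s t B) := Quot.lift (fun w => Quot.mk _ w) (by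
    rintro a b ⟨e, he, rfl, rfl⟩
    exact Quot.sound ⟨e, hAB he, rfl, rfl⟩)
  exact congrArg f h

theorem comps_empty [Finite W] (s t : E → W) : comps s t ∅ = Nat.card W := by
  unfold comps
  refine Nat.card_congr (Equiv.ofBijective (Quot.lift id (by
    rintro a b ⟨e, he, _⟩
    exact absurd he (Finset.notMem_empty e))) ⟨?_, ?_⟩)
  · intro a b
    refine Quot.inductionOn a ?_
    intro x
    refine Quot.inductionOn b ?_
    intro y h
    exact congrArg _ h
  · intro x
    exact ⟨Quot.mk _ x, rfl⟩

theorem card_ne_add_one {X : Type} [Finite X] (b : X) :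
    Nat.card {q : X // q ≠ b} + 1 = Nat.card X := by
  classical
  have := Fintype.ofFinite X
  rw [Nat.card_eq_fintype_card, Nat.card_eq_fintype_card]
  have h3 : Fintype.card {q : X // q ≠ b} = Fintype.card X - 1 := by
    rw [Fintype.card_subtype_compl]
    simp
  have h4 : 0 < Fintype.card X := Fintype.card_pos_iff.2 ⟨b⟩
  omega

theorem comps_mono [Finite W] (s t : E → W) {A B : Finset E} (hAB : A ⊆ B) :
    comps s t B ≤ comps s t A := by
  unfold comps
  refine Nat.card_le_card_of_surjective (Quot.lift (fun w => Quot.mk _ w) (by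
    rintro a b ⟨e, he, rfl, rfl⟩
    exact Quot.sound ⟨e, hAB he, rfl, rfl⟩)) ?_
  intro x
  refine Quot.inductionOn x ?_
  intro w
  exact ⟨Quot.mk _ w, rfl⟩

theorem comps_le [Finite W] (s t : E → W) (A : Finset E) : comps s t A ≤ Nat.card W := by
  rw [← comps_empty s t]
  exact comps_mono s t (Finset.empty_subset A)

variable [DecidableEq E]

theorem comps_insert_of_conn (s t : E → W) {A : Finset E} {e : E}
    (h : conn s t A (s e) (t e)) : comps s t (insert e A) = comps s t A := by
  unfold comps
  refine Nat.card_congr (Equiv.symm ⟨Quot.lift (fun w => Quot.mk _ w) ?_,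
    Quot.lift (fun w => Quot.mk _ w) ?_, ?_, ?_⟩)
  · rintro a b ⟨f, hf, rfl, rfl⟩
    exact Quot.sound ⟨f, Finset.mem_insert_of_mem hf, rfl, rfl⟩
  · rintro a b ⟨f, hf, rfl, rfl⟩
    rcases Finset.mem_insert.1 hf with rfl | hf
    · exact h
    · exact Quot.sound ⟨f, hf, rfl, rfl⟩
  · intro x
    refine Quot.inductionOn x ?_
    intro w; rfl
  · intro x
    refine Quot.inductionOn x ?_
    intro w; rfl

open Classical in
theorem comps_insert_of_not [Finite W] (s t : E → W) {A : Finset E} {e : E}
    (h : ¬ conn s t A (s e) (t e)) : comps s t (insert e A) + 1 = comps s t A := by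
  set Q := Quot (rel s t A) with hQ
  set a : Q := Quot.mk _ (s e) with ha
  set b : Q := Quot.mk _ (t e) with hb
  have hab : a ≠ b := h
  have e1 : Quot (rel s t (insert e A)) ≃ {q : Q // q ≠ b} := by
    refine ⟨Quot.lift (fun w => if hw : (Quot.mk _ w : Q) = b then ⟨a, hab⟩ else ⟨Quot.mk _ w, hw⟩) ?_,
      fun q => (Quot.lift (fun w => Quot.mk _ w) ?_ : Q → Quot (rel s t (insert e A))) q.1, ?_, ?_⟩
    · rintro x y ⟨f, hf, rfl, rfl⟩
      rcases Finset.mem_insert.1 hf with rfl | hf
      · have h1 : ¬ ((Quot.mk _ (s f) : Q) = b) := hab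
        simp only [h1, dif_neg, not_false_eq_true]
        rw [dif_pos hb.symm]
      · have : (Quot.mk (rel s t A) (s f) : Q) = Quot.mk _ (t f) := Quot.sound ⟨f, hf, rfl, rfl⟩
        simp only [this]
    · rintro x y ⟨f, hf, rfl, rfl⟩
      exact Quot.sound ⟨f, Finset.mem_insert_of_mem hf, rfl, rfl⟩
    · intro x
      refine Quot.inductionOn x ?_
      intro w
      by_cases hw : (Quot.mk _ w : Q) = b
      · simp only [hw, dif_pos]
        have h1 : (Quot.mk (rel s t (insert e A)) (s e)) = Quot.mk _ (t e) :=
          Quot.sound ⟨e, Finset.mem_insert_self _ _, rfl, rfl⟩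
        have h2 : conn s t (insert e A) w (t e) :=
          conn_mono (Finset.subset_insert _ _) hw
        exact h1.trans h2.symm
      · simp only [hw, dif_neg, not_false_eq_true]
    · rintro ⟨q, hq⟩
      revert hq
      refine Quot.inductionOn q ?_
      intro w hw
      simp only [ne_eq] at hw
      simp only [hw, dif_neg, not_false_eq_true]
  have hfin : Finite Q := inferInstance
  unfold comps
  rw [Nat.card_congr e1]
  exact card_ne_add_one b

theorem card_le_card_add_comps [Finite W] (s t : E → W) (A : Finset E) :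
    Nat.card W ≤ A.card + comps s t A := by
  classical
  induction A using Finset.induction_on with
  | empty => rw [comps_empty]; omega
  | insert e A he ih =>
    rw [Finset.card_insert_of_notMem he]
    by_cases h : conn s t A (s e) (t e)
    · rw [comps_insert_of_conn s t h]; omega
    · have := comps_insert_of_not s t h
      omega

/-- The map which identifies `v` with `u`. -/
noncomputable def contr [DecidableEq W] (u v : W) (huv : u ≠ v) (w : W) : {w : W // w ≠ v} :=
  if h : w = v then ⟨u, huv⟩ else ⟨w, h⟩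

theorem contr_of_eq [DecidableEq W] {u v : W} (huv : u ≠ v) : contr u v huv v = ⟨u, huv⟩ := by
  simp [contr]

theorem contr_of_ne [DecidableEq W] {u v : W} (huv : u ≠ v) {w : W} (hw : w ≠ v) :
    contr u v huv w = ⟨w, hw⟩ := by
  simp [contr, hw]

theorem comps_contr [DecidableEq W] (s t : E → W) (F : Finset E) (e : E) (hne : s e ≠ t e) :
    comps (fun f => contr (s e) (t e) hne (s f)) (fun f => contr (s e) (t e) hne (t f)) F =
      comps s t (insert e F) := by
  have hst : (Quot.mk (rel s t (insert e F)) (s e)) = Quot.mk _ (t e) :=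
    Quot.sound ⟨e, Finset.mem_insert_self _ _, rfl, rfl⟩
  have key : ∀ w : W, Quot.mk (rel s t (insert e F)) (contr (s e) (t e) hne w).1 =
      Quot.mk (rel s t (insert e F)) w := by
    intro w
    by_cases hw : w = t e
    · subst hw
      rw [contr_of_eq]
      exact hst
    · rw [contr_of_ne hne hw]
  unfold comps
  refine Nat.card_congr ⟨Quot.lift (fun w => Quot.mk _ w.1) ?_,
    Quot.lift (fun w => Quot.mk _ (contr (s e) (t e) hne w)) ?_, ?_, ?_⟩
  · rintro a b ⟨f, hf, rfl, rfl⟩
    rw [key, key]
    exact Quot.sound ⟨f, Finset.mem_insert_of_mem hf, rfl, rfl⟩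
  · rintro a b ⟨f, hf, rfl, rfl⟩
    rcases Finset.mem_insert.1 hf with rfl | hf
    · rw [contr_of_eq, contr_of_ne hne hne]
    · exact Quot.sound ⟨f, hf, rfl, rfl⟩
  · intro x
    refine Quot.inductionOn x ?_
    rintro ⟨w, hw⟩
    show Quot.mk _ (contr (s e) (t e) hne w) = _
    rw [contr_of_ne hne hw]
  · intro x
    refine Quot.inductionOn x ?_
    intro w
    exact key w

end Pool.Agent.Lib.MP_8b1b48_lc
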