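import Pool.Agent.Lib.MP_8b1b48_lc.Exch

/-!
The lifted family of states and its exchange property.
-/

namespace Pool.Agent.Lib.MP_8b1b48_lc

open Finset

variable {V E : Type} [Fintype V] [DecidableEq V] [Fintype E] [DecidableEq E]

/-- The coordinate of a ground element. -/
def coord {N a : ℕ} : Ground V E N a → V ⊕ E := Sum.map Prod.fst Prod.fst

/-- The states. -/
def IsState (s t : E → V) {N a : ℕ} (L n : ℕ) (B : Finset (Ground V E N a)) : Prop :=
  IsScore s t univ (mval n B) (dval L B)

/-- The vector of a state. -/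
def zvec {N a : ℕ} (L n : ℕ) (B : Finset (Ground V E N a)) (q : V ⊕ E) : ℤ :=
  ((B.filter fun x => coord x = q).card : ℤ) - Sum.elim (fun _ => (L : ℤ)) (fun _ => (n : ℤ) + a) q

omit [Fintype V] [Fintype E] in
theorem card_coord_inl {N a : ℕ} (B : Finset (Ground V E N a)) (v : V) :
    (B.filter fun x => coord x = Sum.inl v).card =
      (univ.filter fun i : Fin N => Sum.inl (v, i) ∈ B).card := by
  symm
  refine Finset.card_bij (fun i _ => Sum.inl (v, i)) ?_ ?_ ?_
  · intro i hi
    rw [Finset.mem_filter] at hi ⊢
    exact ⟨hi.2, rfl⟩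
  · intro i _ j _ h
    simpa using h
  · intro x hx
    rw [Finset.mem_filter] at hx
    rcases x with ⟨w, i⟩ | ⟨e, i⟩
    · have : w = v := by simpa [coord] using hx.2
      subst this
      exact ⟨i, Finset.mem_filter.2 ⟨Finset.mem_univ _, hx.1⟩, rfl⟩
    · simp [coord] at hx

omit [Fintype V] [Fintype E] in
theorem card_coord_inr {N a : ℕ} (B : Finset (Ground V E N a)) (e : E) :
    (B.filter fun x => coord x = Sum.inr e).card =
      (univ.filter fun i : Fin a => Sum.inr (e, i) ∈ B).card := by
  symm
  refine Finset.card_bij (fun i _ => Sum.inr (e, i)) ?_ ?_ ?_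
  · intro i hi
    rw [Finset.mem_filter] at hi ⊢
    exact ⟨hi.2, rfl⟩
  · intro i _ j _ h
    simpa using h
  · intro x hx
    rw [Finset.mem_filter] at hx
    rcases x with ⟨w, i⟩ | ⟨f, i⟩
    · simp [coord] at hx
    · have : f = e := by simpa [coord] using hx.2
      subst this
      exact ⟨i, Finset.mem_filter.2 ⟨Finset.mem_univ _, hx.1⟩, rfl⟩

omit [Fintype V] [Fintype E] in
theorem zvec_eq {N a : ℕ} (L n : ℕ) (B : Finset (Ground V E N a)) :
    zvec L n B = Sum.elim (dval L B) (fun e => - mval n B e) := by
  funext q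
  rcases q with v | e
  · simp only [zvec, dval, Sum.elim_inl]
    rw [card_coord_inl]
  · simp only [zvec, mval, Sum.elim_inr]
    rw [card_coord_inr]; ring

omit [Fintype V] [Fintype E] in
theorem mval_ge {N a : ℕ} (n : ℕ) (B : Finset (Ground V E N a)) (e : E) : (n : ℤ) ≤ mval n B e := by
  unfold mval
  have h := Finset.card_le_univ (univ.filter fun i : Fin a => Sum.inr (e, i) ∈ B)
  rw [Fintype.card_fin] at h
  have : ((univ.filter fun i : Fin a => Sum.inr (e, i) ∈ B).card : ℤ) ≤ a := by exact_mod_cast h
  linarith

omit [Fintype V] [Fintype E] in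
theorem mval_le {N a : ℕ} (n : ℕ) (B : Finset (Ground V E N a)) (e : E) :
    mval n B e ≤ (n : ℤ) + a := by
  unfold mval
  have : (0 : ℤ) ≤ ((univ.filter fun i : Fin a => Sum.inr (e, i) ∈ B).card : ℤ) := by positivity
  linarith

theorem isState_iff_good (s t : E → V) {N a : ℕ} (L : ℕ) {n : ℕ} (hn : 1 ≤ n)
    (B : Finset (Ground V E N a)) : IsState s t L n B ↔ Good s t (zvec L n B) := by
  unfold IsState
  rw [zvec_eq, good_iff]
  intro e
  have := mval_ge n B e
  have h1 : (1 : ℤ) ≤ n := by exact_mod_cast hn
  linarith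

omit [Fintype V] [Fintype E] in
theorem zvec_exchange {N a : ℕ} (L n : ℕ) (B : Finset (Ground V E N a)) {x y : Ground V E N a}
    (hx : x ∈ B) (hy : y ∉ B) : zvec L n (insert y (B.erase x)) =
      fun q => zvec L n B q - (if q = coord x then 1 else 0) + (if q = coord y then 1 else 0) := by
  funext q
  have hy' : y ∉ (B.erase x) := fun h => hy (Finset.mem_of_mem_erase h)
  unfold zvec
  have h1 : (((insert y (B.erase x)).filter fun z => coord z = q).card : ℤ) =
      (((B.erase x).filter fun z => coord z = q).card : ℤ) + (if q = coord y then 1 else 0) := by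
    rw [Finset.filter_insert]
    by_cases h : coord y = q
    · rw [if_pos h, Finset.card_insert_of_notMem (fun h' => hy' (Finset.mem_filter.1 h').1),
        if_pos h.symm]
      push_cast; ring
    · rw [if_neg h, if_neg (fun h' => h h'.symm)]; ring
  have h2 : ((B.filter fun z => coord z = q).card : ℤ) =
      (((B.erase x).filter fun z => coord z = q).card : ℤ) + (if q = coord x then 1 else 0) := by
    conv_lhs => rw [← Finset.insert_erase hx]
    rw [Finset.filter_insert]
    by_cases h : coord x = q
    · rw [if_pos h, Finset.card_insert_of_notMem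
        (fun h' => (Finset.notMem_erase x B) (Finset.mem_filter.1 h').1), if_pos h.symm]
      push_cast; ring
    · rw [if_neg h, if_neg (fun h' => h h'.symm)]; ring
  rw [h1, h2]; ring

/-- Exchange property for states. -/
theorem state_exchange (s t : E → V) {N a : ℕ} (L : ℕ) {n : ℕ} (hn : 1 ≤ n)
    {B B' : Finset (Ground V E N a)} (hB : IsState s t L n B) (hB' : IsState s t L n B')
    {x : Ground V E N a} (hx : x ∈ B) (hx' : x ∉ B') :
    ∃ y ∈ B', y ∉ B ∧ IsState s t L n (insert y (B.erase x)) := by
  rw [isState_iff_good s t L hn] at hB hB'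
  by_cases h : ∃ y ∈ B', y ∉ B ∧ coord y = coord x
  · obtain ⟨y, h1, h2, h3⟩ := h
    refine ⟨y, h1, h2, ?_⟩
    rw [isState_iff_good s t L hn, zvec_exchange L n B hx h2, h3]
    simpa using hB
  · have hsub : (B'.filter fun z => coord z = coord x) ⊂ (B.filter fun z => coord z = coord x) := by
      rw [Finset.ssubset_iff_of_subset]
      · exact ⟨x, Finset.mem_filter.2 ⟨hx, rfl⟩, fun h' => hx' (Finset.mem_filter.1 h').1⟩
      · intro y hy
        rw [Finset.mem_filter] at hy ⊢
        refine ⟨?_, hy.2⟩
        by_contra hyB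
        exact h ⟨y, hy.1, hyB, hy.2⟩
    have hlt := Finset.card_lt_card hsub
    have hp : zvec L n B' (coord x) < zvec L n B (coord x) := by
      unfold zvec
      have : ((B'.filter fun z => coord z = coord x).card : ℤ) <
        ((B.filter fun z => coord z = coord x).card : ℤ) := by exact_mod_cast hlt
      linarith
    obtain ⟨q, hq1, hq2⟩ := exchange hB hB' (coord x) hp
    have hlt2 : (B.filter fun z => coord z = q).card < (B'.filter fun z => coord z = q).card := by
      unfold zvec at hq1
      have : ((B.filter fun z => coord z = q).card : ℤ) <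
        ((B'.filter fun z => coord z = q).card : ℤ) := by linarith
      exact_mod_cast this
    have hex : ∃ y ∈ (B'.filter fun z => coord z = q), y ∉ (B.filter fun z => coord z = q) := by
      by_contra hno
      have : (B'.filter fun z => coord z = q) ⊆ (B.filter fun z => coord z = q) := by
        intro y hy
        by_contra hyn
        exact hno ⟨y, hy, hyn⟩
      exact absurd (Finset.card_le_card this) (not_le.2 hlt2)
    obtain ⟨y, hy1, hy2⟩ := hex
    rw [Finset.mem_filter] at hy1 hy2
    have hyB : y ∉ B := fun h' => hy2 ⟨h', hy1.2⟩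
    refine ⟨y, hy1.1, hyB, ?_⟩
    rw [isState_iff_good s t L hn, zvec_exchange L n B hx hyB, hy1.2]
    exact hq2

end Pool.Agent.Lib.MP_8b1b48_lc
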