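import Pool.Agent.Lib.MP_8b1b48_lc.Final

/-!
Polynomial bounds for the parameters and the main theorem.
-/

namespace Pool.Agent.Lib.MP_8b1b48_lc

open Finset

/-- Polynomial bounds. -/
theorem bounds {na a Λ v e D L N r K l M m A : ℕ} (ha : a ≤ 1) (hD : 1 ≤ D) (hv : v ≤ D)
    (he : e ≤ D) (hL : L = 2 * na ^ 2 * D ^ 3) (hN : N = 2 * L * v + a * e)
    (hr : r = v * L + na * e) (hK : K = N + 2 * Λ * e + 3 + 2 * D) (hl : l = r * K)
    (hM : M = 4608 * l * D ^ 2) (hm : m = r * (N + 2 * Λ * e + 96 * l * D))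
    (hA : A = 4 * na ^ 2 + na + 2 * Λ + 8) :
    L ≤ 4608 * A ^ 3 * D ^ 13 ∧ m ≤ 4608 * A ^ 3 * D ^ 13 ∧ l ≤ 4608 * A ^ 3 * D ^ 13 ∧
      M ≤ 4608 * A ^ 3 * D ^ 13 := by
  have hA1 : 1 ≤ A := by omega
  have hD4 : D ≤ D ^ 4 := Nat.le_self_pow (by norm_num) D
  have h14 : 1 ≤ D ^ 4 := Nat.one_le_pow _ _ hD
  have hN' : N ≤ (4 * na ^ 2 + 1) * D ^ 4 := by
    rw [hN, hL]
    calc 2 * (2 * na ^ 2 * D ^ 3) * v + a * e ≤ 2 * (2 * na ^ 2 * D ^ 3) * D + 1 * D ^ 4 :=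
          Nat.add_le_add (Nat.mul_le_mul_left _ hv) (Nat.mul_le_mul ha (he.trans hD4))
      _ = _ := by ring
  have hr' : r ≤ A * D ^ 4 := by
    rw [hr, hL]
    calc v * (2 * na ^ 2 * D ^ 3) + na * e ≤ D * (2 * na ^ 2 * D ^ 3) + na * D ^ 4 :=
          Nat.add_le_add (Nat.mul_le_mul_right _ hv) (Nat.mul_le_mul_left _ (he.trans hD4))
      _ = (2 * na ^ 2 + na) * D ^ 4 := by ring
      _ ≤ A * D ^ 4 := Nat.mul_le_mul_right _ (by rw [hA]; nlinarith [sq_nonneg na])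
  have hNL : N + 2 * Λ * e ≤ (4 * na ^ 2 + 1 + 2 * Λ) * D ^ 4 := by
    calc N + 2 * Λ * e ≤ (4 * na ^ 2 + 1) * D ^ 4 + 2 * Λ * D ^ 4 :=
          Nat.add_le_add hN' (Nat.mul_le_mul_left _ (he.trans hD4))
      _ = _ := by ring
  have hK' : K ≤ A * D ^ 4 := by
    rw [hK]
    calc N + 2 * Λ * e + 3 + 2 * D
        ≤ (4 * na ^ 2 + 1 + 2 * Λ) * D ^ 4 + 3 * D ^ 4 + 2 * D ^ 4 :=
          Nat.add_le_add (Nat.add_le_add hNL (by linarith)) (Nat.mul_le_mul_left _ hD4)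
      _ = (4 * na ^ 2 + 6 + 2 * Λ) * D ^ 4 := by ring
      _ ≤ A * D ^ 4 := Nat.mul_le_mul_right _ (by rw [hA]; omega)
  have hl' : l ≤ A ^ 2 * D ^ 8 := by
    rw [hl]
    calc r * K ≤ (A * D ^ 4) * (A * D ^ 4) := Nat.mul_le_mul hr' hK'
      _ = _ := by ring
  have hA23 : A ^ 2 ≤ A ^ 3 := Nat.pow_le_pow_right hA1 (by norm_num)
  have hDp : ∀ i j : ℕ, i ≤ j → D ^ i ≤ D ^ j := fun i j h => Nat.pow_le_pow_right hD h
  refine ⟨?_, ?_, ?_, ?_⟩
  · rw [hL]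
    have h1 : 2 * na ^ 2 ≤ 4608 * A ^ 3 := by
      have : 4 * na ^ 2 ≤ A := by rw [hA]; omega
      have h2 : A ≤ A ^ 3 := Nat.le_self_pow (by norm_num) A
      omega
    exact Nat.mul_le_mul h1 (hDp 3 13 (by norm_num))
  · rw [hm]
    have h1 : N + 2 * Λ * e + 96 * l * D ≤ 97 * A ^ 2 * D ^ 9 := by
      have h2 : N + 2 * Λ * e ≤ A ^ 2 * D ^ 9 := by
        calc N + 2 * Λ * e ≤ (4 * na ^ 2 + 1 + 2 * Λ) * D ^ 4 := hNL
          _ ≤ A ^ 2 * D ^ 9 := by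
              refine Nat.mul_le_mul ?_ (hDp 4 9 (by norm_num))
              have h3 : 4 * na ^ 2 + 1 + 2 * Λ ≤ A := by rw [hA]; omega
              exact h3.trans (Nat.le_self_pow (by norm_num) A)
      have h3 : 96 * l * D ≤ 96 * (A ^ 2 * D ^ 8) * D :=
        Nat.mul_le_mul_right _ (Nat.mul_le_mul_left _ hl')
      calc _ ≤ A ^ 2 * D ^ 9 + 96 * (A ^ 2 * D ^ 8) * D := Nat.add_le_add h2 h3
        _ = _ := by ring
    calc r * (N + 2 * Λ * e + 96 * l * D) ≤ (A * D ^ 4) * (97 * A ^ 2 * D ^ 9) :=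
          Nat.mul_le_mul hr' h1
      _ = 97 * A ^ 3 * D ^ 13 := by ring
      _ ≤ _ := Nat.mul_le_mul_right _ (Nat.mul_le_mul_right _ (by norm_num))
  · calc l ≤ A ^ 2 * D ^ 8 := hl'
      _ ≤ A ^ 3 * D ^ 13 := Nat.mul_le_mul hA23 (hDp 8 13 (by norm_num))
      _ ≤ 4608 * (A ^ 3 * D ^ 13) := Nat.le_mul_of_pos_left _ (by norm_num)
      _ = _ := by ring
  · rw [hM]
    calc 4608 * l * D ^ 2 ≤ 4608 * (A ^ 2 * D ^ 8) * D ^ 2 :=
          Nat.mul_le_mul_right _ (Nat.mul_le_mul_left _ hl')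
      _ = 4608 * (A ^ 2 * D ^ 10) := by ring
      _ ≤ 4608 * (A ^ 3 * D ^ 13) :=
          Nat.mul_le_mul_left _ (Nat.mul_le_mul hA23 (hDp 10 13 (by norm_num)))
      _ = _ := by ring

/-- The main theorem. -/
theorem main (x : ℝ) (hx0 : 0 ≤ x) (hx1 : x < 1) :
    ∃ C : ℕ, ∀ (V E : Type) [Fintype V] [DecidableEq V] [Nonempty V] [Fintype E]
      [DecidableEq E] (s t : E → V) (ε : ℝ), 0 < ε → ε ≤ 1 →
      ∃ L m l M : ℕ,
        (∀ j ∈ [L, m, l, M], j ≤ C * (Fintype.card V + Fintype.card E + ⌈1 / ε⌉₊) ^ 13) ∧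
        (tutte s t x 1 = 0 ↔ xstates s t x L = ∅) ∧
        (0 < x → startState s t L (nx x) (ax x) ∈ xstates s t x L) ∧
        ∀ B₀ ∈ xstates s t x L, 3 / 4 ≤ successProb s t x ε L m l M B₀ := by
  obtain ⟨hn, ha1, hcase⟩ := params hx0 hx1
  obtain ⟨Λ, hΛ1, hΛ2, hΛ3⟩ : ∃ Λ : ℕ, 1 ≤ Λ ∧ lx x ≤ Λ ∧ 1 / lx x ≤ Λ := by
    refine ⟨1 + ⌈lx x⌉₊ + ⌈1 / lx x⌉₊, by omega, ?_, ?_⟩
    · push_cast
      have h1 := Nat.le_ceil (lx x)
      have h2 : (0 : ℝ) ≤ (⌈1 / lx x⌉₊ : ℝ) := Nat.cast_nonneg _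
      linarith
    · push_cast
      have h1 := Nat.le_ceil (1 / lx x)
      have h2 : (0 : ℝ) ≤ (⌈lx x⌉₊ : ℝ) := Nat.cast_nonneg _
      linarith
  refine ⟨4608 * (4 * (nx x + ax x) ^ 2 + (nx x + ax x) + 2 * Λ + 8) ^ 3, ?_⟩
  intro V E _ _ _ _ _ s t ε hε hε1
  set D := Fintype.card V + Fintype.card E + ⌈1 / ε⌉₊ with hDdef
  have hc1 : 1 ≤ ⌈1 / ε⌉₊ := Nat.one_le_ceil_iff.2 (by positivity)
  have hD1 : 1 ≤ D := by omega
  have hvD : Fintype.card V ≤ D := by omega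
  have heD : Fintype.card E ≤ D := by omega
  have hεD : 1 ≤ ε * D := by
    have h1 : 1 / ε ≤ (⌈1 / ε⌉₊ : ℝ) := Nat.le_ceil _
    have h2 : (⌈1 / ε⌉₊ : ℝ) ≤ D := by exact_mod_cast (by omega : ⌈1 / ε⌉₊ ≤ D)
    have h3 : ε * (1 / ε) ≤ ε * D := mul_le_mul_of_nonneg_left (h1.trans h2) hε.le
    rwa [mul_one_div_cancel hε.ne'] at h3
  set L := 2 * (nx x + ax x) ^ 2 * D ^ 3 with hL
  have hL0 : 0 < L := by
    rw [hL]
    have : 0 < nx x + ax x := by omega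
    positivity
  set K := 2 * L * Fintype.card V + ax x * Fintype.card E + 2 * Λ * Fintype.card E + 3 + 2 * D
    with hK
  set l := xrank V E x L * K with hl
  set M := 4608 * l * D ^ 2 with hM
  set m := xrank V E x L * (2 * L * Fintype.card V + ax x * Fintype.card E +
    2 * Λ * Fintype.card E + 96 * l * D) with hm
  refine ⟨L, m, l, M, ?_, ?_, ?_, ?_⟩
  · have hb := bounds (na := nx x + ax x) (a := ax x) (Λ := Λ) (v := Fintype.card V)
      (e := Fintype.card E) (D := D) (L := L) (r := xrank V E x L) (K := K) (l := l) (M := M)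
      (m := m) ha1 hD1 hvD heD hL rfl rfl hK hl hM hm rfl
    intro j hj
    simp only [List.mem_cons, List.not_mem_nil, or_false] at hj
    rcases hj with rfl | rfl | rfl | rfl
    · exact hb.1
    · exact hb.2.1
    · exact hb.2.2.1
    · exact hb.2.2.2
  · have hap := approx s t hx0 hx1 hL0
    have hsc := scale_pos s t hx0 hx1 L
    have hw : ∀ b : Ground V E (2 * L) (ax x), 0 < gw (lx x) b := gw_pos hx0 hx1
    constructor
    · intro hT
      by_contra hne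
      have hZ := Mix.Z_pos hw (Finset.nonempty_iff_ne_empty.2 hne)
      rw [hT] at hap
      have := mul_pos hsc hZ
      linarith [hap.2]
    · intro hemp
      rw [hemp] at hap
      have hZ0 : Mix.Z (gw (lx x)) (∅ : Finset (Finset (Ground V E (2 * L) (ax x)))) = 0 := by
        simp [Mix.Z]
      rw [hZ0, mul_zero] at hap
      have hLr : (0 : ℝ) < L := by exact_mod_cast hL0
      have hdiv : (((nx x : ℝ) + ax x) * Fintype.card E) ^ 2 / L ≤ 1 / 2 := by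
        rw [div_le_iff₀ hLr, hL]
        push_cast
        have h4 : (Fintype.card E : ℝ) ≤ D := by exact_mod_cast heD
        have h5 : (Fintype.card E : ℝ) ^ 2 ≤ (D : ℝ) ^ 2 := pow_le_pow_left₀ (by positivity) h4 2
        have h6 : (1 : ℝ) ≤ D := by exact_mod_cast hD1
        calc (((nx x : ℝ) + ax x) * Fintype.card E) ^ 2
            = ((nx x : ℝ) + ax x) ^ 2 * (Fintype.card E : ℝ) ^ 2 := by ring
          _ ≤ ((nx x : ℝ) + ax x) ^ 2 * (D : ℝ) ^ 2 :=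
              mul_le_mul_of_nonneg_left h5 (by positivity)
          _ ≤ ((nx x : ℝ) + ax x) ^ 2 * (D : ℝ) ^ 2 * D :=
              le_mul_of_one_le_right (by positivity) h6
          _ = _ := by ring
      by_contra hT
      have hT0 : 0 < tutte s t x 1 := lt_of_le_of_ne hap.2 (Ne.symm hT)
      have : 0 < (1 - (((nx x : ℝ) + ax x) * Fintype.card E) ^ 2 / L) * tutte s t x 1 :=
        mul_pos (by linarith) hT0
      linarith [hap.1]
  · intro hx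
    refine startState_mem s t ?_ ?_
    · rcases hcase with ⟨-, -, h⟩ | ⟨ha, -, -, -⟩
      · by_contra hcon
        have h1 : nx x = 1 := by omega
        rw [h1] at h
        have h2 : 0 < 1 - x := by linarith
        rw [div_eq_iff h2.ne'] at h
        push_cast at h
        linarith
      · omega
    · rw [hL]
      have h1 : nx x + ax x ≤ (nx x + ax x) ^ 2 := Nat.le_self_pow (by norm_num) _
      have h2 : D ≤ D ^ 3 := Nat.le_self_pow (by norm_num) _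
      calc (nx x + ax x) * Fintype.card E ≤ (nx x + ax x) ^ 2 * D ^ 3 :=
            Nat.mul_le_mul h1 (heD.trans h2)
        _ ≤ 2 * ((nx x + ax x) ^ 2 * D ^ 3) := Nat.le_mul_of_pos_left _ (by norm_num)
        _ = _ := by ring
  · intro B₀ hB₀
    exact success s t hx0 hx1 hΛ1 (Or.inr ⟨hΛ2, hΛ3⟩) hε hε1 hεD heD hL (by rw [hl, hK])
      hM hm hB₀

end Pool.Agent.Lib.MP_8b1b48_lc
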