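import Pool.Agent.Lib.MP_8b1b48_lc.Defs

/-!
Weighted families of finite sets with the exchange property: links and elementary sums.
-/

set_option linter.unusedSectionVars false

namespace Pool.Agent.Lib.MP_8b1b48_lc.Mix

open Finset

variable {α : Type} [Fintype α] [DecidableEq α]

/-- The link of `x`. -/
def lk (F : Finset (Finset α)) (x : α) : Finset (Finset α) :=
  univ.filter fun T => x ∉ T ∧ insert x T ∈ F

/-- Basis exchange. -/
def Exch (F : Finset (Finset α)) : Prop :=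
  ∀ B ∈ F, ∀ B' ∈ F, ∀ x ∈ B, x ∉ B' → ∃ y ∈ B', y ∉ B ∧ insert y (B.erase x) ∈ F

/-- All members have `r` elements. -/
def Unif (F : Finset (Finset α)) (r : ℕ) : Prop := ∀ B ∈ F, B.card = r

/-- Total weight of the members containing `x`. -/
def m1 (w : α → ℝ) (F : Finset (Finset α)) (x : α) : ℝ :=
  ∑ B ∈ F, if x ∈ B then wt w B else 0

/-- Total weight of the members containing two different elements `x`, `y`. -/
def m2 (w : α → ℝ) (F : Finset (Finset α)) (x y : α) : ℝ :=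
  ∑ B ∈ F, if x ∈ B ∧ y ∈ B ∧ x ≠ y then wt w B else 0

theorem mem_lk {F : Finset (Finset α)} {x : α} {T : Finset α} :
    T ∈ lk F x ↔ x ∉ T ∧ insert x T ∈ F := by simp [lk]

theorem wt_pos {w : α → ℝ} (hw : ∀ a, 0 < w a) (B : Finset α) : 0 < wt w B :=
  Finset.prod_pos fun b _ => hw b

theorem wt_insert (w : α → ℝ) {x : α} {T : Finset α} (hx : x ∉ T) :
    wt w (insert x T) = w x * wt w T := by
  unfold wt; rw [Finset.prod_insert hx]

theorem Z_nonneg {w : α → ℝ} (hw : ∀ a, 0 < w a) (F : Finset (Finset α)) : 0 ≤ Z w F :=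
  Finset.sum_nonneg fun B _ => (wt_pos hw B).le

theorem Z_pos {w : α → ℝ} (hw : ∀ a, 0 < w a) {F : Finset (Finset α)} (hF : F.Nonempty) :
    0 < Z w F := Finset.sum_pos (fun B _ => wt_pos hw B) hF

/-- Sums over the link. -/
theorem sum_lk (F : Finset (Finset α)) (x : α) (f : Finset α → ℝ) :
    ∑ T ∈ lk F x, f (insert x T) = ∑ B ∈ F, if x ∈ B then f B else 0 := by
  rw [← Finset.sum_filter]
  refine Finset.sum_nbij' (fun T => insert x T) (fun B => B.erase x) ?_ ?_ ?_ ?_ ?_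
  · intro T hT
    rw [mem_lk] at hT
    rw [Finset.mem_filter]
    exact ⟨hT.2, Finset.mem_insert_self _ _⟩
  · intro B hB
    rw [Finset.mem_filter] at hB
    rw [mem_lk]
    exact ⟨Finset.notMem_erase _ _, by rw [Finset.insert_erase hB.2]; exact hB.1⟩
  · intro T hT
    rw [mem_lk] at hT
    exact Finset.erase_insert hT.1
  · intro B hB
    rw [Finset.mem_filter] at hB
    exact Finset.insert_erase hB.2
  · intro T _; rfl

theorem lk_exch {F : Finset (Finset α)} (h : Exch F) (z : α) : Exch (lk F z) := by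
  intro B hB B' hB' x hx hx'
  rw [mem_lk] at hB hB'
  have hxz : x ≠ z := fun h => hB.1 (h ▸ hx)
  obtain ⟨y, hy, hyB, hins⟩ := h _ hB.2 _ hB'.2 x (Finset.mem_insert_of_mem hx)
    (fun h => by
      rcases Finset.mem_insert.1 h with h | h
      · exact hxz h
      · exact hx' h)
  rw [Finset.mem_insert, not_or] at hyB
  have hyB' : y ∈ B' := by
    rcases Finset.mem_insert.1 hy with h | h
    · exact absurd h hyB.1
    · exact h
  refine ⟨y, hyB', hyB.2, ?_⟩
  rw [mem_lk]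
  refine ⟨?_, ?_⟩
  · rw [Finset.mem_insert, not_or]
    exact ⟨fun h => hyB.1 h.symm, fun h => hB.1 (Finset.mem_of_mem_erase h)⟩
  · rw [Finset.erase_insert_of_ne hxz.symm, Finset.insert_comm] at hins
    exact hins

theorem lk_unif {F : Finset (Finset α)} {r : ℕ} (h : Unif F (r + 1)) (z : α) :
    Unif (lk F z) r := by
  intro T hT
  rw [mem_lk] at hT
  have := h _ hT.2
  rw [Finset.card_insert_of_notMem hT.1] at this
  omega

theorem m1_eq (w : α → ℝ) (F : Finset (Finset α)) (x : α) : m1 w F x = w x * Z w (lk F x) := by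
  unfold m1 Z
  rw [← sum_lk F x (wt w), Finset.mul_sum]
  refine Finset.sum_congr rfl fun T hT => ?_
  rw [mem_lk] at hT
  exact wt_insert w hT.1

theorem m1_nonneg {w : α → ℝ} (hw : ∀ a, 0 < w a) (F : Finset (Finset α)) (x : α) :
    0 ≤ m1 w F x := by
  rw [m1_eq]; exact mul_nonneg (hw x).le (Z_nonneg hw _)

theorem m2_symm (w : α → ℝ) (F : Finset (Finset α)) (x y : α) : m2 w F x y = m2 w F y x := by
  unfold m2
  refine Finset.sum_congr rfl fun B _ => ?_
  congr 1
  apply propext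
  constructor <;> rintro ⟨a, b, c⟩ <;> exact ⟨b, a, c.symm⟩

theorem m2_nonneg {w : α → ℝ} (hw : ∀ a, 0 < w a) (F : Finset (Finset α)) (x y : α) :
    0 ≤ m2 w F x y := by
  refine Finset.sum_nonneg fun B _ => ?_
  split_ifs
  · exact (wt_pos hw B).le
  · exact le_rfl

theorem sum_m1 (w : α → ℝ) {F : Finset (Finset α)} {r : ℕ} (h : Unif F r) :
    ∑ x, m1 w F x = r * Z w F := by
  unfold m1 Z
  rw [Finset.sum_comm, Finset.mul_sum]
  refine Finset.sum_congr rfl fun B hB => ?_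
  rw [← Finset.sum_filter, Finset.sum_const, nsmul_eq_mul]
  congr 1
  rw [← h B hB]
  congr 1
  congr 1
  ext x; simp

theorem sum_m2 (w : α → ℝ) {F : Finset (Finset α)} {r : ℕ} (h : Unif F (r + 1)) (x : α) :
    ∑ y, m2 w F x y = r * m1 w F x := by
  unfold m1 m2
  rw [Finset.sum_comm, Finset.mul_sum]
  refine Finset.sum_congr rfl fun B hB => ?_
  by_cases hx : x ∈ B
  · rw [if_pos hx, ← Finset.sum_filter, Finset.sum_const, nsmul_eq_mul]
    congr 1
    have : (univ.filter fun y => x ∈ B ∧ y ∈ B ∧ x ≠ y) = B.erase x := by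
      ext y
      rw [Finset.mem_filter, Finset.mem_erase]
      constructor
      · rintro ⟨_, _, a, b⟩; exact ⟨b.symm, a⟩
      · rintro ⟨a, b⟩; exact ⟨Finset.mem_univ _, hx, b, a.symm⟩
    rw [this, Finset.card_erase_of_mem hx, h B hB]
    simp
  · rw [if_neg hx, mul_zero]
    refine Finset.sum_eq_zero fun y _ => ?_
    rw [if_neg]; exact fun h => hx h.1

theorem m1_lk (w : α → ℝ) (F : Finset (Finset α)) (z x : α) :
    w z * m1 w (lk F z) x = m2 w F z x := by
  have h1 := sum_lk F z (fun B => if x ∈ B ∧ z ≠ x then wt w B else 0)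
  have h2 : ∑ B ∈ F, (if z ∈ B then (if x ∈ B ∧ z ≠ x then wt w B else 0) else 0) =
      m2 w F z x := by
    unfold m2
    refine Finset.sum_congr rfl fun B _ => ?_
    by_cases h : z ∈ B
    · rw [if_pos h]
      congr 1
      apply propext
      exact ⟨fun h' => ⟨h, h'.1, h'.2⟩, fun h' => ⟨h'.2.1, h'.2.2⟩⟩
    · rw [if_neg h, if_neg (fun h' => h h'.1)]
  rw [h2] at h1
  rw [← h1]
  unfold m1
  rw [Finset.mul_sum]
  refine Finset.sum_congr rfl fun T hT => ?_
  rw [mem_lk] at hT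
  rw [wt_insert w hT.1]
  by_cases hx : x ∈ T
  · have hzx : z ≠ x := fun h => hT.1 (h ▸ hx)
    rw [if_pos hx, if_pos ⟨Finset.mem_insert_of_mem hx, hzx⟩]
  · rw [if_neg hx, if_neg, mul_zero]
    rintro ⟨h', h''⟩
    rcases Finset.mem_insert.1 h' with h | h
    · exact h'' h.symm
    · exact hx h

theorem m2_lk (w : α → ℝ) (F : Finset (Finset α)) (z x y : α) :
    w z * m2 w (lk F z) x y =
      ∑ B ∈ F, if x ∈ B ∧ y ∈ B ∧ x ≠ y then (if z ∈ B ∧ z ≠ x ∧ z ≠ y then wt w B else 0)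
        else 0 := by
  have h1 := sum_lk F z (fun B => if x ∈ B ∧ y ∈ B ∧ x ≠ y then
    (if z ≠ x ∧ z ≠ y then wt w B else 0) else 0)
  have h2 : ∑ B ∈ F, (if z ∈ B then (if x ∈ B ∧ y ∈ B ∧ x ≠ y then
      (if z ≠ x ∧ z ≠ y then wt w B else 0) else 0) else 0) =
      ∑ B ∈ F, if x ∈ B ∧ y ∈ B ∧ x ≠ y then (if z ∈ B ∧ z ≠ x ∧ z ≠ y then wt w B else 0)
        else 0 := by
    refine Finset.sum_congr rfl fun B _ => ?_
    by_cases h : z ∈ B <;> simp [h]
  rw [h2] at h1
  rw [← h1]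
  unfold m2
  rw [Finset.mul_sum]
  refine Finset.sum_congr rfl fun T hT => ?_
  rw [mem_lk] at hT
  rw [wt_insert w hT.1]
  by_cases hx : x ∈ T ∧ y ∈ T ∧ x ≠ y
  · have hzx : z ≠ x := fun h => hT.1 (h ▸ hx.1)
    have hzy : z ≠ y := fun h => hT.1 (h ▸ hx.2.1)
    rw [if_pos hx, if_pos ⟨Finset.mem_insert_of_mem hx.1, Finset.mem_insert_of_mem hx.2.1, hx.2.2⟩,
      if_pos ⟨hzx, hzy⟩]
  · rw [if_neg hx, mul_zero]
    by_cases h3 : x ∈ insert z T ∧ y ∈ insert z T ∧ x ≠ y
    · rw [if_pos h3, if_neg]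
      rintro ⟨h4, h5⟩
      apply hx
      refine ⟨?_, ?_, h3.2.2⟩
      · rcases Finset.mem_insert.1 h3.1 with h | h
        · exact absurd h.symm h4
        · exact h
      · rcases Finset.mem_insert.1 h3.2.1 with h | h
        · exact absurd h.symm h5
        · exact h
    · rw [if_neg h3]

theorem sum_m2_lk (w : α → ℝ) {F : Finset (Finset α)} {r : ℕ} (h : Unif F (r + 2)) (x y : α) :
    ∑ z, w z * m2 w (lk F z) x y = r * m2 w F x y := by
  simp only [m2_lk]
  rw [Finset.sum_comm]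
  unfold m2
  rw [Finset.mul_sum]
  refine Finset.sum_congr rfl fun B hB => ?_
  by_cases hx : x ∈ B ∧ y ∈ B ∧ x ≠ y
  · simp only [if_pos hx]
    rw [← Finset.sum_filter, Finset.sum_const, nsmul_eq_mul]
    congr 1
    have : (univ.filter fun z => z ∈ B ∧ z ≠ x ∧ z ≠ y) = (B.erase x).erase y := by
      ext z
      rw [Finset.mem_filter, Finset.mem_erase, Finset.mem_erase]
      constructor
      · rintro ⟨_, a, b, c⟩; exact ⟨c, b, a⟩
      · rintro ⟨a, b, c⟩; exact ⟨Finset.mem_univ _, c, b, a⟩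
    rw [this, Finset.card_erase_of_mem (Finset.mem_erase.2 ⟨hx.2.2.symm, hx.2.1⟩),
      Finset.card_erase_of_mem hx.1, h B hB]
    simp
  · simp only [if_neg hx]
    simp

end Pool.Agent.Lib.MP_8b1b48_lc.Mix
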