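import Mathlib

/-!
Spectral lemma (trickling down) for symmetric nonnegative matrices.
-/

set_option linter.unusedSectionVars false

namespace Pool.Agent.Lib.MP_8b1b48_lc.Mix

open Finset

variable {ι : Type} [Fintype ι] [DecidableEq ι]

/-- Spectral decomposition of a real symmetric matrix in coordinates. -/
theorem spec (A : ι → ι → ℝ) (hA : ∀ x y, A x y = A y x) :
    ∃ (u : ι → ι → ℝ) (ev : ι → ℝ), (∀ i x, ∑ y, A x y * u i y = ev i * u i x) ∧
      (∀ i, ∑ x, u i x ^ 2 = 1) ∧
      ∀ g : ι → ℝ, ∑ x, ∑ y, A x y * g x * g y = ∑ i, ev i * (∑ x, u i x * g x) ^ 2 := by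
  have hH : (Matrix.of A).IsHermitian := by
    ext x y
    simp [Matrix.conjTranspose_apply, hA x y]
  let b := hH.eigenvectorBasis
  refine ⟨fun i x => b i x, hH.eigenvalues, ?_, ?_, ?_⟩
  · intro i x
    have h := congrFun (hH.mulVec_eigenvectorBasis i) x
    simp only [Matrix.mulVec, dotProduct, Matrix.of_apply, Pi.smul_apply, smul_eq_mul] at h
    exact h
  · intro i
    have h := b.orthonormal.1 i
    have h2 : ‖b i‖ ^ 2 = 1 := by rw [h]; norm_num
    rw [EuclideanSpace.norm_sq_eq] at h2
    simpa using h2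
  · intro g
    let G : EuclideanSpace ℝ ι := WithLp.toLp 2 g
    let AG : EuclideanSpace ℝ ι := WithLp.toLp 2 (fun x => ∑ y, A x y * g y)
    have h := b.sum_inner_mul_inner G AG
    have h1 : inner ℝ G AG = ∑ x, ∑ y, A x y * g x * g y := by
      simp only [G, AG, PiLp.inner_apply]
      refine Finset.sum_congr rfl fun x _ => ?_
      simp only [RCLike.inner_apply, conj_trivial]
      rw [Finset.sum_mul]
      exact Finset.sum_congr rfl fun y _ => by ring
    have h2 : ∀ i, inner ℝ G (b i) = ∑ x, b i x * g x := by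
      intro i
      simp only [G, PiLp.inner_apply, RCLike.inner_apply, conj_trivial]
    have h3 : ∀ i, inner ℝ (b i) AG = hH.eigenvalues i * ∑ x, b i x * g x := by
      intro i
      simp only [AG, PiLp.inner_apply, RCLike.inner_apply, conj_trivial]
      calc ∑ x, (∑ y, A x y * g y) * b i x = ∑ x, ∑ y, A x y * g y * b i x :=
            Finset.sum_congr rfl fun x _ => Finset.sum_mul _ _ _
        _ = ∑ y, ∑ x, A x y * g y * b i x := Finset.sum_comm
        _ = ∑ y, (∑ x, A y x * b i x) * g y := by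
            refine Finset.sum_congr rfl fun y _ => ?_
            rw [Finset.sum_mul]
            exact Finset.sum_congr rfl fun x _ => by rw [hA x y]; ring
        _ = ∑ y, (hH.eigenvalues i * b i y) * g y := by
            refine Finset.sum_congr rfl fun y _ => ?_
            have h := congrFun (hH.mulVec_eigenvectorBasis i) y
            simp only [Matrix.mulVec, dotProduct, Matrix.of_apply, Pi.smul_apply,
              smul_eq_mul] at h
            rw [← h]
        _ = _ := by
            rw [Finset.mul_sum]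
            exact Finset.sum_congr rfl fun x _ => by ring
    rw [← h1, ← h]
    refine Finset.sum_congr rfl fun i _ => ?_
    rw [h2, h3]; ring

/-- Trickling down: a quadratic inequality for all `f` plus connectivity gives nonpositivity on
the orthogonal complement of the constants. -/
theorem trickle (M : ι → ι → ℝ) (D : ι → ℝ) (c : ℝ) (hc : 0 < c)
    (hsymm : ∀ x y, M x y = M y x) (hnn : ∀ x y, 0 ≤ M x y) (hrow : ∀ x, ∑ y, M x y = c * D x)
    (hD : ∀ x, 0 ≤ D x)
    (hineq : ∀ f : ι → ℝ, ∑ x, ∑ y, M x y * f x * f y ≤ 1 / c * ∑ z, (∑ x, M z x * f x) ^ 2 / D z)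
    (hconn : ∀ f : ι → ℝ, (∀ x y, 0 < M x y → f x = f y) → ∀ x y, 0 < D x → 0 < D y → f x = f y)
    (f : ι → ℝ) (hf : ∑ x, D x * f x = 0) : ∑ x, ∑ y, M x y * f x * f y ≤ 0 := by
  have hzero : ∀ x, D x = 0 → ∀ y, M x y = 0 := by
    intro x hx y
    have h := hrow x
    rw [hx, mul_zero, Finset.sum_eq_zero_iff_of_nonneg (fun y _ => hnn x y)] at h
    exact h y (Finset.mem_univ y)
  set S : ι → ℝ := fun x => Real.sqrt (D x) with hS
  have hSS : ∀ x, S x * S x = D x := fun x => Real.mul_self_sqrt (hD x)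
  have hS0 : ∀ x, 0 ≤ S x := fun x => Real.sqrt_nonneg _
  have hSz : ∀ x, S x = 0 → D x = 0 := by
    intro x hx; rw [← hSS, hx, mul_zero]
  have hSp : ∀ x, 0 < D x → 0 < S x := fun x hx => Real.sqrt_pos.2 hx
  -- quadratic form in the normalised coordinates
  have hquad : ∀ g : ι → ℝ, ∑ x, ∑ y, M x y / (c * S x * S y) * g x * g y =
      1 / c * ∑ x, ∑ y, M x y * (g x / S x) * (g y / S y) := by
    intro g
    rw [Finset.mul_sum]
    refine Finset.sum_congr rfl fun x _ => ?_
    rw [Finset.mul_sum]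
    refine Finset.sum_congr rfl fun y _ => ?_
    rw [show c * S x * S y = c * (S x * S y) by ring]
    rw [div_mul_eq_div_div]
    by_cases h1 : S x = 0
    · simp [h1]
    by_cases h2 : S y = 0
    · simp [h2]
    field_simp
  have hAg : ∀ (g : ι → ℝ) (x : ι), ∑ y, M x y / (c * S x * S y) * g y =
      1 / (c * S x) * ∑ y, M x y * (g y / S y) := by
    intro g x
    rw [Finset.mul_sum]
    refine Finset.sum_congr rfl fun y _ => ?_
    by_cases h1 : S x = 0
    · simp [h1]
    by_cases h2 : S y = 0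
    · simp [h2]
    field_simp
  obtain ⟨u, ev, hu1, hu2, hu3⟩ := spec (fun x y => M x y / (c * S x * S y)) (by
    intro x y
    rw [hsymm x y, show c * S x * S y = c * S y * S x by ring])
  -- the quadratic form at f
  have hfinal : ∑ x, ∑ y, M x y * f x * f y =
      c * ∑ x, ∑ y, M x y / (c * S x * S y) * (S x * f x) * (S y * f y) := by
    rw [hquad (fun x => S x * f x), ← mul_assoc, mul_one_div_cancel hc.ne', one_mul]
    refine Finset.sum_congr rfl fun x _ => Finset.sum_congr rfl fun y _ => ?_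
    by_cases h1 : S x = 0
    · rw [hzero x (hSz x h1) y]; ring
    by_cases h2 : S y = 0
    · rw [hsymm, hzero y (hSz y h2) x]; ring
    field_simp
  rw [hfinal, hu3]
  refine mul_nonpos_of_nonneg_of_nonpos hc.le (Finset.sum_nonpos fun i _ => ?_)
  by_cases hev : ev i ≤ 0
  · exact mul_nonpos_of_nonpos_of_nonneg hev (sq_nonneg _)
  rw [not_le] at hev
  -- the eigenvector is proportional to S
  have e1 : ∑ x, ∑ y, M x y / (c * S x * S y) * u i x * u i y = ev i := by
    calc ∑ x, ∑ y, M x y / (c * S x * S y) * u i x * u i y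
        = ∑ x, u i x * ∑ y, M x y / (c * S x * S y) * u i y := by
          refine Finset.sum_congr rfl fun x _ => ?_
          rw [Finset.mul_sum]
          exact Finset.sum_congr rfl fun y _ => by ring
      _ = ∑ x, ev i * u i x ^ 2 := by
          refine Finset.sum_congr rfl fun x _ => ?_
          rw [hu1 i x]; ring
      _ = ev i := by rw [← Finset.mul_sum, hu2 i, mul_one]
  set F : ι → ℝ := fun x => u i x / S x with hF
  have e2 : ev i = 1 / c * ∑ x, ∑ y, M x y * F x * F y := by rw [← e1, hquad]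
  have e3 : ev i ^ 2 = 1 / c * (1 / c * ∑ z, (∑ x, M z x * F x) ^ 2 / D z) := by
    have h1 : ∑ x, (∑ y, M x y / (c * S x * S y) * u i y) ^ 2 = ev i ^ 2 := by
      calc ∑ x, (∑ y, M x y / (c * S x * S y) * u i y) ^ 2 = ∑ x, ev i ^ 2 * u i x ^ 2 := by
            refine Finset.sum_congr rfl fun x _ => ?_
            rw [hu1 i x]; ring
        _ = ev i ^ 2 := by rw [← Finset.mul_sum, hu2 i, mul_one]
    rw [← h1, Finset.mul_sum, Finset.mul_sum]
    refine Finset.sum_congr rfl fun x _ => ?_
    rw [hAg]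
    have h2 : (1 / (c * S x) * ∑ y, M x y * (u i y / S y)) ^ 2 =
        1 / c * (1 / c * ((∑ y, M x y * (u i y / S y)) ^ 2 / (S x * S x))) := by
      by_cases h1 : S x = 0
      · simp [h1]
      · field_simp
    rw [h2, hSS]
  have e4 : ev i ≤ ev i ^ 2 := by
    rw [e3, e2]
    refine mul_le_mul_of_nonneg_left (hineq F) (by positivity)
  have e5 : 1 ≤ ev i := by nlinarith
  -- Dirichlet form
  have e6 : ∑ x, D x * F x ^ 2 ≤ 1 := by
    rw [← hu2 i]
    refine Finset.sum_le_sum fun x _ => ?_
    rw [← hSS x, hF]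
    simp only
    by_cases h1 : S x = 0
    · rw [h1]; simp only [div_zero, mul_zero, zero_mul]
      positivity
    · have : S x * S x * (u i x / S x) ^ 2 = u i x ^ 2 := by field_simp
      rw [this]
  have e7 : ∑ x, ∑ y, M x y * (F x - F y) ^ 2 =
      2 * c * ∑ x, D x * F x ^ 2 - 2 * ∑ x, ∑ y, M x y * F x * F y := by
    have h1 : ∑ x, ∑ y, M x y * F x ^ 2 = c * ∑ x, D x * F x ^ 2 := by
      rw [Finset.mul_sum]
      refine Finset.sum_congr rfl fun x _ => ?_
      rw [← Finset.sum_mul, hrow]; ring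
    have h2 : ∑ x, ∑ y, M x y * F y ^ 2 = c * ∑ x, D x * F x ^ 2 := by
      rw [Finset.sum_comm, ← h1]
      refine Finset.sum_congr rfl fun x _ => Finset.sum_congr rfl fun y _ => ?_
      rw [hsymm]
    have h3 : ∑ x, ∑ y, M x y * (F x - F y) ^ 2 = ∑ x, ∑ y, M x y * F x ^ 2 +
        ∑ x, ∑ y, M x y * F y ^ 2 - 2 * ∑ x, ∑ y, M x y * F x * F y := by
      rw [Finset.mul_sum, ← Finset.sum_add_distrib, ← Finset.sum_sub_distrib]
      refine Finset.sum_congr rfl fun x _ => ?_
      rw [Finset.mul_sum, ← Finset.sum_add_distrib, ← Finset.sum_sub_distrib]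
      exact Finset.sum_congr rfl fun y _ => by ring
    rw [h3, h1, h2]; ring
  have e8 : ∑ x, ∑ y, M x y * F x * F y = c * ev i := by
    rw [e2]; field_simp
  have e9 : ∑ x, ∑ y, M x y * (F x - F y) ^ 2 ≤ 0 := by
    rw [e7, e8]
    have : c * ∑ x, D x * F x ^ 2 ≤ c * 1 := mul_le_mul_of_nonneg_left e6 hc.le
    nlinarith
  have e10 : ∀ x y, 0 < M x y → F x = F y := by
    intro x y hxy
    have h1 : ∑ x, ∑ y, M x y * (F x - F y) ^ 2 = 0 := le_antisymm e9
      (Finset.sum_nonneg fun x _ => Finset.sum_nonneg fun y _ =>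
        mul_nonneg (hnn x y) (sq_nonneg _))
    rw [Finset.sum_eq_zero_iff_of_nonneg (fun x _ => Finset.sum_nonneg fun y _ =>
        mul_nonneg (hnn x y) (sq_nonneg _))] at h1
    have h2 := h1 x (Finset.mem_univ x)
    rw [Finset.sum_eq_zero_iff_of_nonneg (fun y _ => mul_nonneg (hnn x y) (sq_nonneg _))] at h2
    have h3 := h2 y (Finset.mem_univ y)
    rcases mul_eq_zero.1 h3 with h | h
    · exact absurd h hxy.ne'
    · exact sub_eq_zero.1 (pow_eq_zero_iff (two_ne_zero) |>.1 h)
  have e11 := hconn F e10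
  have e12 : ∑ x, u i x * (S x * f x) = 0 := by
    by_cases hex : ∃ x0, 0 < D x0
    · obtain ⟨x0, hx0⟩ := hex
      have : ∀ x, u i x * (S x * f x) = F x0 * (D x * f x) := by
        intro x
        rcases (hD x).lt_or_eq with h | h
        · rw [← e11 x x0 h hx0, hF, ← hSS x]
          have := (hSp x h).ne'
          field_simp
        · rw [← h]
          have h2 : S x = 0 := by rw [hS]; simp [← h]
          rw [h2]; ring
      rw [Finset.sum_congr rfl fun x _ => this x, ← Finset.mul_sum, hf, mul_zero]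
    · refine Finset.sum_eq_zero fun x _ => ?_
      have h : D x = 0 := by
        by_contra hne
        exact hex ⟨x, lt_of_le_of_ne (hD x) (Ne.symm hne)⟩
      have h2 : S x = 0 := by rw [hS]; simp [h]
      rw [h2]; ring
  have e13 : ∑ x, u i x * (fun x => S x * f x) x = 0 := e12
  rw [e12]; simp

end Pool.Agent.Lib.MP_8b1b48_lc.Mix
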