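import Pool.Agent.Lib.MP_8b1b48_lc.Mix1
import Pool.Agent.Lib.MP_8b1b48_lc.Mix2

/-!
The quadratic form of a weighted exchange family has one positive direction only.
-/

set_option linter.unusedSectionVars false

namespace Pool.Agent.Lib.MP_8b1b48_lc.Mix

open Finset

variable {α : Type} [Fintype α] [DecidableEq α]

theorem m2_pos {w : α → ℝ} (hw : ∀ a, 0 < w a) {F : Finset (Finset α)} {x y : α}
    {B : Finset α} (hB : B ∈ F) (hx : x ∈ B) (hy : y ∈ B) (hxy : x ≠ y) : 0 < m2 w F x y := by
  unfold m2
  refine Finset.sum_pos' (fun B _ => ?_) ⟨B, hB, ?_⟩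
  · split_ifs
    · exact (wt_pos hw B).le
    · exact le_rfl
  · rw [if_pos ⟨hx, hy, hxy⟩]; exact wt_pos hw B

theorem exists_of_m1_pos {w : α → ℝ} {F : Finset (Finset α)} {x : α} (h : 0 < m1 w F x) :
    ∃ B ∈ F, x ∈ B := by
  by_contra hno
  have : m1 w F x = 0 := by
    unfold m1
    refine Finset.sum_eq_zero fun B hB => ?_
    rw [if_neg]
    exact fun hx => hno ⟨B, hB, hx⟩
  rw [this] at h
  exact lt_irrefl _ h

/-- A member close to a given one which contains a prescribed element. -/
theorem near {F : Finset (Finset α)} {r : ℕ} (hE : Exch F) (hU : Unif F r) {B B' : Finset α}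
    (hB : B ∈ F) (hB' : B' ∈ F) {y : α} (hy : y ∈ B') (hyB : y ∉ B) :
    ∃ b ∈ B, insert y (B.erase b) ∈ F := by
  obtain ⟨B1, h1, h2⟩ := Finset.exists_min_image (F.filter fun T => y ∈ T)
    (fun T => (T \ B).card) ⟨B', Finset.mem_filter.2 ⟨hB', hy⟩⟩
  rw [Finset.mem_filter] at h1
  have hsub : ∀ a ∈ B1, a ∉ B → a = y := by
    intro a ha haB
    by_contra hay
    obtain ⟨c, hc, hcB1, hins⟩ := hE B1 h1.1 B hB a ha haB
    have hy1 : y ∈ insert c (B1.erase a) :=
      Finset.mem_insert_of_mem (Finset.mem_erase.2 ⟨fun h => hay h.symm, h1.2⟩)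
    have h3 := h2 _ (Finset.mem_filter.2 ⟨hins, hy1⟩)
    have h4 : (insert c (B1.erase a)) \ B = (B1 \ B).erase a := by
      ext z
      simp only [Finset.mem_sdiff, Finset.mem_insert, Finset.mem_erase]
      constructor
      · rintro ⟨h | h, h'⟩
        · subst h; exact absurd hc h'
        · exact ⟨h.1, h.2, h'⟩
      · rintro ⟨h, h', h''⟩
        exact ⟨Or.inr ⟨h, h'⟩, h''⟩
    rw [h4, Finset.card_erase_of_mem (Finset.mem_sdiff.2 ⟨ha, haB⟩)] at h3
    have h5 : 0 < (B1 \ B).card := Finset.card_pos.2 ⟨a, Finset.mem_sdiff.2 ⟨ha, haB⟩⟩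
    omega
  have hs : B1 \ B = {y} := by
    ext z
    rw [Finset.mem_sdiff, Finset.mem_singleton]
    constructor
    · rintro ⟨a, b⟩; exact hsub z a b
    · rintro rfl; exact ⟨h1.2, hyB⟩
  have hcard : (B \ B1).card = 1 := by
    have e1 := Finset.card_sdiff_add_card_inter B1 B
    have e2 := Finset.card_sdiff_add_card_inter B B1
    rw [hs, Finset.card_singleton, hU B1 h1.1] at e1
    rw [hU B hB, Finset.inter_comm] at e2
    omega
  obtain ⟨b, hb⟩ := Finset.card_eq_one.1 hcard
  have hbm : b ∈ B \ B1 := by rw [hb]; exact Finset.mem_singleton_self b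
  rw [Finset.mem_sdiff] at hbm
  refine ⟨b, hbm.1, ?_⟩
  have : insert y (B.erase b) = B1 := by
    ext z
    rw [Finset.mem_insert, Finset.mem_erase]
    constructor
    · rintro (rfl | ⟨h, h'⟩)
      · exact h1.2
      · by_contra hz
        have : z ∈ B \ B1 := Finset.mem_sdiff.2 ⟨h', hz⟩
        rw [hb, Finset.mem_singleton] at this
        exact h this
    · intro hz
      by_cases hzB : z ∈ B
      · right
        exact ⟨fun h => hbm.2 (h ▸ hz), hzB⟩
      · left; exact hsub z hz hzB
  rw [this]; exact h1.1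

theorem conn_of {w : α → ℝ} (hw : ∀ a, 0 < w a) {F : Finset (Finset α)} {r : ℕ}
    (hE : Exch F) (hU : Unif F (r + 2)) (f : α → ℝ) (hf : ∀ x y, 0 < m2 w F x y → f x = f y)
    (x y : α) (hx : 0 < m1 w F x) (hy : 0 < m1 w F y) : f x = f y := by
  by_cases hxy : x = y
  · rw [hxy]
  obtain ⟨B, hB, hxB⟩ := exists_of_m1_pos hx
  obtain ⟨B', hB', hyB'⟩ := exists_of_m1_pos hy
  by_cases hyB : y ∈ B
  · exact hf x y (m2_pos hw hB hxB hyB hxy)
  obtain ⟨b, hb, hins⟩ := near hE hU hB hB' hyB' hyB
  by_cases hbx : b = x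
  · subst hbx
    have hc : (B.erase b).Nonempty := by
      rw [← Finset.card_pos, Finset.card_erase_of_mem hb, hU B hB]; omega
    obtain ⟨z, hz⟩ := hc
    rw [Finset.mem_erase] at hz
    have h1 : f b = f z := hf b z (m2_pos hw hB hxB hz.2 hz.1.symm)
    have h2 : f z = f y := hf z y (m2_pos hw hins
      (Finset.mem_insert_of_mem (Finset.mem_erase.2 hz)) (Finset.mem_insert_self _ _)
      (fun h => hyB (h ▸ hz.2)))
    rw [h1, h2]
  · exact hf x y (m2_pos hw hins
      (Finset.mem_insert_of_mem (Finset.mem_erase.2 ⟨fun h => hbx h.symm, hxB⟩))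
      (Finset.mem_insert_self _ _) hxy)

/-- Aczel's inequality. -/
theorem aczel {κ : Type} [Fintype κ] (a s : κ → ℝ) (A0 S0 : ℝ) (h : ∑ c, a c ^ 2 ≤ A0 ^ 2) :
    (S0 ^ 2 - ∑ c, s c ^ 2) * (A0 ^ 2 - ∑ c, a c ^ 2) ≤ (A0 * S0 - ∑ c, a c * s c) ^ 2 := by
  have hcs := Finset.sum_mul_sq_le_sq_mul_sq univ a s
  set A := ∑ c, a c ^ 2 with hA
  set S := ∑ c, s c ^ 2 with hS
  set T := ∑ c, a c * s c with hT
  have hA0 : 0 ≤ A := Finset.sum_nonneg fun c _ => sq_nonneg _
  have hS0 : 0 ≤ S := Finset.sum_nonneg fun c _ => sq_nonneg _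
  rcases hA0.lt_or_eq with hpos | hz
  · have key : A * ((A0 * S0 - T) ^ 2 - (S0 ^ 2 - S) * (A0 ^ 2 - A)) =
        (A * S0 - A0 * T) ^ 2 + (A0 ^ 2 - A) * (A * S - T ^ 2) := by ring
    have h1 : 0 ≤ (A * S0 - A0 * T) ^ 2 + (A0 ^ 2 - A) * (A * S - T ^ 2) :=
      add_nonneg (sq_nonneg _) (mul_nonneg (by linarith) (by linarith))
    rw [← key] at h1
    have := nonneg_of_mul_nonneg_right h1 hpos
    linarith
  · rw [← hz] at hcs ⊢
    have hT0 : T = 0 := by
      have : T ^ 2 ≤ 0 := by linarith
      exact pow_eq_zero_iff (two_ne_zero) |>.1 (le_antisymm this (sq_nonneg _))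
    rw [hT0]
    have : 0 ≤ S * A0 ^ 2 := mul_nonneg hS0 (sq_nonneg _)
    nlinarith

section rank2

variable {w : α → ℝ} {F : Finset (Finset α)}

/-- The class of `x`: all non-loops not forming a member together with `x`. -/
def cl (F : Finset (Finset α)) (x : α) : Finset α :=
  univ.filter fun y => (∃ B ∈ F, y ∈ B) ∧ ({x, y} : Finset α) ∉ F

theorem trans2 (hE : Exch F) (hU : Unif F 2) {x y z : α} (hy : ∃ B ∈ F, y ∈ B)
    (hxy : ({x, y} : Finset α) ∉ F) (hxz : ({x, z} : Finset α) ∈ F) :
    ({y, z} : Finset α) ∈ F := by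
  obtain ⟨B', hB', hyB'⟩ := hy
  by_cases hyB : y ∈ ({x, z} : Finset α)
  · rw [Finset.mem_insert, Finset.mem_singleton] at hyB
    rcases hyB with h | h
    · rw [h]; exact hxz
    · rw [h] at hxy; exact absurd hxz hxy
  · obtain ⟨b, hb, hins⟩ := near hE hU hxz hB' hyB' hyB
    rw [Finset.mem_insert, Finset.mem_singleton] at hb
    have hxz' : x ≠ z := by
      intro h
      have := hU _ hxz
      rw [h] at this
      simp at this
    rcases hb with h | h
    · subst h
      have : (({b, z} : Finset α).erase b) = {z} := by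
        ext t; simp only [Finset.mem_erase, Finset.mem_insert, Finset.mem_singleton]
        constructor
        · rintro ⟨h1, h2 | h2⟩
          · exact absurd h2 h1
          · exact h2
        · rintro rfl; exact ⟨hxz'.symm, Or.inr rfl⟩
      rw [this] at hins
      exact hins
    · subst h
      exfalso
      have : (({x, b} : Finset α).erase b) = {x} := by
        ext t; simp only [Finset.mem_erase, Finset.mem_insert, Finset.mem_singleton]
        constructor
        · rintro ⟨h1, h2 | h2⟩
          · exact h2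
          · exact absurd h2 h1
        · rintro rfl; exact ⟨hxz', Or.inl rfl⟩
      rw [this] at hins
      apply hxy
      rw [Finset.pair_comm]
      exact hins

theorem cl_eq_iff (hE : Exch F) (hU : Unif F 2) {x y : α} (hx : ∃ B ∈ F, x ∈ B)
    (hy : ∃ B ∈ F, y ∈ B) : cl F x = cl F y ↔ ({x, y} : Finset α) ∉ F := by
  constructor
  · intro h hmem
    have h1 : y ∈ cl F y := by
      unfold cl
      rw [Finset.mem_filter]
      refine ⟨Finset.mem_univ _, hy, fun h' => ?_⟩
      have := hU _ h'
      simp at this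
    rw [← h] at h1
    unfold cl at h1
    rw [Finset.mem_filter] at h1
    exact h1.2.2 hmem
  · intro h
    ext z
    unfold cl
    rw [Finset.mem_filter, Finset.mem_filter]
    refine and_congr_right fun _ => and_congr_right fun _ => not_congr ⟨?_, ?_⟩
    · intro h1; exact trans2 hE hU hy h h1
    · intro h1
      refine trans2 hE hU hx ?_ h1
      rw [Finset.pair_comm]; exact h

theorem m2_rank2 (hU : Unif F 2) (x y : α) :
    m2 w F x y = if ({x, y} : Finset α) ∈ F ∧ x ≠ y then w x * w y else 0 := by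
  have hpair : ∀ B ∈ F, (x ∈ B ∧ y ∈ B ∧ x ≠ y) → B = {x, y} := by
    rintro B hB ⟨h1, h2, h3⟩
    symm
    apply Finset.eq_of_subset_of_card_le
    · intro z hz
      rw [Finset.mem_insert, Finset.mem_singleton] at hz
      rcases hz with rfl | rfl
      · exact h1
      · exact h2
    · rw [hU B hB, Finset.card_pair h3]
  unfold m2
  by_cases h : ({x, y} : Finset α) ∈ F ∧ x ≠ y
  · rw [if_pos h, Finset.sum_eq_single ({x, y} : Finset α)]
    · rw [if_pos ⟨by simp, by simp, h.2⟩]
      unfold wt
      rw [Finset.prod_pair h.2]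
    · intro B hB hne
      rw [if_neg]
      exact fun h' => hne (hpair B hB h')
    · intro h'; exact absurd h.1 h'
  · rw [if_neg h]
    refine Finset.sum_eq_zero fun B hB => ?_
    rw [if_neg]
    intro h'
    apply h
    rw [← hpair B hB h']
    exact ⟨hB, h'.2.2⟩

open Classical in
theorem bilin2 (hE : Exch F) (hU : Unif F 2) (g h : α → ℝ) :
    ∑ x, ∑ y, m2 w F x y * g x * h y =
      (∑ x, if ∃ B ∈ F, x ∈ B then w x * g x else 0) *
        (∑ x, if ∃ B ∈ F, x ∈ B then w x * h x else 0) -
      ∑ c : Finset α, (∑ x, if cl F x = c then (if ∃ B ∈ F, x ∈ B then w x * g x else 0) else 0) *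
        (∑ x, if cl F x = c then (if ∃ B ∈ F, x ∈ B then w x * h x else 0) else 0) := by
  set g' : α → ℝ := fun x => if ∃ B ∈ F, x ∈ B then w x * g x else 0 with hg'
  set h' : α → ℝ := fun x => if ∃ B ∈ F, x ∈ B then w x * h x else 0 with hh'
  have e1 : ∀ x y, m2 w F x y * g x * h y =
      g' x * h' y - (if cl F x = cl F y then g' x * h' y else 0) := by
    intro x y
    rw [m2_rank2 hU]
    by_cases hx : ∃ B ∈ F, x ∈ B
    · by_cases hy : ∃ B ∈ F, y ∈ B
      · have hc := cl_eq_iff hE hU hx hy
        simp only [hg', hh', if_pos hx, if_pos hy]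
        by_cases hm : ({x, y} : Finset α) ∈ F
        · have hxy : x ≠ y := by
            intro h
            have := hU _ hm
            rw [h] at this
            simp at this
          rw [if_pos ⟨hm, hxy⟩, if_neg (fun h => hc.1 h hm)]
          ring
        · rw [if_neg (fun h => hm h.1), if_pos (hc.2 hm)]
          ring
      · have : ({x, y} : Finset α) ∉ F := fun h => hy ⟨_, h, by simp⟩
        simp only [hh', if_neg hy]
        rw [if_neg (fun h => this h.1)]
        simp
    · have : ({x, y} : Finset α) ∉ F := fun h => hx ⟨_, h, by simp⟩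
      simp only [hg', if_neg hx]
      rw [if_neg (fun h => this h.1)]
      simp
  simp only [e1, Finset.sum_sub_distrib]
  congr 1
  · rw [Finset.sum_mul_sum]
  · have e2 : ∀ c : Finset α, (∑ x, if cl F x = c then g' x else 0) *
        (∑ x, if cl F x = c then h' x else 0) =
        ∑ x, ∑ y, if cl F x = c then (if cl F y = c then g' x * h' y else 0) else 0 := by
      intro c
      rw [Finset.sum_mul_sum]
      refine Finset.sum_congr rfl fun x _ => Finset.sum_congr rfl fun y _ => ?_
      by_cases h1 : cl F x = c <;> by_cases h2 : cl F y = c <;> simp [h1, h2]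
    rw [Finset.sum_congr rfl (fun c _ => e2 c)]
    symm
    rw [Finset.sum_comm]
    refine Finset.sum_congr rfl fun x _ => ?_
    rw [Finset.sum_comm]
    refine Finset.sum_congr rfl fun y _ => ?_
    rw [Finset.sum_ite_eq]
    simp only [Finset.mem_univ, if_true]
    by_cases h1 : cl F x = cl F y
    · rw [if_pos h1, if_pos h1.symm]
    · rw [if_neg h1, if_neg (fun h => h1 h.symm)]

/-- Rank two. -/
theorem rank2 (hw : ∀ a, 0 < w a) (hE : Exch F) (hU : Unif F 2) (f : α → ℝ) :
    (∑ x, ∑ y, m2 w F x y * f x * f y) * (2 * Z w F) ≤ (∑ x, m1 w F x * f x) ^ 2 := by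
  classical
  have hrow : ∀ x, ∑ y, m2 w F x y = m1 w F x := by
    intro x
    have := sum_m2 w (r := 1) hU x
    simpa using this
  have h1 : ∑ x, m1 w F x * f x = ∑ x, ∑ y, m2 w F x y * f x * (1 : ℝ) := by
    refine Finset.sum_congr rfl fun x _ => ?_
    rw [← hrow x, Finset.sum_mul]
    exact Finset.sum_congr rfl fun y _ => by ring
  have h2 : 2 * Z w F = ∑ x, ∑ y, m2 w F x y * (1 : ℝ) * (1 : ℝ) := by
    have := sum_m1 w hU
    push_cast at this
    rw [← this]
    refine Finset.sum_congr rfl fun x _ => ?_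
    rw [← hrow x]
    exact Finset.sum_congr rfl fun y _ => by ring
  rw [h1, h2, bilin2 hE hU f f, bilin2 hE hU f (fun _ => 1), bilin2 hE hU (fun _ => 1) (fun _ => 1)]
  simp only [mul_one]
  set A0 := ∑ x, if ∃ B ∈ F, x ∈ B then w x else 0 with hA0
  set S0 := ∑ x, if ∃ B ∈ F, x ∈ B then w x * f x else 0 with hS0
  set a : Finset α → ℝ := fun c => ∑ x, if cl F x = c then
    (if ∃ B ∈ F, x ∈ B then w x else 0) else 0 with ha
  set s : Finset α → ℝ := fun c => ∑ x, if cl F x = c then
    (if ∃ B ∈ F, x ∈ B then w x * f x else 0) else 0 with hs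
  have ha0 : ∀ c, 0 ≤ a c := by
    intro c
    refine Finset.sum_nonneg fun x _ => ?_
    split_ifs <;> first | exact (hw x).le | exact le_rfl
  have hsum : ∑ c, a c = A0 := by
    rw [ha, Finset.sum_comm]
    refine Finset.sum_congr rfl fun x _ => ?_
    rw [Finset.sum_ite_eq]
    simp
  have hle : ∑ c, a c ^ 2 ≤ A0 ^ 2 := by
    rw [← hsum]
    have hstep : ∀ c : Finset α, a c ^ 2 ≤ a c * (∑ d : Finset α, a d) := by
      intro c
      rw [pow_two]
      exact mul_le_mul_of_nonneg_left
        (Finset.single_le_sum (fun d _ => ha0 d) (Finset.mem_univ c)) (ha0 c)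
    calc ∑ c : Finset α, a c ^ 2 ≤ ∑ c : Finset α, a c * (∑ d : Finset α, a d) :=
          Finset.sum_le_sum fun c _ => hstep c
      _ = (∑ c : Finset α, a c) ^ 2 := by rw [← Finset.sum_mul, pow_two]
  have := aczel a s A0 S0 hle
  calc (S0 * S0 - ∑ c, s c * s c) * (A0 * A0 - ∑ c, a c * a c)
      = (S0 ^ 2 - ∑ c, s c ^ 2) * (A0 ^ 2 - ∑ c, a c ^ 2) := by
        simp only [pow_two]
    _ ≤ (A0 * S0 - ∑ c, a c * s c) ^ 2 := this
    _ = (S0 * A0 - ∑ c, s c * a c) ^ 2 := by
        congr 1
        rw [mul_comm A0 S0]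
        congr 1
        exact Finset.sum_congr rfl fun c _ => mul_comm _ _

end rank2

/-- From the mean zero case to the general case. -/
theorem general_of_zero {w : α → ℝ} (hw : ∀ a, 0 < w a) {F : Finset (Finset α)} {k : ℕ}
    (hU : Unif F (k + 1))
    (h0 : ∀ f : α → ℝ, ∑ x, m1 w F x * f x = 0 → ∑ x, ∑ y, m2 w F x y * f x * f y ≤ 0)
    (f : α → ℝ) : (∑ x, ∑ y, m2 w F x y * f x * f y) * ((k + 1 : ℕ) * Z w F) ≤
      k * (∑ x, m1 w F x * f x) ^ 2 := by
  by_cases hF : F.Nonempty
  · have hZ := Z_pos hw hF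
    have hs1 := sum_m1 w hU
    have hN : (0 : ℝ) < ((k + 1 : ℕ) : ℝ) * Z w F := by positivity
    set P := ∑ x, m1 w F x * f x with hP
    set N := ((k + 1 : ℕ) : ℝ) * Z w F with hNdef
    set c := P / N with hc
    have hrow : ∀ x, ∑ y, m2 w F x y = k * m1 w F x := sum_m2 w hU
    have e1 : ∑ x, m1 w F x * (f x - c) = 0 := by
      simp only [mul_sub, Finset.sum_sub_distrib]
      rw [← Finset.sum_mul, hs1, hc]
      field_simp
      ring
    have e2 := h0 _ e1
    have e3 : ∑ x, ∑ y, m2 w F x y * (f x - c) * (f y - c) =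
        ∑ x, ∑ y, m2 w F x y * f x * f y - 2 * c * (k * P) + c ^ 2 * (k * N) := by
      have a1 : ∑ x, ∑ y, m2 w F x y * f x = k * P := by
        rw [hP, Finset.mul_sum]
        refine Finset.sum_congr rfl fun x _ => ?_
        rw [← Finset.sum_mul, hrow]; ring
      have a2 : ∑ x, ∑ y, m2 w F x y * f y = k * P := by
        rw [Finset.sum_comm, ← a1]
        refine Finset.sum_congr rfl fun x _ => Finset.sum_congr rfl fun y _ => ?_
        rw [m2_symm]
      have a3 : ∑ x, ∑ y, m2 w F x y = k * N := by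
        rw [Finset.sum_congr rfl fun x _ => hrow x, ← Finset.mul_sum, hs1]
      have a4 : ∑ x, ∑ y, m2 w F x y * (f x - c) * (f y - c) =
          ∑ x, ∑ y, m2 w F x y * f x * f y - c * (∑ x, ∑ y, m2 w F x y * f x) -
          c * (∑ x, ∑ y, m2 w F x y * f y) + c ^ 2 * ∑ x, ∑ y, m2 w F x y := by
        simp only [Finset.mul_sum, ← Finset.sum_sub_distrib, ← Finset.sum_add_distrib]
        refine Finset.sum_congr rfl fun x _ => Finset.sum_congr rfl fun y _ => by ring
      rw [a4, a1, a2, a3]; ring
    rw [e3] at e2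
    have e4 : c * N = P := by rw [hc]; field_simp
    have e5 : c ^ 2 * (k * N) = c * (k * P) := by rw [← e4]; ring
    have e6 : ∑ x, ∑ y, m2 w F x y * f x * f y ≤ c * (k * P) := by linarith
    calc (∑ x, ∑ y, m2 w F x y * f x * f y) * N ≤ (c * (k * P)) * N :=
          mul_le_mul_of_nonneg_right e6 hN.le
      _ = k * P ^ 2 := by rw [← e4]; ring
  · rw [Finset.not_nonempty_iff_eq_empty] at hF
    subst hF
    simp [Z, m1]

/-- The quadratic form of a weighted exchange family. -/
theorem lorentz {w : α → ℝ} (hw : ∀ a, 0 < w a) (k : ℕ) : ∀ (F : Finset (Finset α)),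
    Exch F → Unif F (k + 1) → ∀ f : α → ℝ,
    (∑ x, ∑ y, m2 w F x y * f x * f y) * ((k + 1 : ℕ) * Z w F) ≤
      k * (∑ x, m1 w F x * f x) ^ 2 := by
  induction k with
  | zero =>
    intro F _ hU f
    have : ∀ x y, m2 w F x y = 0 := by
      intro x y
      unfold m2
      refine Finset.sum_eq_zero fun B hB => ?_
      rw [if_neg]
      rintro ⟨h1, h2, h3⟩
      have h4 := hU B hB
      rw [zero_add, Finset.card_eq_one] at h4
      obtain ⟨a, rfl⟩ := h4
      rw [Finset.mem_singleton] at h1 h2
      exact h3 (h1.trans h2.symm)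
    simp [this]
  | succ k ih =>
    intro F hE hU f
    rcases Nat.eq_zero_or_pos k with hk | hk
    · subst hk
      have := rank2 hw hE hU f
      push_cast
      norm_num
      exact this
    · refine general_of_zero hw hU ?_ f
      have hkr : (0 : ℝ) < k := by exact_mod_cast hk
      refine trickle (m2 w F) (m1 w F) ((k + 1 : ℕ) : ℝ) (by positivity) (m2_symm w F)
        (m2_nonneg hw F) (sum_m2 w hU) (m1_nonneg hw F) ?_ ?_
      · intro f
        -- link inequality
        have hlink : ∀ z, w z * ∑ x, ∑ y, m2 w (lk F z) x y * f x * f y ≤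
            k / ((k + 1 : ℕ) : ℝ) * ((∑ x, m2 w F z x * f x) ^ 2 / m1 w F z) := by
          intro z
          have h1 := ih (lk F z) (lk_exch hE z) (lk_unif hU z) f
          have h2 : w z * Z w (lk F z) = m1 w F z := (m1_eq w F z).symm
          have h3 : w z * ∑ x, m1 w (lk F z) x * f x = ∑ x, m2 w F z x * f x := by
            rw [Finset.mul_sum]
            refine Finset.sum_congr rfl fun x _ => ?_
            rw [← mul_assoc, m1_lk]
          have hm1 := m1_nonneg hw F z
          rcases hm1.lt_or_eq with hpos | hz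
          · have h4 : (w z * ∑ x, ∑ y, m2 w (lk F z) x y * f x * f y) *
                (((k + 1 : ℕ) : ℝ) * m1 w F z) ≤ k * (∑ x, m2 w F z x * f x) ^ 2 := by
              rw [← h2, ← h3]
              have hwz := mul_self_nonneg (w z)
              calc _ = (w z * w z) * ((∑ x, ∑ y, m2 w (lk F z) x y * f x * f y) *
                    (((k + 1 : ℕ) : ℝ) * Z w (lk F z))) := by ring
                _ ≤ (w z * w z) * (k * (∑ x, m1 w (lk F z) x * f x) ^ 2) :=
                    mul_le_mul_of_nonneg_left h1 hwz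
                _ = _ := by ring
            rw [div_mul_div_comm, le_div_iff₀ (by positivity)]
            exact h4
          · have hlk : Z w (lk F z) = 0 := by
              have h5 : w z * Z w (lk F z) = 0 := by rw [h2, ← hz]
              rcases mul_eq_zero.1 h5 with h | h
              · exact absurd h (hw z).ne'
              · exact h
            have hemp : lk F z = ∅ := by
              by_contra hne
              have := Z_pos hw (Finset.nonempty_iff_ne_empty.2 hne)
              linarith
            rw [← hz, hemp]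
            simp [m2]
        have hsum : ∑ z, w z * ∑ x, ∑ y, m2 w (lk F z) x y * f x * f y =
            k * ∑ x, ∑ y, m2 w F x y * f x * f y := by
          calc ∑ z, w z * ∑ x, ∑ y, m2 w (lk F z) x y * f x * f y
              = ∑ z, ∑ x, ∑ y, (w z * m2 w (lk F z) x y) * (f x * f y) := by
                refine Finset.sum_congr rfl fun z _ => ?_
                rw [Finset.mul_sum]
                refine Finset.sum_congr rfl fun x _ => ?_
                rw [Finset.mul_sum]
                exact Finset.sum_congr rfl fun y _ => by ring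
            _ = ∑ x, ∑ y, ∑ z, (w z * m2 w (lk F z) x y) * (f x * f y) := by
                rw [Finset.sum_comm]
                refine Finset.sum_congr rfl fun x _ => ?_
                rw [Finset.sum_comm]
            _ = _ := by
                rw [Finset.mul_sum]
                refine Finset.sum_congr rfl fun x _ => ?_
                rw [Finset.mul_sum]
                refine Finset.sum_congr rfl fun y _ => ?_
                rw [← Finset.sum_mul, sum_m2_lk w hU]; ring
        have hle : (k : ℝ) * ∑ x, ∑ y, m2 w F x y * f x * f y ≤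
            k * (1 / ((k + 1 : ℕ) : ℝ) * ∑ z, (∑ x, m2 w F z x * f x) ^ 2 / m1 w F z) := by
          rw [← hsum]
          calc _ ≤ ∑ z, k / ((k + 1 : ℕ) : ℝ) * ((∑ x, m2 w F z x * f x) ^ 2 / m1 w F z) :=
                Finset.sum_le_sum fun z _ => hlink z
            _ = _ := by rw [← Finset.mul_sum]; ring
        exact le_of_mul_le_mul_left hle hkr
      · intro f hf x y hx hy
        exact conn_of hw hE (r := k) hU f hf x y hx hy

end Pool.Agent.Lib.MP_8b1b48_lc.Mix
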