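import Pool.Agent.Lib.MP_8b1b48_lc.Mix3

/-!
The Poincare inequality of the down-up walk on a weighted exchange family.
-/

set_option linter.unusedSectionVars false

namespace Pool.Agent.Lib.MP_8b1b48_lc.Mix

open Finset

variable {α : Type} [Fintype α] [DecidableEq α]

/-- First moment. -/
def S1 (w : α → ℝ) (F : Finset (Finset α)) (f : Finset α → ℝ) : ℝ := ∑ B ∈ F, wt w B * f B

/-- Second moment. -/
def S2 (w : α → ℝ) (F : Finset (Finset α)) (f : Finset α → ℝ) : ℝ := ∑ B ∈ F, wt w B * f B ^ 2

/-- Unnormalised variance. -/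
noncomputable def W (w : α → ℝ) (F : Finset (Finset α)) (f : Finset α → ℝ) : ℝ :=
  S2 w F f - S1 w F f ^ 2 / Z w F

theorem S1_sq_le {w : α → ℝ} (hw : ∀ a, 0 < w a) (F : Finset (Finset α)) (f : Finset α → ℝ) :
    S1 w F f ^ 2 ≤ Z w F * S2 w F f := by
  unfold S1 Z S2
  have h := Finset.sum_sq_le_sum_mul_sum_of_sq_le_mul F (r := fun B => wt w B * f B)
    (f := fun B => wt w B) (g := fun B => wt w B * f B ^ 2)
    (fun B _ => (wt_pos hw B).le) (fun B _ => mul_nonneg (wt_pos hw B).le (sq_nonneg _))
    (fun B _ => le_of_eq (by ring))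
  exact h

theorem W_nonneg {w : α → ℝ} (hw : ∀ a, 0 < w a) (F : Finset (Finset α)) (f : Finset α → ℝ) :
    0 ≤ W w F f := by
  unfold W
  have h := S1_sq_le hw F f
  rcases (Z_nonneg hw F).lt_or_eq with hZ | hZ
  · rw [sub_nonneg, div_le_iff₀ hZ, mul_comm]; exact h
  · rw [← hZ] at h ⊢
    rw [div_zero, sub_zero]
    unfold S2
    exact Finset.sum_nonneg fun B _ => mul_nonneg (wt_pos hw B).le (sq_nonneg _)

/-- Total weighted value of the members containing `x`. -/
def A1 (w : α → ℝ) (F : Finset (Finset α)) (f : Finset α → ℝ) (x : α) : ℝ :=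
  ∑ B ∈ F, if x ∈ B then wt w B * f B else 0

theorem S1_lk (w : α → ℝ) (F : Finset (Finset α)) (f : Finset α → ℝ) (x : α) :
    w x * S1 w (lk F x) (fun T => f (insert x T)) = A1 w F f x := by
  unfold S1 A1
  rw [← sum_lk F x (fun B => wt w B * f B), Finset.mul_sum]
  refine Finset.sum_congr rfl fun T hT => ?_
  rw [mem_lk] at hT
  rw [wt_insert w hT.1]; ring

theorem S2_lk (w : α → ℝ) (F : Finset (Finset α)) (f : Finset α → ℝ) (x : α) :
    w x * S2 w (lk F x) (fun T => f (insert x T)) =
      ∑ B ∈ F, if x ∈ B then wt w B * f B ^ 2 else 0 := by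
  unfold S2
  rw [← sum_lk F x (fun B => wt w B * f B ^ 2), Finset.mul_sum]
  refine Finset.sum_congr rfl fun T hT => ?_
  rw [mem_lk] at hT
  rw [wt_insert w hT.1]; ring

theorem sum_A1 (w : α → ℝ) {F : Finset (Finset α)} {r : ℕ} (h : Unif F r) (f : Finset α → ℝ) :
    ∑ x, A1 w F f x = r * S1 w F f := by
  unfold A1 S1
  rw [Finset.sum_comm, Finset.mul_sum]
  refine Finset.sum_congr rfl fun B hB => ?_
  rw [← Finset.sum_filter, Finset.sum_const, nsmul_eq_mul]
  congr 1
  rw [← h B hB]
  congr 1
  congr 1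
  ext x; simp

theorem sum_S2_lk (w : α → ℝ) {F : Finset (Finset α)} {r : ℕ} (h : Unif F r)
    (f : Finset α → ℝ) :
    ∑ x, w x * S2 w (lk F x) (fun T => f (insert x T)) = r * S2 w F f := by
  simp only [S2_lk]
  unfold S2
  rw [Finset.sum_comm, Finset.mul_sum]
  refine Finset.sum_congr rfl fun B hB => ?_
  rw [← Finset.sum_filter, Finset.sum_const, nsmul_eq_mul]
  congr 1
  rw [← h B hB]
  congr 1
  congr 1
  ext x; simp

/-- The unnormalised variance of the link. -/
theorem W_lk {w : α → ℝ} (hw : ∀ a, 0 < w a) (F : Finset (Finset α)) (f : Finset α → ℝ)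
    (x : α) : w x * W w (lk F x) (fun T => f (insert x T)) =
      w x * S2 w (lk F x) (fun T => f (insert x T)) - A1 w F f x ^ 2 / m1 w F x := by
  unfold W
  rw [mul_sub, ← S1_lk, m1_eq]
  congr 1
  have := (hw x).ne'
  rw [mul_pow, mul_comm (w x) (Z w _), pow_two (w x)]
  by_cases hZ : Z w (lk F x) = 0
  · rw [hZ]; simp
  · field_simp

/-- Centred one level inequality. -/
theorem level_zero {w : α → ℝ} (hw : ∀ a, 0 < w a) {F : Finset (Finset α)} {k : ℕ}
    (hE : Exch F) (hU : Unif F (k + 1)) (hF : F.Nonempty) (f : Finset α → ℝ)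
    (h0 : S1 w F f = 0) : ∑ x, A1 w F f x ^ 2 / m1 w F x ≤ S2 w F f := by
  set g : α → ℝ := fun x => A1 w F f x / m1 w F x with hg
  set Y := ∑ x, A1 w F f x ^ 2 / m1 w F x with hY
  have hm := m1_nonneg hw F
  have hA0 : ∀ x, m1 w F x = 0 → A1 w F f x = 0 := by
    intro x hx
    have h1 : ∀ B ∈ F, (if x ∈ B then wt w B else 0) = 0 := by
      have := (Finset.sum_eq_zero_iff_of_nonneg (s := F) (f := fun B => if x ∈ B then wt w B else 0)
        (fun B _ => by
          by_cases h : x ∈ B
          · simp only [if_pos h]; exact (wt_pos hw B).le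
          · simp only [if_neg h]; exact le_rfl)).1 hx
      exact this
    unfold A1
    refine Finset.sum_eq_zero fun B hB => ?_
    have h2 := h1 B hB
    by_cases h : x ∈ B
    · rw [if_pos h] at h2
      exact absurd h2 (wt_pos hw B).ne'
    · rw [if_neg h]
  have hg1 : ∀ x, m1 w F x * g x = A1 w F f x := by
    intro x
    by_cases h : m1 w F x = 0
    · rw [h, hA0 x h, zero_mul]
    · rw [hg]; field_simp
  have hYg : Y = ∑ x, A1 w F f x * g x := by
    rw [hY]; exact Finset.sum_congr rfl fun x _ => by rw [hg]; ring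
  have hYg2 : Y = ∑ x, m1 w F x * g x ^ 2 := by
    rw [hYg]
    refine Finset.sum_congr rfl fun x _ => ?_
    rw [← hg1 x]; ring
  have hY0 : 0 ≤ Y := Finset.sum_nonneg fun x _ => div_nonneg (sq_nonneg _) (hm x)
  have hYB : Y = ∑ B ∈ F, wt w B * (f B * ∑ x ∈ B, g x) := by
    rw [hYg]
    unfold A1
    simp only [Finset.sum_mul]
    rw [Finset.sum_comm]
    refine Finset.sum_congr rfl fun B _ => ?_
    rw [Finset.mul_sum, Finset.mul_sum]
    rw [← Finset.sum_filter_add_sum_filter_not univ (fun x => x ∈ B)]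
    have e1 : ∑ x ∈ univ.filter (fun x => ¬ x ∈ B),
        (if x ∈ B then wt w B * f B else 0) * g x = 0 := by
      refine Finset.sum_eq_zero fun x hx => ?_
      rw [Finset.mem_filter] at hx
      rw [if_neg hx.2, zero_mul]
    rw [e1, add_zero]
    have e2 : (univ.filter fun x => x ∈ B) = B := by ext x; simp
    rw [e2]
    refine Finset.sum_congr rfl fun x hx => ?_
    rw [if_pos hx]; ring
  set Q := ∑ B ∈ F, wt w B * (∑ x ∈ B, g x) ^ 2 with hQ
  have hCS : Y ^ 2 ≤ S2 w F f * Q := by
    rw [hYB]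
    exact Finset.sum_sq_le_sum_mul_sum_of_sq_le_mul F
      (fun B _ => mul_nonneg (wt_pos hw B).le (sq_nonneg _))
      (fun B _ => mul_nonneg (wt_pos hw B).le (sq_nonneg _))
      (fun B _ => le_of_eq (by ring))
  have hQeq : Q = ∑ x, ∑ y, m2 w F x y * g x * g y + Y := by
    have e0 : ∀ x y, m2 w F x y * g x * g y + (if x = y then m1 w F x * g x ^ 2 else 0) =
        ∑ B ∈ F, if x ∈ B ∧ y ∈ B then wt w B * (g x * g y) else 0 := by
      intro x y
      by_cases hxy : x = y
      · subst hxy
        unfold m2 m1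
        have : ∑ B ∈ F, (if x ∈ B ∧ x ∈ B ∧ x ≠ x then wt w B else 0) = 0 :=
          Finset.sum_eq_zero fun B _ => if_neg fun h => h.2.2 rfl
        rw [if_pos rfl, this, zero_mul, zero_mul, zero_add, Finset.sum_mul]
        refine Finset.sum_congr rfl fun B _ => ?_
        by_cases h : x ∈ B
        · rw [if_pos h, if_pos ⟨h, h⟩]; ring
        · rw [if_neg h, if_neg (fun h' => h h'.1), zero_mul]
      · rw [if_neg hxy, add_zero]
        unfold m2
        rw [Finset.sum_mul, Finset.sum_mul]
        refine Finset.sum_congr rfl fun B _ => ?_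
        by_cases h : x ∈ B ∧ y ∈ B
        · rw [if_pos ⟨h.1, h.2, hxy⟩, if_pos h]; ring
        · rw [if_neg (fun h' => h ⟨h'.1, h'.2.1⟩), if_neg h]; ring
    have e1 : ∑ x, ∑ y, (m2 w F x y * g x * g y + (if x = y then m1 w F x * g x ^ 2 else 0)) =
        ∑ x, ∑ y, m2 w F x y * g x * g y + Y := by
      simp only [Finset.sum_add_distrib]
      congr 1
      rw [hYg2]
      refine Finset.sum_congr rfl fun x _ => ?_
      rw [Finset.sum_ite_eq]; simp
    rw [← e1]
    simp only [e0]
    have e2 : ∑ x, ∑ y, ∑ B ∈ F, (if x ∈ B ∧ y ∈ B then wt w B * (g x * g y) else 0) =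
        ∑ B ∈ F, ∑ x, ∑ y, (if x ∈ B ∧ y ∈ B then wt w B * (g x * g y) else 0) := by
      rw [Finset.sum_comm]
      have : ∀ y, ∑ x, ∑ B ∈ F, (if x ∈ B ∧ y ∈ B then wt w B * (g x * g y) else 0) =
          ∑ B ∈ F, ∑ x, (if x ∈ B ∧ y ∈ B then wt w B * (g x * g y) else 0) := fun y =>
        Finset.sum_comm
      rw [Finset.sum_congr rfl fun y _ => this y, Finset.sum_comm]
      refine Finset.sum_congr rfl fun B _ => ?_
      rw [Finset.sum_comm]
    rw [e2, hQ]
    refine Finset.sum_congr rfl fun B _ => ?_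
    rw [pow_two, Finset.sum_mul_sum, Finset.mul_sum]
    have hB : ∀ h : α → ℝ, ∑ x ∈ B, h x = ∑ x, if x ∈ B then h x else 0 := by
      intro h
      rw [← Finset.sum_filter]
      congr 1
      ext x; simp
    rw [hB]
    refine Finset.sum_congr rfl fun x _ => ?_
    by_cases hx : x ∈ B
    · rw [if_pos hx, hB, Finset.mul_sum]
      refine Finset.sum_congr rfl fun y _ => ?_
      by_cases hy : y ∈ B
      · rw [if_pos hy, if_pos ⟨hx, hy⟩]
      · rw [if_neg hy, if_neg (fun h => hy h.2), mul_zero]
    · rw [if_neg hx]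
      symm
      exact Finset.sum_eq_zero fun y _ => if_neg fun h => hx h.1
  have hlor := lorentz hw k F hE hU g
  have hsg : ∑ x, m1 w F x * g x = 0 := by
    rw [Finset.sum_congr rfl fun x _ => hg1 x, sum_A1 w hU, h0, mul_zero]
  rw [hsg] at hlor
  have hN : (0 : ℝ) < ((k + 1 : ℕ) : ℝ) * Z w F := by
    have := Z_pos hw hF
    positivity
  have hq : ∑ x, ∑ y, m2 w F x y * g x * g y ≤ 0 := by
    by_contra hc
    push Not at hc
    have := mul_pos hc hN
    simp at hlor
    push_cast at this
    linarith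
  have hQY : Q ≤ Y := by rw [hQeq]; linarith
  have hS2 : 0 ≤ S2 w F f := Finset.sum_nonneg fun B _ => mul_nonneg (wt_pos hw B).le (sq_nonneg _)
  rcases hY0.lt_or_eq with hpos | hz
  · have h1 : Y * Y ≤ S2 w F f * Y := by
      calc Y * Y = Y ^ 2 := by ring
        _ ≤ S2 w F f * Q := hCS
        _ ≤ S2 w F f * Y := mul_le_mul_of_nonneg_left hQY hS2
    exact le_of_mul_le_mul_right h1 hpos
  · rw [← hz]; exact hS2

/-- One level inequality. -/
theorem level {w : α → ℝ} (hw : ∀ a, 0 < w a) {F : Finset (Finset α)} {k : ℕ}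
    (hE : Exch F) (hU : Unif F (k + 1)) (f : Finset α → ℝ) :
    ∑ x, A1 w F f x ^ 2 / m1 w F x - ((k + 1 : ℕ) : ℝ) * (S1 w F f ^ 2 / Z w F) ≤ W w F f := by
  by_cases hF : F.Nonempty
  · have hZ := Z_pos hw hF
    set c := S1 w F f / Z w F with hc
    have hcZ : c * Z w F = S1 w F f := by rw [hc]; field_simp
    have e1 : S1 w F (fun B => f B - c) = 0 := by
      unfold S1
      simp only [mul_sub, Finset.sum_sub_distrib]
      rw [← Finset.sum_mul]
      change S1 w F f - Z w F * c = 0
      rw [mul_comm, hcZ]; ring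
    have e2 := level_zero hw hE hU hF _ e1
    have e3 : S2 w F (fun B => f B - c) = W w F f := by
      have h1 : S2 w F (fun B => f B - c) = S2 w F f - 2 * c * S1 w F f + c ^ 2 * Z w F := by
        unfold S2 S1 Z
        rw [Finset.mul_sum, Finset.mul_sum, ← Finset.sum_sub_distrib, ← Finset.sum_add_distrib]
        exact Finset.sum_congr rfl fun B _ => by ring
      rw [h1]
      unfold W
      have h2 : S1 w F f ^ 2 / Z w F = c * S1 w F f := by rw [hc]; ring
      rw [h2, ← hcZ]; ring
    have hA : ∀ x, A1 w F (fun B => f B - c) x = A1 w F f x - c * m1 w F x := by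
      intro x
      unfold A1 m1
      rw [Finset.mul_sum, ← Finset.sum_sub_distrib]
      refine Finset.sum_congr rfl fun B _ => ?_
      by_cases h : x ∈ B
      · rw [if_pos h, if_pos h, if_pos h]; ring
      · rw [if_neg h, if_neg h, if_neg h]; ring
    have hA0 : ∀ x, m1 w F x = 0 → A1 w F f x = 0 := by
      intro x hx
      have h1 : ∀ B ∈ F, (if x ∈ B then wt w B else 0) = 0 :=
        (Finset.sum_eq_zero_iff_of_nonneg (s := F) (f := fun B => if x ∈ B then wt w B else 0)
          (fun B _ => by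
            by_cases h : x ∈ B
            · simp only [if_pos h]; exact (wt_pos hw B).le
            · simp only [if_neg h]; exact le_rfl)).1 hx
      unfold A1
      refine Finset.sum_eq_zero fun B hB => ?_
      have h2 := h1 B hB
      by_cases h : x ∈ B
      · rw [if_pos h] at h2
        exact absurd h2 (wt_pos hw B).ne'
      · rw [if_neg h]
    have e4 : ∑ x, A1 w F (fun B => f B - c) x ^ 2 / m1 w F x =
        ∑ x, A1 w F f x ^ 2 / m1 w F x - 2 * c * ∑ x, A1 w F f x + c ^ 2 * ∑ x, m1 w F x := by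
      rw [Finset.mul_sum, Finset.mul_sum, ← Finset.sum_sub_distrib, ← Finset.sum_add_distrib]
      refine Finset.sum_congr rfl fun x _ => ?_
      rw [hA]
      by_cases h : m1 w F x = 0
      · rw [h, hA0 x h]; simp
      · field_simp; ring
    rw [e3, e4, sum_A1 w hU, sum_m1 w hU] at e2
    have h2 : S1 w F f ^ 2 / Z w F = c * S1 w F f := by rw [hc]; ring
    rw [h2]
    calc _ = ∑ x, A1 w F f x ^ 2 / m1 w F x - 2 * c * (((k + 1 : ℕ) : ℝ) * S1 w F f) +
          c ^ 2 * (((k + 1 : ℕ) : ℝ) * Z w F) := by rw [← hcZ]; ring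
      _ ≤ _ := e2
  · rw [Finset.not_nonempty_iff_eq_empty] at hF
    subst hF
    simp [A1, W, S1, S2, Z]

theorem up_lk (F : Finset (Finset α)) (x : α) {T : Finset α} (hx : x ∉ T) :
    up (lk F x) T = lk (up F (insert x T)) x := by
  ext B
  unfold up
  rw [Finset.mem_filter, mem_lk, mem_lk, Finset.mem_filter]
  constructor
  · rintro ⟨⟨h1, h2⟩, h3⟩
    exact ⟨h1, h2, Finset.insert_subset_insert _ h3⟩
  · rintro ⟨h1, h2, h3⟩
    refine ⟨⟨h1, h2⟩, fun z hz => ?_⟩
    rcases Finset.mem_insert.1 (h3 (Finset.mem_insert_of_mem hz)) with h | h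
    · exact absurd (h ▸ hz) hx
    · exact h

theorem up_lk_empty (F : Finset (Finset α)) (x : α) {T : Finset α} (hx : x ∈ T) :
    up (lk F x) T = ∅ := by
  unfold up
  rw [Finset.filter_eq_empty_iff]
  intro B hB h
  rw [mem_lk] at hB
  exact hB.1 (h hx)

/-- If every member contains `x` the link has the same variance. -/
theorem W_lk_full {w : α → ℝ} (hw : ∀ a, 0 < w a) (F : Finset (Finset α)) (f : Finset α → ℝ)
    (x : α) (h : ∀ B ∈ F, x ∈ B) :
    w x * W w (lk F x) (fun T => f (insert x T)) = W w F f := by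
  rw [W_lk hw, S2_lk]
  unfold W S2 A1 m1 S1 Z
  have h1 : ∀ g : Finset α → ℝ, ∑ B ∈ F, (if x ∈ B then g B else 0) = ∑ B ∈ F, g B := fun g =>
    Finset.sum_congr rfl fun B hB => if_pos (h B hB)
  rw [h1, h1, h1]

/-- The Poincare inequality. -/
theorem poincare {w : α → ℝ} (hw : ∀ a, 0 < w a) (k : ℕ) : ∀ (F : Finset (Finset α)),
    Exch F → Unif F (k + 1) → ∀ f : Finset α → ℝ,
    W w F f ≤ ∑ T ∈ univ.powersetCard k, W w (up F T) f := by
  induction k with
  | zero =>
    intro F _ _ f
    rw [Finset.powersetCard_zero, Finset.sum_singleton]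
    have : up F ∅ = F := by unfold up; simp
    rw [this]
  | succ k ih =>
    intro F hE hU f
    have hlev := level hw hE hU f
    have hsum : ∑ x, w x * W w (lk F x) (fun T => f (insert x T)) =
        ((k + 1 + 1 : ℕ) : ℝ) * S2 w F f - ∑ x, A1 w F f x ^ 2 / m1 w F x := by
      simp only [W_lk hw]
      rw [Finset.sum_sub_distrib, sum_S2_lk w hU]
    have h1 : ((k + 1 : ℕ) : ℝ) * W w F f ≤
        ∑ x, w x * W w (lk F x) (fun T => f (insert x T)) := by
      rw [hsum]
      unfold W at hlev ⊢
      push_cast at hlev ⊢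
      linarith
    have h2 : ∑ x, w x * W w (lk F x) (fun T => f (insert x T)) ≤
        ∑ x, w x * ∑ T ∈ univ.powersetCard k, W w (up (lk F x) T) (fun T => f (insert x T)) :=
      Finset.sum_le_sum fun x _ => mul_le_mul_of_nonneg_left
        (ih (lk F x) (lk_exch hE x) (lk_unif hU x) _) (hw x).le
    have h3 : ∑ x, w x * ∑ T ∈ univ.powersetCard k, W w (up (lk F x) T)
        (fun T => f (insert x T)) = ((k + 1 : ℕ) : ℝ) *
          ∑ T ∈ univ.powersetCard (k + 1), W w (up F T) f := by
      have e1 : ∀ x, w x * ∑ T ∈ univ.powersetCard k, W w (up (lk F x) T)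
          (fun T => f (insert x T)) =
          ∑ T ∈ univ.powersetCard (k + 1), if x ∈ T then W w (up F T) f else 0 := by
        intro x
        rw [Finset.mul_sum, ← Finset.sum_filter]
        have e2 : ∑ T ∈ univ.powersetCard k, w x * W w (up (lk F x) T)
            (fun T => f (insert x T)) =
            ∑ T ∈ (univ.powersetCard k).filter (fun T => x ∉ T), w x * W w (up (lk F x) T)
            (fun T => f (insert x T)) := by
          rw [Finset.sum_filter]
          refine Finset.sum_congr rfl fun T _ => ?_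
          by_cases h : x ∈ T
          · rw [if_neg (fun h' => h' h), up_lk_empty F x h]
            simp [W, S1, S2]
          · rw [if_pos h]
        rw [e2]
        refine Finset.sum_nbij' (fun T => insert x T) (fun T => T.erase x) ?_ ?_ ?_ ?_ ?_
        · intro T hT
          rw [Finset.mem_filter, Finset.mem_powersetCard] at hT
          rw [Finset.mem_filter, Finset.mem_powersetCard]
          exact ⟨⟨Finset.subset_univ _, by rw [Finset.card_insert_of_notMem hT.2, hT.1.2]⟩,
            Finset.mem_insert_self _ _⟩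
        · intro T hT
          rw [Finset.mem_filter, Finset.mem_powersetCard] at hT
          rw [Finset.mem_filter, Finset.mem_powersetCard]
          exact ⟨⟨Finset.subset_univ _, by
            rw [Finset.card_erase_of_mem hT.2, hT.1.2]; rfl⟩, Finset.notMem_erase _ _⟩
        · intro T hT
          rw [Finset.mem_filter] at hT
          exact Finset.erase_insert hT.2
        · intro T hT
          rw [Finset.mem_filter] at hT
          exact Finset.insert_erase hT.2
        · intro T hT
          rw [Finset.mem_filter] at hT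
          rw [up_lk F x hT.2]
          refine W_lk_full hw _ f x fun B hB => ?_
          unfold up at hB
          rw [Finset.mem_filter] at hB
          exact hB.2 (Finset.mem_insert_self _ _)
      simp only [e1]
      rw [Finset.sum_comm, Finset.mul_sum]
      refine Finset.sum_congr rfl fun T hT => ?_
      rw [Finset.mem_powersetCard] at hT
      rw [← Finset.sum_filter, Finset.sum_const, nsmul_eq_mul]
      congr 1
      rw [← hT.2]
      congr 1
      congr 1
      ext x; simp
    have h4 : ((k + 1 : ℕ) : ℝ) * W w F f ≤ ((k + 1 : ℕ) : ℝ) *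
        ∑ T ∈ univ.powersetCard (k + 1), W w (up F T) f := by
      rw [← h3]; exact h1.trans h2
    exact le_of_mul_le_mul_left h4 (by positivity)

end Pool.Agent.Lib.MP_8b1b48_lc.Mix
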