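import Pool.Agent.Lib.MP_8b1b48_lc.Mix4

/-!
The down-up walk on a weighted exchange family and its mixing time.
-/

set_option linter.unusedSectionVars false

namespace Pool.Agent.Lib.MP_8b1b48_lc.Mix

open Finset

variable {α : Type} [Fintype α] [DecidableEq α]

theorem step_nonneg {w : α → ℝ} (hw : ∀ a, 0 < w a) (F : Finset (Finset α)) (r : ℕ)
    (B B' : Finset α) : 0 ≤ step w F r B B' := by
  unfold step
  refine mul_nonneg (by positivity) (Finset.sum_nonneg fun x _ => ?_)
  split_ifs
  · exact div_nonneg (wt_pos hw _).le (Z_nonneg hw _)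
  · exact le_rfl

/-- The averages over the members containing a given set. -/
noncomputable def av (w : α → ℝ) (F : Finset (Finset α)) (f : Finset α → ℝ) (T : Finset α) : ℝ :=
  S1 w (up F T) f / Z w (up F T)

/-- The walk operator acting on functions. -/
noncomputable def Pop (w : α → ℝ) (F : Finset (Finset α)) (k : ℕ) (f : Finset α → ℝ)
    (B : Finset α) : ℝ :=
  (1 / ((k + 1 : ℕ) : ℝ)) * ∑ T ∈ univ.powersetCard k, if T ⊆ B then av w F f T else 0

/-- Removing one element: the sum over the elements is the sum over the subsets. -/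
theorem sum_erase {k : ℕ} {B : Finset α} (hB : B.card = k + 1) (φ : Finset α → ℝ) :
    ∑ x ∈ B, φ (B.erase x) = ∑ T ∈ univ.powersetCard k, if T ⊆ B then φ T else 0 := by
  rw [← Finset.sum_filter]
  refine Finset.sum_bij (fun x _ => B.erase x) ?_ ?_ ?_ ?_
  · intro x hx
    rw [Finset.mem_filter, Finset.mem_powersetCard]
    exact ⟨⟨Finset.subset_univ _, by rw [Finset.card_erase_of_mem hx, hB]; rfl⟩,
      Finset.erase_subset _ _⟩
  · intro x hx y hy h
    by_contra hne
    have : y ∈ B.erase x := Finset.mem_erase.2 ⟨fun h => hne h.symm, hy⟩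
    rw [h] at this
    exact Finset.notMem_erase _ _ this
  · intro T hT
    rw [Finset.mem_filter, Finset.mem_powersetCard] at hT
    have h1 : (B \ T).card = 1 := by
      rw [Finset.card_sdiff_of_subset hT.2, hB, hT.1.2]; omega
    obtain ⟨x, hx⟩ := Finset.card_eq_one.1 h1
    have hxB : x ∈ B \ T := by rw [hx]; exact Finset.mem_singleton_self _
    rw [Finset.mem_sdiff] at hxB
    refine ⟨x, hxB.1, ?_⟩
    ext z
    rw [Finset.mem_erase]
    constructor
    · rintro ⟨h1, h2⟩
      by_contra h3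
      have : z ∈ B \ T := Finset.mem_sdiff.2 ⟨h2, h3⟩
      rw [hx, Finset.mem_singleton] at this
      exact h1 this
    · intro h
      exact ⟨fun h' => hxB.2 (h' ▸ h), hT.2 h⟩
  · intro x _; rfl

theorem step_eq (w : α → ℝ) (F : Finset (Finset α)) {k : ℕ} {B : Finset α}
    (hB : B.card = k + 1) {B' : Finset α} (hB' : B' ∈ F) :
    step w F (k + 1) B B' = wt w B' * ((1 / ((k + 1 : ℕ) : ℝ)) * ∑ T ∈ univ.powersetCard k,
      if T ⊆ B ∧ T ⊆ B' then 1 / Z w (up F T) else 0) := by
  unfold step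
  rw [sum_erase hB (fun T => if B' ∈ up F T then wt w B' / Z w (up F T) else 0),
    ← mul_assoc, mul_comm (wt w B'), mul_assoc, Finset.mul_sum (s := univ.powersetCard k) (a := wt w B')]
  congr 1
  refine Finset.sum_congr rfl fun T _ => ?_
  have : B' ∈ up F T ↔ T ⊆ B' := by
    unfold up; rw [Finset.mem_filter]; exact ⟨fun h => h.2, fun h => ⟨hB', h⟩⟩
  by_cases h1 : T ⊆ B
  · by_cases h2 : T ⊆ B'
    · rw [if_pos h1, if_pos (this.2 h2), if_pos ⟨h1, h2⟩]; ring
    · rw [if_pos h1, if_neg (fun h => h2 (this.1 h)), if_neg (fun h => h2 h.2), mul_zero]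
  · rw [if_neg h1, if_neg (fun h => h1 h.1), mul_zero]

theorem S1_up (w : α → ℝ) (F : Finset (Finset α)) (T : Finset α) (f : Finset α → ℝ) :
    S1 w (up F T) f = ∑ B ∈ F, if T ⊆ B then wt w B * f B else 0 := by
  unfold S1 up
  rw [Finset.sum_filter]

theorem S2_up (w : α → ℝ) (F : Finset (Finset α)) (T : Finset α) (f : Finset α → ℝ) :
    S2 w (up F T) f = ∑ B ∈ F, if T ⊆ B then wt w B * f B ^ 2 else 0 := by
  unfold S2 up
  rw [Finset.sum_filter]

theorem Z_up (w : α → ℝ) (F : Finset (Finset α)) (T : Finset α) :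
    Z w (up F T) = ∑ B ∈ F, if T ⊆ B then wt w B else 0 := by
  unfold Z up
  rw [Finset.sum_filter]

theorem sum_sub_card {k : ℕ} {B : Finset α} (hB : B.card = k + 1) (c : ℝ) :
    ∑ T ∈ univ.powersetCard k, (if T ⊆ B then c else 0) = ((k + 1 : ℕ) : ℝ) * c := by
  rw [← sum_erase hB (fun _ => c), Finset.sum_const, hB, nsmul_eq_mul]

theorem sum_S1_up (w : α → ℝ) {F : Finset (Finset α)} {k : ℕ} (hU : Unif F (k + 1))
    (f : Finset α → ℝ) :
    ∑ T ∈ univ.powersetCard k, S1 w (up F T) f = ((k + 1 : ℕ) : ℝ) * S1 w F f := by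
  simp only [S1_up]
  rw [Finset.sum_comm]
  unfold S1
  rw [Finset.mul_sum]
  exact Finset.sum_congr rfl fun B hB => sum_sub_card (hU B hB) _

theorem sum_S2_up (w : α → ℝ) {F : Finset (Finset α)} {k : ℕ} (hU : Unif F (k + 1))
    (f : Finset α → ℝ) :
    ∑ T ∈ univ.powersetCard k, S2 w (up F T) f = ((k + 1 : ℕ) : ℝ) * S2 w F f := by
  simp only [S2_up]
  rw [Finset.sum_comm]
  unfold S2
  rw [Finset.mul_sum]
  exact Finset.sum_congr rfl fun B hB => sum_sub_card (hU B hB) _

theorem Z_up_pos {w : α → ℝ} (hw : ∀ a, 0 < w a) {F : Finset (Finset α)} {B T : Finset α}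
    (hB : B ∈ F) (hT : T ⊆ B) : 0 < Z w (up F T) :=
  Z_pos hw ⟨B, by unfold up; rw [Finset.mem_filter]; exact ⟨hB, hT⟩⟩

theorem av_mul {w : α → ℝ} (hw : ∀ a, 0 < w a) (F : Finset (Finset α)) (f : Finset α → ℝ)
    (T : Finset α) : Z w (up F T) * av w F f T = S1 w (up F T) f := by
  unfold av
  by_cases h : Z w (up F T) = 0
  · have : S1 w (up F T) f ^ 2 ≤ 0 := by
      have := S1_sq_le hw (up F T) f
      rw [h, zero_mul] at this; exact this
    have h2 : S1 w (up F T) f = 0 := by
      have := sq_nonneg (S1 w (up F T) f)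
      exact pow_eq_zero_iff (two_ne_zero) |>.1 (le_antisymm ‹_› this)
    rw [h, h2]; simp
  · field_simp

/-- The operator preserves the mean. -/
theorem S1_Pop {w : α → ℝ} (hw : ∀ a, 0 < w a) {F : Finset (Finset α)} {k : ℕ}
    (hU : Unif F (k + 1)) (f : Finset α → ℝ) : S1 w F (Pop w F k f) = S1 w F f := by
  have h1 : S1 w F (Pop w F k f) = (1 / ((k + 1 : ℕ) : ℝ)) *
      ∑ T ∈ univ.powersetCard k, Z w (up F T) * av w F f T := by
    unfold S1 Pop
    rw [Finset.mul_sum]
    simp only [Z_up]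
    have e1 : ∀ B, wt w B * ((1 / ((k + 1 : ℕ) : ℝ)) * ∑ T ∈ univ.powersetCard k,
        if T ⊆ B then av w F f T else 0) = ∑ T ∈ univ.powersetCard k,
        (1 / ((k + 1 : ℕ) : ℝ)) * ((if T ⊆ B then wt w B else 0) * av w F f T) := by
      intro B
      rw [← mul_assoc, mul_comm (wt w B), mul_assoc, Finset.mul_sum, Finset.mul_sum]
      refine Finset.sum_congr rfl fun T _ => ?_
      by_cases h : T ⊆ B
      · rw [if_pos h, if_pos h]
      · rw [if_neg h, if_neg h]; ring
    rw [Finset.sum_congr rfl fun B _ => e1 B, Finset.sum_comm]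
    refine Finset.sum_congr rfl fun T _ => ?_
    rw [← Finset.mul_sum, ← Finset.sum_mul]
  rw [h1]
  simp only [av_mul hw]
  rw [sum_S1_up w hU]
  have : ((k + 1 : ℕ) : ℝ) ≠ 0 := by positivity
  field_simp

/-- The operator fixes the constants. -/
theorem Pop_const {w : α → ℝ} (hw : ∀ a, 0 < w a) {F : Finset (Finset α)} {k : ℕ}
    (hU : Unif F (k + 1)) (c : ℝ) {B : Finset α} (hB : B ∈ F) :
    Pop w F k (fun _ => c) B = c := by
  unfold Pop
  have : ∀ T ∈ (univ : Finset α).powersetCard k, (if T ⊆ B then av w F (fun _ => c) T else 0) =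
      if T ⊆ B then c else 0 := by
    intro T _
    by_cases h : T ⊆ B
    · rw [if_pos h, if_pos h]
      unfold av S1
      rw [← Finset.sum_mul]
      change Z w (up F T) * c / Z w (up F T) = c
      have := (Z_up_pos hw hB h).ne'
      field_simp
    · rw [if_neg h, if_neg h]
  rw [Finset.sum_congr rfl this, sum_sub_card (hU B hB)]
  have : ((k + 1 : ℕ) : ℝ) ≠ 0 := by positivity
  field_simp

theorem Pop_sub (w : α → ℝ) (F : Finset (Finset α)) (k : ℕ) (f g : Finset α → ℝ)
    (B : Finset α) : Pop w F k (fun C => f C - g C) B = Pop w F k f B - Pop w F k g B := by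
  unfold Pop
  rw [← mul_sub, ← Finset.sum_sub_distrib]
  congr 1
  refine Finset.sum_congr rfl fun T _ => ?_
  by_cases h : T ⊆ B
  · rw [if_pos h, if_pos h, if_pos h]
    unfold av S1
    rw [← sub_div, ← Finset.sum_sub_distrib]
    congr 1
    exact Finset.sum_congr rfl fun C _ => by ring
  · rw [if_neg h, if_neg h, if_neg h, sub_zero]

/-- Contraction of the variance. -/
theorem S2_Pop {w : α → ℝ} (hw : ∀ a, 0 < w a) {F : Finset (Finset α)} {k : ℕ}
    (hE : Exch F) (hU : Unif F (k + 1)) (f : Finset α → ℝ) (h0 : S1 w F f = 0) :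
    S2 w F (Pop w F k f) ≤ (1 - 1 / ((k + 1 : ℕ) : ℝ)) * S2 w F f := by
  set r : ℝ := ((k + 1 : ℕ) : ℝ) with hr
  have hr0 : 0 < r := by rw [hr]; positivity
  have hJ : ∀ B ∈ F, Pop w F k f B ^ 2 ≤
      (1 / r) * ∑ T ∈ univ.powersetCard k, if T ⊆ B then av w F f T ^ 2 else 0 := by
    intro B hB
    unfold Pop
    rw [← sum_erase (hU B hB) (fun T => av w F f T), ← sum_erase (hU B hB)
      (fun T => av w F f T ^ 2)]
    have h1 := sq_sum_le_card_mul_sum_sq (s := B) (f := fun x => av w F f (B.erase x))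
    rw [hU B hB] at h1
    rw [mul_pow, ← hr]
    rw [← hr] at h1
    calc (1 / r) ^ 2 * (∑ x ∈ B, av w F f (B.erase x)) ^ 2
        ≤ (1 / r) ^ 2 * (r * ∑ x ∈ B, av w F f (B.erase x) ^ 2) :=
          mul_le_mul_of_nonneg_left h1 (by positivity)
      _ = _ := by field_simp
  have h2 : S2 w F (Pop w F k f) ≤ (1 / r) *
      ∑ T ∈ univ.powersetCard k, S1 w (up F T) f ^ 2 / Z w (up F T) := by
    calc S2 w F (Pop w F k f) ≤ ∑ B ∈ F, wt w B * ((1 / r) *
          ∑ T ∈ univ.powersetCard k, if T ⊆ B then av w F f T ^ 2 else 0) :=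
          Finset.sum_le_sum fun B hB => mul_le_mul_of_nonneg_left (hJ B hB) (wt_pos hw B).le
      _ = (1 / r) * ∑ T ∈ univ.powersetCard k, Z w (up F T) * av w F f T ^ 2 := by
          rw [Finset.mul_sum]
          simp only [Z_up]
          have e1 : ∀ B, wt w B * ((1 / r) * ∑ T ∈ univ.powersetCard k,
              if T ⊆ B then av w F f T ^ 2 else 0) = ∑ T ∈ univ.powersetCard k,
              (1 / r) * ((if T ⊆ B then wt w B else 0) * av w F f T ^ 2) := by
            intro B
            rw [← mul_assoc, mul_comm (wt w B), mul_assoc, Finset.mul_sum, Finset.mul_sum]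
            refine Finset.sum_congr rfl fun T _ => ?_
            by_cases h : T ⊆ B
            · rw [if_pos h, if_pos h]
            · rw [if_neg h, if_neg h]; ring
          rw [Finset.sum_congr rfl fun B _ => e1 B, Finset.sum_comm]
          refine Finset.sum_congr rfl fun T _ => ?_
          rw [← Finset.mul_sum, ← Finset.sum_mul]
      _ = _ := by
          congr 1
          refine Finset.sum_congr rfl fun T _ => ?_
          rw [pow_two, ← mul_assoc, av_mul hw]
          unfold av
          ring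
  have h3 := poincare hw k F hE hU f
  have h4 : ∑ T ∈ univ.powersetCard k, W w (up F T) f = r * S2 w F f -
      ∑ T ∈ univ.powersetCard k, S1 w (up F T) f ^ 2 / Z w (up F T) := by
    unfold W
    rw [Finset.sum_sub_distrib, sum_S2_up w hU]
  rw [h4] at h3
  have h5 : W w F f = S2 w F f := by
    unfold W
    rw [h0]; simp
  rw [h5] at h3
  calc S2 w F (Pop w F k f) ≤ (1 / r) *
      ∑ T ∈ univ.powersetCard k, S1 w (up F T) f ^ 2 / Z w (up F T) := h2
    _ ≤ (1 / r) * (r * S2 w F f - S2 w F f) :=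
        mul_le_mul_of_nonneg_left (by linarith) (by positivity)
    _ = _ := by field_simp

/-- The density of the walk evolves by the operator. -/
theorem walk_succ {w : α → ℝ} (hw : ∀ a, 0 < w a) {F : Finset (Finset α)} {k : ℕ}
    (hU : Unif F (k + 1)) (B₀ : Finset α) (m : ℕ) {B : Finset α} (hB : B ∈ F) :
    walk w F (k + 1) B₀ (m + 1) B / wt w B =
      Pop w F k (fun C => walk w F (k + 1) B₀ m C / wt w C) B := by
  have h1 : walk w F (k + 1) B₀ (m + 1) B = ∑ C ∈ F, walk w F (k + 1) B₀ m C *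
      step w F (k + 1) C B := rfl
  rw [h1]
  have h2 : ∀ C ∈ F, walk w F (k + 1) B₀ m C * step w F (k + 1) C B =
      wt w B * ∑ T ∈ univ.powersetCard k, (1 / ((k + 1 : ℕ) : ℝ)) *
        (if T ⊆ B then (if T ⊆ C then walk w F (k + 1) B₀ m C else 0) / Z w (up F T) else 0) := by
    intro C hC
    rw [step_eq w F (hU C hC) hB, Finset.mul_sum, ← mul_assoc, mul_comm _ (wt w B), mul_assoc,
      Finset.mul_sum]
    congr 1
    refine Finset.sum_congr rfl fun T _ => ?_
    by_cases h1 : T ⊆ B <;> by_cases h2 : T ⊆ C <;> simp [h1, h2]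
    ring
  rw [Finset.sum_congr rfl h2, ← Finset.mul_sum, mul_comm, mul_div_assoc,
    div_self (wt_pos hw B).ne', mul_one, Finset.sum_comm]
  unfold Pop
  rw [Finset.mul_sum]
  refine Finset.sum_congr rfl fun T _ => ?_
  rw [← Finset.mul_sum]
  congr 1
  by_cases h : T ⊆ B
  · simp only [if_pos h]
    unfold av
    rw [S1_up, ← Finset.sum_div]
    congr 1
    refine Finset.sum_congr rfl fun C _ => ?_
    by_cases h' : T ⊆ C
    · rw [if_pos h', if_pos h']
      have := (wt_pos hw C).ne'
      field_simp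
    · rw [if_neg h', if_neg h']
  · simp only [if_neg h]
    simp

/-- The mixing time of the walk. -/
theorem mixing {w : α → ℝ} (hw : ∀ a, 0 < w a) {F : Finset (Finset α)} {k : ℕ}
    (hE : Exch F) (hU : Unif F (k + 1)) {B₀ : Finset α} (hB₀ : B₀ ∈ F) (m : ℕ) :
    (∑ B ∈ F, |walk w F (k + 1) B₀ m B - wt w B / Z w F|) ^ 2 ≤
      (1 - 1 / ((k + 1 : ℕ) : ℝ)) ^ m * (Z w F / wt w B₀) := by
  have hZ : 0 < Z w F := Z_pos hw ⟨B₀, hB₀⟩
  set h : ℕ → Finset α → ℝ := fun m B => walk w F (k + 1) B₀ m B / wt w B with hh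
  set u : ℕ → Finset α → ℝ := fun m B => h m B - 1 / Z w F with hu
  have hr1 : (0 : ℝ) ≤ 1 - 1 / ((k + 1 : ℕ) : ℝ) := by
    rw [sub_nonneg, div_le_one (by positivity)]
    push_cast
    have : (0 : ℝ) ≤ k := by positivity
    linarith
  have hone : S1 w F (fun _ => 1 / Z w F) = 1 := by
    unfold S1
    rw [← Finset.sum_mul]
    change Z w F * (1 / Z w F) = 1
    field_simp
  have hsub : ∀ f g : Finset α → ℝ, S1 w F (fun B => f B - g B) = S1 w F f - S1 w F g := by
    intro f g
    unfold S1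
    rw [← Finset.sum_sub_distrib]
    exact Finset.sum_congr rfl fun B _ => by ring
  have hcongr1 : ∀ f g : Finset α → ℝ, (∀ B ∈ F, f B = g B) → S1 w F f = S1 w F g := by
    intro f g hfg
    unfold S1
    exact Finset.sum_congr rfl fun B hB => by rw [hfg B hB]
  have hcongr2 : ∀ f g : Finset α → ℝ, (∀ B ∈ F, f B = g B) → S2 w F f = S2 w F g := by
    intro f g hfg
    unfold S2
    exact Finset.sum_congr rfl fun B hB => by rw [hfg B hB]
  have hstep : ∀ m, ∀ B ∈ F, u (m + 1) B = Pop w F k (u m) B := by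
    intro m B hB
    rw [hu]
    simp only
    rw [Pop_sub, Pop_const hw hU _ hB]
    congr 1
    exact walk_succ hw hU B₀ m hB
  have hS1 : ∀ m, S1 w F (u m) = 0 := by
    intro m
    induction m with
    | zero =>
      rw [hu]
      simp only
      rw [hsub, hone]
      unfold S1
      rw [Finset.sum_eq_single B₀]
      · rw [hh]
        simp only [walk, if_true]
        have := (wt_pos hw B₀).ne'
        field_simp
        ring
      · intro B _ hne
        rw [hh]
        simp [walk, hne]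
      · intro h; exact absurd hB₀ h
    | succ m ih =>
      rw [hcongr1 _ _ (hstep m), S1_Pop hw hU, ih]
  have hS2 : ∀ m, S2 w F (u m) ≤ (1 - 1 / ((k + 1 : ℕ) : ℝ)) ^ m * (1 / wt w B₀) := by
    intro m
    induction m with
    | zero =>
      rw [pow_zero, one_mul]
      have h1 : S2 w F (u 0) = S2 w F (h 0) - 2 / Z w F * S1 w F (h 0) +
          (1 / Z w F) ^ 2 * Z w F := by
        unfold S2 S1 Z
        rw [Finset.mul_sum, Finset.mul_sum, ← Finset.sum_sub_distrib, ← Finset.sum_add_distrib]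
        refine Finset.sum_congr rfl fun B _ => ?_
        rw [hu]
        change wt w B * (h 0 B - 1 / Z w F) ^ 2 = wt w B * h 0 B ^ 2 -
          2 / Z w F * (wt w B * h 0 B) + (1 / Z w F) ^ 2 * wt w B
        ring
      have h2 : S1 w F (h 0) = 1 := by
        have := hS1 0
        rw [hu] at this
        simp only at this
        rw [hsub, hone] at this
        linarith
      have h3 : S2 w F (h 0) = 1 / wt w B₀ := by
        unfold S2
        rw [Finset.sum_eq_single B₀]
        · rw [hh]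
          simp only [walk, if_true]
          have := (wt_pos hw B₀).ne'
          field_simp
        · intro B _ hne
          rw [hh]
          simp [walk, hne]
        · intro h; exact absurd hB₀ h
      rw [h1, h2, h3]
      have h4 : 0 < 1 / Z w F := by positivity
      have h5 : (1 / Z w F) ^ 2 * Z w F = 1 / Z w F := by field_simp
      rw [h5]
      have h6 : 2 / Z w F * 1 = 2 * (1 / Z w F) := by ring
      rw [h6]
      linarith
    | succ m ih =>
      rw [hcongr2 _ _ (hstep m)]
      calc S2 w F (Pop w F k (u m)) ≤ (1 - 1 / ((k + 1 : ℕ) : ℝ)) * S2 w F (u m) :=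
            S2_Pop hw hE hU _ (hS1 m)
        _ ≤ (1 - 1 / ((k + 1 : ℕ) : ℝ)) * ((1 - 1 / ((k + 1 : ℕ) : ℝ)) ^ m * (1 / wt w B₀)) :=
            mul_le_mul_of_nonneg_left ih hr1
        _ = _ := by rw [pow_succ]; ring
  have habs : ∀ B ∈ F, |walk w F (k + 1) B₀ m B - wt w B / Z w F| = wt w B * |u m B| := by
    intro B _
    have hwt := wt_pos hw B
    rw [← abs_of_pos hwt, ← abs_mul, abs_of_pos hwt]
    congr 1
    rw [hu]
    simp only [hh]
    field_simp
  rw [Finset.sum_congr rfl habs]
  calc (∑ B ∈ F, wt w B * |u m B|) ^ 2 ≤ (∑ B ∈ F, wt w B) * ∑ B ∈ F, wt w B * u m B ^ 2 := by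
        refine Finset.sum_sq_le_sum_mul_sum_of_sq_le_mul F (fun B _ => (wt_pos hw B).le)
          (fun B _ => mul_nonneg (wt_pos hw B).le (sq_nonneg _)) (fun B _ => le_of_eq ?_)
        rw [mul_pow, sq_abs]; ring
    _ = Z w F * S2 w F (u m) := rfl
    _ ≤ Z w F * ((1 - 1 / ((k + 1 : ℕ) : ℝ)) ^ m * (1 / wt w B₀)) :=
        mul_le_mul_of_nonneg_left (hS2 m) hZ.le
    _ = _ := by ring

end Pool.Agent.Lib.MP_8b1b48_lc.Mix
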