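import Pool.Agent.Lib.MP_8b1b48_lc.Mix5
import Pool.Agent.Lib.MP_8b1b48_lc.Est

/-!
Estimating the total weight of an exchange family from independent runs of the basis exchange walk.
-/

set_option linter.unusedSectionVars false

namespace Pool.Agent.Lib.MP_8b1b48_lc.Mix

open Finset

variable {α : Type} [Fintype α] [DecidableEq α]

theorem tw_pos {w : α → ℝ} (hw : ∀ a, 0 < w a) (B₀ : Finset α) {τ : ℝ} (hτ : 0 < τ) :
    ∀ a, 0 < tw w B₀ τ a := by
  intro a
  unfold tw
  have := hw a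
  split_ifs
  · exact this
  · positivity

theorem wt_tw (w : α → ℝ) (B₀ : Finset α) (τ : ℝ) (B : Finset α) :
    wt (tw w B₀ τ) B = wt w B * τ ^ (B \ B₀).card := by
  unfold wt tw
  have h : ∀ b, (if b ∈ B₀ then w b else τ * w b) = w b * (if b ∈ B₀ then 1 else τ) := by
    intro b
    by_cases hb : b ∈ B₀
    · rw [if_pos hb, if_pos hb, mul_one]
    · rw [if_neg hb, if_neg hb, mul_comm]
  simp only [h]
  rw [Finset.prod_mul_distrib]
  congr 1
  rw [Finset.prod_ite, Finset.prod_const_one, one_mul, Finset.prod_const]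
  congr 2
  ext b; simp [Finset.mem_sdiff]

/-- The one step distribution has total mass one. -/
theorem sum_step {w : α → ℝ} (hw : ∀ a, 0 < w a) {F : Finset (Finset α)} {k : ℕ}
    (hU : Unif F (k + 1)) {B : Finset α} (hB : B ∈ F) : ∑ B' ∈ F, step w F (k + 1) B B' = 1 := by
  unfold step
  rw [← Finset.mul_sum, Finset.sum_comm]
  have h : ∀ x ∈ B, ∑ B' ∈ F, (if B' ∈ up F (B.erase x) then wt w B' / Z w (up F (B.erase x))
      else 0) = 1 := by
    intro x _
    rw [← Finset.sum_filter]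
    have h1 : F.filter (fun B' => B' ∈ up F (B.erase x)) = up F (B.erase x) := by
      ext C
      unfold up
      rw [Finset.mem_filter, Finset.mem_filter]
      exact ⟨fun h => h.2, fun h => ⟨h.1, h⟩⟩
    rw [h1, ← Finset.sum_div]
    exact div_self (Z_up_pos hw hB (Finset.erase_subset _ _)).ne'
  rw [Finset.sum_congr rfl h, Finset.sum_const, hU B hB, nsmul_eq_mul, mul_one]
  have : ((k + 1 : ℕ) : ℝ) ≠ 0 := by positivity
  field_simp

theorem walk_nonneg {w : α → ℝ} (hw : ∀ a, 0 < w a) (F : Finset (Finset α)) (r : ℕ)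
    (B₀ : Finset α) (m : ℕ) (B : Finset α) : 0 ≤ walk w F r B₀ m B := by
  induction m generalizing B with
  | zero => unfold walk; split_ifs <;> norm_num
  | succ m ih => exact Finset.sum_nonneg fun C _ => mul_nonneg (ih C) (step_nonneg hw F r C B)

theorem walk_support {w : α → ℝ} {F : Finset (Finset α)} {r : ℕ} {B₀ : Finset α} (hB₀ : B₀ ∈ F)
    (m : ℕ) {B : Finset α} (hB : B ∉ F) : walk w F r B₀ m B = 0 := by
  cases m with
  | zero =>
    unfold walk
    rw [if_neg]
    rintro rfl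
    exact hB hB₀
  | succ m =>
    refine Finset.sum_eq_zero fun C _ => ?_
    have : step w F r C B = 0 := by
      unfold step
      rw [Finset.sum_eq_zero, mul_zero]
      intro x _
      rw [if_neg]
      intro h
      unfold up at h
      exact hB (Finset.mem_filter.1 h).1
    rw [this, mul_zero]

theorem sum_walk {w : α → ℝ} (hw : ∀ a, 0 < w a) {F : Finset (Finset α)} {k : ℕ}
    (hU : Unif F (k + 1)) {B₀ : Finset α} (hB₀ : B₀ ∈ F) (m : ℕ) :
    ∑ B ∈ F, walk w F (k + 1) B₀ m B = 1 := by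
  induction m with
  | zero =>
    unfold walk
    rw [Finset.sum_ite_eq']
    rw [if_pos hB₀]
  | succ m ih =>
    have : ∀ B, walk w F (k + 1) B₀ (m + 1) B =
      ∑ C ∈ F, walk w F (k + 1) B₀ m C * step w F (k + 1) C B := fun B => rfl
    simp only [this]
    rw [Finset.sum_comm]
    calc _ = ∑ C ∈ F, walk w F (k + 1) B₀ m C := by
          refine Finset.sum_congr rfl fun C hC => ?_
          rw [← Finset.mul_sum, sum_step hw hU hC, mul_one]
      _ = 1 := ih

theorem sum_walk_univ {w : α → ℝ} {F : Finset (Finset α)} {r : ℕ} {B₀ : Finset α}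
    (hB₀ : B₀ ∈ F) (m : ℕ) (g : Finset α → ℝ) :
    ∑ B, walk w F r B₀ m B * g B = ∑ B ∈ F, walk w F r B₀ m B * g B := by
  symm
  refine Finset.sum_subset (Finset.subset_univ F) fun B _ hB => ?_
  rw [walk_support hB₀ m hB, zero_mul]

theorem one_sub_pow_ge {x : ℝ} (hx1 : x ≤ 1) (l : ℕ) :
    1 - l * x ≤ (1 - x) ^ l := by
  have := one_add_mul_le_pow (a := -x) (by linarith) l
  calc 1 - l * x = 1 + l * (-x) := by ring
    _ ≤ (1 + -x) ^ l := this
    _ = _ := by rw [← sub_eq_add_neg]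

set_option maxHeartbeats 4000000 in
/-- The estimator is accurate with probability at least `3/4`. -/
theorem estimator {w : α → ℝ} (hw : ∀ a, 0 < w a) {F : Finset (Finset α)} {k : ℕ}
    (hE : Exch F) (hU : Unif F (k + 1)) {B₀ : Finset α} (hB₀ : B₀ ∈ F) {ε : ℝ} (hε : 0 < ε)
    (hε1 : ε ≤ 1) {l M m : ℕ} (hl0 : 0 < l)
    (hl : 8 * (Z w F / wt w B₀) ≤ ε * (1 + 1 / ((k + 1 : ℕ) : ℝ)) ^ l)
    (hM : 1152 * (l : ℝ) ≤ M * ε ^ 2)
    (hm : (1 - 1 / ((k + 1 : ℕ) : ℝ)) ^ m * (Z w F / wt w B₀) ≤ (ε / (24 * l)) ^ 2) :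
    3 / 4 ≤ ∑ ω : Fin l → Fin M → Finset α,
      if |estimate w (k + 1) B₀ ω - Z w F| ≤ ε * Z w F then runs w F (k + 1) B₀ m ω else 0 := by
  set r : ℝ := ((k + 1 : ℕ) : ℝ) with hr
  have hr1 : 1 ≤ r := by rw [hr]; push_cast; linarith [Nat.cast_nonneg (α := ℝ) k]
  have hr0 : 0 < r := by linarith
  set c : ℝ := 1 + 1 / r with hc
  have hc1 : 1 < c := by rw [hc]; have : 0 < 1 / r := by positivity
                         linarith
  have hc0 : 0 < c := by linarith
  have hZ : 0 < Z w F := Z_pos hw ⟨B₀, hB₀⟩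
  have hwB := wt_pos hw B₀
  have hlr : (0 : ℝ) < l := by exact_mod_cast hl0
  have hl1 : (1 : ℝ) ≤ l := by exact_mod_cast hl0
  have hMr : (0 : ℝ) < M := by
    by_contra hcon
    have h1 : (M : ℝ) ≤ 0 := not_lt.1 hcon
    nlinarith [sq_nonneg ε, mul_nonneg (sub_nonneg.2 h1) (sq_nonneg ε)]
  have hM0 : 0 < M := by exact_mod_cast hMr
  -- the partition functions
  set τ : ℕ → ℝ := fun i => c⁻¹ ^ i with hτ
  have hτ0 : ∀ i, 0 < τ i := fun i => by rw [hτ]; positivity
  have hτ1 : ∀ i, τ i ≤ 1 := fun i => pow_le_one₀ (by positivity) (inv_le_one_of_one_le₀ hc1.le)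
  set ζ : ℕ → ℝ := fun i => Z (tw w B₀ (τ i)) F with hζ
  have hζ0 : ∀ i, 0 < ζ i := fun i => Z_pos (tw_pos hw B₀ (hτ0 i)) ⟨B₀, hB₀⟩
  have hζs : ∀ i, ∑ B ∈ F, wt (tw w B₀ (τ (i + 1))) B * stat (k + 1) B₀ B = ζ i := by
    intro i
    rw [hζ]
    unfold Z
    refine Finset.sum_congr rfl fun B _ => ?_
    rw [wt_tw, wt_tw]
    unfold stat
    rw [← hr, ← hc, hτ]
    simp only
    rw [mul_assoc, ← mul_pow, pow_succ, mul_assoc, inv_mul_cancel₀ hc0.ne', mul_one]
  have hζ00 : ζ 0 = Z w F := by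
    rw [hζ, hτ]
    simp only [pow_zero]
    unfold Z
    exact Finset.sum_congr rfl fun B _ => by rw [wt_tw, one_pow, mul_one]
  have hζle : ∀ i, ζ i ≤ Z w F := by
    intro i
    rw [hζ]
    unfold Z
    refine Finset.sum_le_sum fun B _ => ?_
    rw [wt_tw]
    exact mul_le_of_le_one_right (wt_pos hw B).le (pow_le_one₀ (hτ0 i).le (hτ1 i))
  have hwtB : ∀ i, wt (tw w B₀ (τ i)) B₀ = wt w B₀ := by
    intro i; rw [wt_tw]; simp
  have hζl : wt w B₀ ≤ ζ l := by
    rw [hζ]
    unfold Z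
    rw [← hwtB l]
    exact Finset.single_le_sum (f := fun B => wt (tw w B₀ (τ l)) B)
      (fun B _ => (wt_pos (tw_pos hw B₀ (hτ0 l)) B).le) hB₀
  have hζu : ζ l ≤ wt w B₀ * (1 + ε / 8) := by
    have h1 : ζ l ≤ wt w B₀ + τ l * Z w F := by
      have e1 : ζ l = ∑ B ∈ F, wt (tw w B₀ (τ l)) B := rfl
      have e2 : Z w F = ∑ B ∈ F, wt w B := rfl
      rw [e1, e2, ← Finset.add_sum_erase F (fun B => wt (tw w B₀ (τ l)) B) hB₀, hwtB l]
      refine add_le_add le_rfl ?_
      calc ∑ B ∈ F.erase B₀, wt (tw w B₀ (τ l)) B ≤ ∑ B ∈ F.erase B₀, τ l * wt w B := by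
            refine Finset.sum_le_sum fun B hB => ?_
            rw [Finset.mem_erase] at hB
            rw [wt_tw, mul_comm]
            refine mul_le_mul_of_nonneg_right ?_ (wt_pos hw B).le
            have hne : (B \ B₀).card ≠ 0 := by
              intro h0
              rw [Finset.card_eq_zero, Finset.sdiff_eq_empty_iff_subset] at h0
              exact hB.1 (Finset.eq_of_subset_of_card_le h0
                (by rw [hU B hB.2, hU B₀ hB₀]))
            exact pow_le_of_le_one (hτ0 l).le (hτ1 l) hne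
        _ ≤ ∑ B ∈ F, τ l * wt w B :=
            Finset.sum_le_sum_of_subset_of_nonneg (Finset.erase_subset _ _)
              (fun B _ _ => mul_nonneg (hτ0 l).le (wt_pos hw B).le)
        _ = τ l * ∑ B ∈ F, wt w B := by rw [Finset.mul_sum]
    have h2 : τ l * Z w F ≤ wt w B₀ * (ε / 8) := by
      have h3 : τ l * c ^ l = 1 := by
        rw [hτ]
        simp only
        rw [← mul_pow, inv_mul_cancel₀ hc0.ne', one_pow]
      have h4 : 8 * (Z w F / wt w B₀) * (wt w B₀ * τ l) ≤ ε * c ^ l * (wt w B₀ * τ l) :=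
        mul_le_mul_of_nonneg_right hl (by have := hτ0 l; positivity)
      have h5 : 8 * (Z w F / wt w B₀) * (wt w B₀ * τ l) = 8 * (τ l * Z w F) := by
        field_simp
      have h6 : ε * c ^ l * (wt w B₀ * τ l) = ε * wt w B₀ := by
        calc _ = ε * wt w B₀ * (τ l * c ^ l) := by ring
          _ = _ := by rw [h3, mul_one]
      rw [h5, h6] at h4
      linarith
    calc ζ l ≤ wt w B₀ + τ l * Z w F := h1
      _ ≤ wt w B₀ + wt w B₀ * (ε / 8) := by linarith
      _ = _ := by ring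
  -- the statistic
  have hY1 : ∀ B, 1 ≤ stat (k + 1) B₀ B := by
    intro B
    unfold stat
    rw [← hr, ← hc]
    exact one_le_pow₀ hc1.le
  have hY3 : ∀ B ∈ F, stat (k + 1) B₀ B ≤ 3 := by
    intro B hB
    unfold stat
    rw [← hr, ← hc]
    have h1 : (B \ B₀).card ≤ k + 1 := by
      rw [← hU B hB]; exact Finset.card_le_card Finset.sdiff_subset
    calc c ^ (B \ B₀).card ≤ c ^ (k + 1) := pow_le_pow_right₀ hc1.le h1
      _ ≤ Real.exp 1 := by
          have h2 : c ≤ Real.exp (1 / r) := by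
            rw [hc, add_comm]; exact Real.add_one_le_exp _
          calc c ^ (k + 1) ≤ Real.exp (1 / r) ^ (k + 1) := pow_le_pow_left₀ hc0.le h2 _
            _ = Real.exp 1 := by
                rw [← Real.exp_nat_mul, ← hr]
                congr 1
                field_simp
      _ ≤ 3 := by have := Real.exp_one_lt_d9; linarith
  set q : Fin l → Finset α → ℝ := fun i => walk (stageW w (k + 1) B₀ i) F (k + 1) B₀ m with hq
  have hst : ∀ i : ℕ, stageW w (k + 1) B₀ i = tw w B₀ (τ (i + 1)) := by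
    intro i
    unfold stageW
    rw [← hr, ← hc]
  have hstp : ∀ i : ℕ, ∀ a, 0 < stageW w (k + 1) B₀ i a := by
    intro i
    rw [hst]
    exact tw_pos hw B₀ (hτ0 _)
  have hq0 : ∀ i b, 0 ≤ q i b := fun i b => walk_nonneg (hstp i) F _ B₀ m b
  have hq1 : ∀ i, ∑ b, q i b = 1 := by
    intro i
    have h1 := sum_walk_univ (w := stageW w (k + 1) B₀ i) (r := k + 1) hB₀ m (fun _ => 1)
    simp only [mul_one] at h1
    rw [hq]
    simp only
    rw [h1]
    exact sum_walk (hstp i) hU hB₀ m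
  have hqF : ∀ i (g : Finset α → ℝ), ∑ b, q i b * g b = ∑ b ∈ F, q i b * g b := fun i g =>
    sum_walk_univ hB₀ m g
  have hqF1 : ∀ i, ∑ b ∈ F, q i b = 1 := fun i => sum_walk (hstp i) hU hB₀ m
  have hy : ∀ i, 1 ≤ ∑ b, q i b * stat (k + 1) B₀ b := by
    intro i
    calc (1 : ℝ) = ∑ b, q i b * 1 := by simp only [mul_one]; exact (hq1 i).symm
      _ ≤ _ := Finset.sum_le_sum fun b _ => mul_le_mul_of_nonneg_left (hY1 b) (hq0 i b)
  have hs : ∀ i, ∑ b, q i b * stat (k + 1) B₀ b ^ 2 ≤ 9 := by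
    intro i
    rw [hqF i (fun b => stat (k + 1) B₀ b ^ 2)]
    calc ∑ b ∈ F, q i b * stat (k + 1) B₀ b ^ 2 ≤ ∑ b ∈ F, q i b * 9 := by
          refine Finset.sum_le_sum fun b hb => mul_le_mul_of_nonneg_left ?_ (hq0 i b)
          have h1 := hY1 b
          have h3 := hY3 b hb
          nlinarith
      _ = 9 := by rw [← Finset.sum_mul, hqF1, one_mul]
  have hsmall : (l : ℝ) * (9 / M) ≤ ε ^ 2 / 128 := by
    rw [mul_div_assoc', div_le_div_iff₀ hMr (by norm_num)]
    nlinarith
  have hε2 : ε ^ 2 ≤ 1 := pow_le_one₀ hε.le hε1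
  have key := Est.product_estimator hM0 q hq0 hq1 (stat (k + 1) B₀) hy hs (ε / 4) (by positivity)
    (by linarith)
  -- the means
  have hd : ∀ i : Fin l, (∑ B ∈ F, |q i B - wt (tw w B₀ (τ (i + 1))) B / ζ (i + 1)|) ≤
      ε / (24 * l) := by
    intro i
    have h1 := mixing (hstp i) hE hU hB₀ m
    rw [hst] at h1
    have h2 : Z (tw w B₀ (τ (↑i + 1))) F / wt (tw w B₀ (τ (↑i + 1))) B₀ ≤
        Z w F / wt w B₀ := by
      rw [hwtB]
      exact div_le_div_of_nonneg_right (hζle _) hwB.le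
    have h3 : (0 : ℝ) ≤ 1 - 1 / ((k + 1 : ℕ) : ℝ) := by
      rw [← hr, sub_nonneg, div_le_one hr0]; exact hr1
    have h4 : (∑ B ∈ F, |q i B - wt (tw w B₀ (τ (i + 1))) B / ζ (i + 1)|) ^ 2 ≤
        (ε / (24 * l)) ^ 2 := by
      rw [hq]
      simp only
      rw [hst]
      refine h1.trans (le_trans ?_ hm)
      exact mul_le_mul_of_nonneg_left h2 (pow_nonneg h3 m)
    exact abs_le_of_sq_le_sq' h4 (by positivity) |>.2
  set z : Fin l → ℝ := fun i => ζ i / ζ (i + 1) with hz
  have hz1 : ∀ i : Fin l, ∑ B ∈ F, wt (tw w B₀ (τ (i + 1))) B / ζ (i + 1) *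
      stat (k + 1) B₀ B = z i := by
    intro i
    rw [hz]
    simp only
    rw [← hζs i, Finset.sum_div]
    exact Finset.sum_congr rfl fun B _ => by ring
  have hzge : ∀ i, 1 ≤ z i := by
    intro i
    rw [← hz1 i]
    calc (1 : ℝ) = ∑ B ∈ F, wt (tw w B₀ (τ (i + 1))) B / ζ (i + 1) * 1 := by
          simp only [mul_one]
          rw [← Finset.sum_div]
          exact (div_self (hζ0 _).ne').symm
      _ ≤ _ := Finset.sum_le_sum fun B _ => mul_le_mul_of_nonneg_left (hY1 B)
          (div_nonneg (wt_pos (tw_pos hw B₀ (hτ0 _)) B).le (hζ0 _).le)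
  have hyz : ∀ i, |∑ b, q i b * stat (k + 1) B₀ b - z i| ≤ ε / (8 * l) * z i := by
    intro i
    rw [hqF, ← hz1 i, ← Finset.sum_sub_distrib]
    calc |∑ b ∈ F, (q i b * stat (k + 1) B₀ b - wt (tw w B₀ (τ (i + 1))) b / ζ (i + 1) *
          stat (k + 1) B₀ b)|
        ≤ ∑ b ∈ F, |q i b * stat (k + 1) B₀ b - wt (tw w B₀ (τ (i + 1))) b / ζ (i + 1) *
          stat (k + 1) B₀ b| := Finset.abs_sum_le_sum_abs _ _
      _ ≤ ∑ b ∈ F, |q i b - wt (tw w B₀ (τ (i + 1))) b / ζ (i + 1)| * 3 := by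
          refine Finset.sum_le_sum fun b hb => ?_
          rw [← sub_mul, abs_mul, abs_of_pos (lt_of_lt_of_le one_pos (hY1 b))]
          exact mul_le_mul_of_nonneg_left (hY3 b hb) (abs_nonneg _)
      _ ≤ ε / (24 * l) * 3 := by
          rw [← Finset.sum_mul]
          exact mul_le_mul_of_nonneg_right (hd i) (by norm_num)
      _ = ε / (8 * l) * 1 := by field_simp; norm_num
      _ ≤ _ := mul_le_mul_of_nonneg_left (by rw [hz1]; exact hzge i) (by positivity)
  have hprodz : ∏ i, z i = Z w F / ζ l := by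
    rw [hz, ← hζ00]
    have : ∀ n : ℕ, ∏ i : Fin n, ζ (i : ℕ) / ζ ((i : ℕ) + 1) = ζ 0 / ζ n := by
      intro n
      induction n with
      | zero => simp [(hζ0 0).ne']
      | succ n ih =>
        rw [Fin.prod_univ_castSucc]
        simp only [Fin.val_castSucc, Fin.val_last]
        rw [ih]
        have h1 := (hζ0 n).ne'
        have h2 := (hζ0 (n + 1)).ne'
        field_simp
    exact this l
  set y : Fin l → ℝ := fun i => ∑ b, q i b * stat (k + 1) B₀ b with hydef
  set δ : ℝ := ε / (8 * l) with hδ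
  have hδ0 : 0 ≤ δ := by rw [hδ]; positivity
  have hlδ : (l : ℝ) * δ = ε / 8 := by rw [hδ]; field_simp
  have hδ1 : δ ≤ 1 := by
    have : δ ≤ l * δ := le_mul_of_one_le_left hδ0 hl1
    rw [hlδ] at this; linarith
  have hpz : 0 < ∏ i, z i := Finset.prod_pos fun i _ => lt_of_lt_of_le one_pos (hzge i)
  have hup : ∏ i, y i ≤ (1 + ε / 4) * ∏ i, z i := by
    calc ∏ i, y i ≤ ∏ i, ((1 + δ) * z i) := by
          refine Finset.prod_le_prod (fun i _ => le_trans zero_le_one (hy i)) fun i _ => ?_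
          have := (abs_le.1 (hyz i)).2
          rw [hydef]; simp only; linarith
      _ = (1 + δ) ^ l * ∏ i, z i := by
          rw [Finset.prod_mul_distrib, Finset.prod_const, Finset.card_univ, Fintype.card_fin]
      _ ≤ (1 + ε / 4) * ∏ i, z i := by
          refine mul_le_mul_of_nonneg_right ?_ hpz.le
          have := Est.one_add_pow_le hδ0 l (by rw [hlδ]; linarith)
          rw [hlδ] at this
          linarith
  have hlow : (1 - ε / 8) * ∏ i, z i ≤ ∏ i, y i := by
    calc (1 - ε / 8) * ∏ i, z i ≤ (1 - δ) ^ l * ∏ i, z i := by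
          refine mul_le_mul_of_nonneg_right ?_ hpz.le
          have := one_sub_pow_ge hδ1 l
          rw [hlδ] at this
          exact this
      _ = ∏ i, ((1 - δ) * z i) := by
          rw [Finset.prod_mul_distrib, Finset.prod_const, Finset.card_univ, Fintype.card_fin]
      _ ≤ ∏ i, y i := by
          refine Finset.prod_le_prod (fun i _ => ?_) fun i _ => ?_
          · have := hzge i
            exact mul_nonneg (by linarith) (by linarith)
          · have := (abs_le.1 (hyz i)).1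
            rw [hydef]; simp only; linarith
  -- the expected value
  set P := ∏ i, y i with hP
  have hEXu : wt w B₀ * P ≤ (1 + ε / 4) * Z w F := by
    calc wt w B₀ * P ≤ wt w B₀ * ((1 + ε / 4) * ∏ i, z i) :=
          mul_le_mul_of_nonneg_left hup hwB.le
      _ = (1 + ε / 4) * Z w F * (wt w B₀ / ζ l) := by rw [hprodz]; ring
      _ ≤ (1 + ε / 4) * Z w F * 1 := by
          refine mul_le_mul_of_nonneg_left ?_ (by positivity)
          rw [div_le_one (hζ0 l)]; exact hζl
      _ = _ := by ring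
  have hEXl : (1 - ε / 4) * Z w F ≤ wt w B₀ * P := by
    have h1 : 1 - ε / 8 ≤ wt w B₀ / ζ l := by
      rw [le_div_iff₀ (hζ0 l)]
      calc (1 - ε / 8) * ζ l ≤ (1 - ε / 8) * (wt w B₀ * (1 + ε / 8)) :=
            mul_le_mul_of_nonneg_left hζu (by linarith)
        _ = wt w B₀ * (1 - (ε / 8) ^ 2) := by ring
        _ ≤ wt w B₀ * 1 := mul_le_mul_of_nonneg_left (by nlinarith [sq_nonneg (ε / 8)]) hwB.le
        _ = _ := mul_one _
    calc (1 - ε / 4) * Z w F ≤ (1 - ε / 8) * (1 - ε / 8) * Z w F := by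
          refine mul_le_mul_of_nonneg_right ?_ hZ.le
          nlinarith [sq_nonneg (ε / 8)]
      _ ≤ (1 - ε / 8) * (wt w B₀ / ζ l) * Z w F := by
          refine mul_le_mul_of_nonneg_right ?_ hZ.le
          exact mul_le_mul_of_nonneg_left h1 (by linarith)
      _ = wt w B₀ * ((1 - ε / 8) * ∏ i, z i) := by rw [hprodz]; ring
      _ ≤ _ := mul_le_mul_of_nonneg_left hlow hwB.le
  have hP0 : 0 < P := Finset.prod_pos fun i _ => lt_of_lt_of_le one_pos (hy i)
  calc (3 : ℝ) / 4 ≤ 1 - 2 * (l * (9 / M)) / (ε / 4) ^ 2 := by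
        have : 2 * (l * (9 / M)) / (ε / 4) ^ 2 ≤ 1 / 4 := by
          rw [div_le_iff₀ (by positivity)]
          nlinarith
        linarith
    _ ≤ _ := key
    _ ≤ _ := by
        refine Finset.sum_le_sum fun ω _ => ?_
        have hrun : Est.prodw q ω = runs w F (k + 1) B₀ m ω := rfl
        have hrun0 : 0 ≤ runs w F (k + 1) B₀ m ω := by
          unfold runs
          exact Finset.prod_nonneg fun i _ => Finset.prod_nonneg fun j _ => hq0 i _
        by_cases h : |Est.prodMean (stat (k + 1) B₀) ω - P| ≤ ε / 4 * P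
        · rw [if_pos h, if_pos, hrun]
          have hest : estimate w (k + 1) B₀ ω = wt w B₀ * Est.prodMean (stat (k + 1) B₀) ω := rfl
          rw [hest]
          set X := Est.prodMean (stat (k + 1) B₀) ω with hX
          rw [abs_le] at h ⊢
          have h1 : wt w B₀ * X ≤ (1 + ε / 4) * (wt w B₀ * P) := by
            calc wt w B₀ * X ≤ wt w B₀ * ((1 + ε / 4) * P) :=
                  mul_le_mul_of_nonneg_left (by linarith [h.2]) hwB.le
              _ = _ := by ring
          have h2 : (1 - ε / 4) * (wt w B₀ * P) ≤ wt w B₀ * X := by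
            calc (1 - ε / 4) * (wt w B₀ * P) = wt w B₀ * ((1 - ε / 4) * P) := by ring
              _ ≤ _ := mul_le_mul_of_nonneg_left (by linarith [h.1]) hwB.le
          have h3 : (1 + ε / 4) * (wt w B₀ * P) ≤ (1 + ε / 4) * ((1 + ε / 4) * Z w F) :=
            mul_le_mul_of_nonneg_left hEXu (by linarith)
          have h4 : (1 - ε / 4) * ((1 - ε / 4) * Z w F) ≤ (1 - ε / 4) * (wt w B₀ * P) :=
            mul_le_mul_of_nonneg_left hEXl (by linarith)
          have h5 : (1 + ε / 4) * ((1 + ε / 4) * Z w F) ≤ (1 + ε) * Z w F := by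
            rw [← mul_assoc]
            exact mul_le_mul_of_nonneg_right (by nlinarith) hZ.le
          have h6 : (1 - ε) * Z w F ≤ (1 - ε / 4) * ((1 - ε / 4) * Z w F) := by
            rw [← mul_assoc]
            exact mul_le_mul_of_nonneg_right (by nlinarith) hZ.le
          constructor <;> linarith
        · rw [if_neg h]
          split_ifs
          · exact hrun0
          · exact le_rfl

end Pool.Agent.Lib.MP_8b1b48_lc.Mix
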