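import Pool.Agent.Lib.MP_8b1b48_lc.Forest

/-!
Interior score vectors (lattice points in the relative interior of the graphical zonotope with edge
multiplicities `b`), and their deletion-contraction rules.
-/

namespace Pool.Agent.Lib.MP_8b1b48_lc

open Finset

variable {W E : Type}

/-- Total multiplicity of the edges of `A` with both ends in `S`. -/
def inside [DecidableEq W] (s t : E → W) (A : Finset E) (b : E → ℤ) (S : Finset W) : ℤ :=
  ∑ e ∈ A, if s e ∈ S ∧ t e ∈ S then b e else 0

open Classical in
/-- `1` if some edge of `A` has exactly one end in `S`, and `0` otherwise. -/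
noncomputable def crossInd (s t : E → W) (A : Finset E) (S : Finset W) : ℤ :=
  if ∃ e ∈ A, ¬ (s e ∈ S ↔ t e ∈ S) then 1 else 0

/-- `d` is an interior score vector of the multigraph with edge set `A` and multiplicities `b`. -/
def IsScore [Fintype W] [DecidableEq W] (s t : E → W) (A : Finset E) (b : E → ℤ) (d : W → ℤ) :
    Prop :=
  ∑ w, d w = ∑ e ∈ A, b e ∧ ∀ S : Finset W, inside s t A b S + crossInd s t A S ≤ ∑ w ∈ S, d w

theorem crossInd_nonneg (s t : E → W) (A : Finset E) (S : Finset W) : 0 ≤ crossInd s t A S := by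
  unfold crossInd; split_ifs <;> norm_num

theorem crossInd_eq_one {s t : E → W} {A : Finset E} {S : Finset W}
    (h : ∃ e ∈ A, ¬ (s e ∈ S ↔ t e ∈ S)) : crossInd s t A S = 1 := by
  unfold crossInd; rw [if_pos h]

theorem crossInd_eq_zero {s t : E → W} {A : Finset E} {S : Finset W}
    (h : ∀ e ∈ A, (s e ∈ S ↔ t e ∈ S)) : crossInd s t A S = 0 := by
  unfold crossInd; rw [if_neg]
  rintro ⟨e, he, hne⟩
  exact hne (h e he)

theorem inside_nonneg [DecidableEq W] {s t : E → W} {A : Finset E} {b : E → ℤ}
    (hb : ∀ e ∈ A, 0 ≤ b e) (S : Finset W) : 0 ≤ inside s t A b S := by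
  unfold inside
  refine Finset.sum_nonneg fun e he => ?_
  split_ifs
  · exact hb e he
  · exact le_rfl

variable [Fintype W] [DecidableEq W]

theorem IsScore.nonneg {s t : E → W} {A : Finset E} {b : E → ℤ} {d : W → ℤ}
    (h : IsScore s t A b d) (hb : ∀ e ∈ A, 0 ≤ b e) (w : W) : 0 ≤ d w := by
  have h1 := h.2 {w}
  rw [Finset.sum_singleton] at h1
  have h2 := inside_nonneg (s := s) (t := t) hb {w}
  have h3 := crossInd_nonneg s t A {w}
  linarith

theorem IsScore.le_total {s t : E → W} {A : Finset E} {b : E → ℤ} {d : W → ℤ}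
    (h : IsScore s t A b d) (hb : ∀ e ∈ A, 0 ≤ b e) (w : W) : d w ≤ ∑ e ∈ A, b e := by
  rw [← h.1]
  exact Finset.single_le_sum (f := d) (fun i _ => h.nonneg hb i) (Finset.mem_univ w)

open Classical in
/-- The finite set of interior score vectors. -/
noncomputable def scores (s t : E → W) (A : Finset E) (b : E → ℤ) : Finset (W → ℤ) :=
  (Fintype.piFinset (fun _ : W => Finset.Icc (0 : ℤ) (∑ e ∈ A, b e))).filter (IsScore s t A b)

theorem mem_scores {s t : E → W} {A : Finset E} {b : E → ℤ} (hb : ∀ e ∈ A, 0 ≤ b e)
    (d : W → ℤ) : d ∈ scores s t A b ↔ IsScore s t A b d := by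
  unfold scores
  simp only [Finset.mem_filter, Fintype.mem_piFinset]
  constructor
  · exact fun h => h.2
  · intro h
    refine ⟨fun w => Finset.mem_Icc.2 ⟨h.nonneg hb w, h.le_total hb w⟩, h⟩

theorem card_scores_empty (s t : E → W) (b : E → ℤ) : (scores s t ∅ b).card = 1 := by
  rw [Finset.card_eq_one]
  refine ⟨0, ?_⟩
  ext d
  rw [mem_scores (by simp), Finset.mem_singleton]
  constructor
  · intro h
    have h0 := h.nonneg (by simp)
    have h1 := h.le_total (by simp)
    funext w
    have a := h0 w
    have b := h1 w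
    simp only [Finset.sum_empty] at b
    exact le_antisymm b a
  · rintro rfl
    refine ⟨by simp, fun S => ?_⟩
    rw [crossInd_eq_zero (by simp)]
    simp [inside]

variable [DecidableEq E]

omit [Fintype W] in
theorem inside_insert (s t : E → W) {A : Finset E} {e : E} (he : e ∉ A) (b : E → ℤ)
    (S : Finset W) : inside s t (insert e A) b S =
      (if s e ∈ S ∧ t e ∈ S then b e else 0) + inside s t A b S := by
  unfold inside
  rw [Finset.sum_insert he]

omit [Fintype W] [DecidableEq W] in
theorem crossInd_insert_of (s t : E → W) {A : Finset E} {e : E}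
    {S : Finset W} (h : s e ∈ S ↔ t e ∈ S) : crossInd s t (insert e A) S = crossInd s t A S := by
  unfold crossInd
  congr 1
  apply propext
  constructor
  · rintro ⟨f, hf, hne⟩
    rcases Finset.mem_insert.1 hf with rfl | hf
    · exact absurd h hne
    · exact ⟨f, hf, hne⟩
  · rintro ⟨f, hf, hne⟩
    exact ⟨f, Finset.mem_insert_of_mem hf, hne⟩

theorem card_scores_loop (s t : E → W) {A : Finset E} {e : E} (he : e ∉ A) (hl : s e = t e)
    (b : E → ℤ) (hb : ∀ f ∈ insert e A, 0 ≤ b f) :
    (scores s t (insert e A) b).card = (scores s t A b).card := by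
  have hbA : ∀ f ∈ A, 0 ≤ b f := fun f hf => hb f (Finset.mem_insert_of_mem hf)
  have hsum : ∀ (d : W → ℤ) (S : Finset W), ∑ w ∈ S, (d w - if w = t e then b e else 0) =
      ∑ w ∈ S, d w - (if t e ∈ S then b e else 0) := by
    intro d S
    rw [Finset.sum_sub_distrib, Finset.sum_ite_eq']
  have key : ∀ d : W → ℤ, IsScore s t (insert e A) b d ↔
      IsScore s t A b (fun w => d w - if w = t e then b e else 0) := by
    intro d
    unfold IsScore
    rw [Finset.sum_insert he]
    refine and_congr ?_ (forall_congr' fun S => ?_)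
    · rw [hsum]; simp only [Finset.mem_univ, if_true]
      constructor <;> intro h <;> linarith
    · rw [inside_insert s t he, crossInd_insert_of s t (by rw [hl]), hsum]
      by_cases h : t e ∈ S
      · simp only [hl, h, and_self, if_true]
        constructor <;> intro h <;> linarith
      · simp only [hl, h, and_self, if_false]
        constructor <;> intro h <;> linarith
  refine Finset.card_nbij' (fun d w => d w - if w = t e then b e else 0)
    (fun d w => d w + if w = t e then b e else 0) ?_ ?_ ?_ ?_
  · intro d hd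
    rw [Finset.mem_coe, mem_scores hb] at hd
    rw [Finset.mem_coe, mem_scores hbA]
    exact (key d).1 hd
  · intro d hd
    rw [Finset.mem_coe, mem_scores hbA] at hd
    rw [Finset.mem_coe, mem_scores hb, key]
    simpa using hd
  · intro d _
    funext w; simp
  · intro d _
    funext w; simp

end Pool.Agent.Lib.MP_8b1b48_lc
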