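import Pool.Agent.Lib.MP_8b1b48_lc.Score

/-!
Deletion-contraction for the number of interior score vectors.
-/

namespace Pool.Agent.Lib.MP_8b1b48_lc

open Finset

variable {W E : Type} [Fintype W] [DecidableEq W] [DecidableEq E]

/-- Extend by zero at `v`. -/
def ext0 (v : W) (d : {w : W // w ≠ v} → ℤ) (w : W) : ℤ := if h : w = v then 0 else d ⟨w, h⟩

omit [Fintype W] in
theorem ext0_self (v : W) (d : {w : W // w ≠ v} → ℤ) : ext0 v d v = 0 := by simp [ext0]

omit [Fintype W] in
theorem ext0_of_ne (v : W) (d : {w : W // w ≠ v} → ℤ) {w : W} (h : w ≠ v) :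
    ext0 v d w = d ⟨w, h⟩ := by simp [ext0, h]

omit [Fintype W] in
theorem sum_ext0 (v : W) (d : {w : W // w ≠ v} → ℤ) (S : Finset W)
    (S' : Finset {w : W // w ≠ v}) (h : ∀ w', w' ∈ S' ↔ w'.1 ∈ S) :
    ∑ w ∈ S, ext0 v d w = ∑ w ∈ S', d w := by
  have h1 : ∑ w ∈ S', d w = ∑ w ∈ S'.map (Function.Embedding.subtype _), ext0 v d w := by
    rw [Finset.sum_map]
    refine Finset.sum_congr rfl fun w _ => ?_
    simp only [Function.Embedding.subtype_apply]
    rw [ext0_of_ne v d w.2]
  rw [h1]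
  symm
  refine Finset.sum_subset ?_ ?_
  · intro w hw
    rw [Finset.mem_map] at hw
    obtain ⟨w', hw', rfl⟩ := hw
    exact (h w').1 hw'
  · intro w hw hw2
    by_cases hv : w = v
    · rw [hv, ext0_self]
    · exfalso
      apply hw2
      rw [Finset.mem_map]
      exact ⟨⟨w, hv⟩, (h _).2 hw, rfl⟩

omit [Fintype W] [DecidableEq W] [DecidableEq E] in
theorem crossInd_congr {W' : Type} {s t : E → W} {s' t' : E → W'} {A : Finset E} {S : Finset W}
    {S' : Finset W'} (h1 : ∀ f, s f ∈ S ↔ s' f ∈ S') (h2 : ∀ f, t f ∈ S ↔ t' f ∈ S') :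
    crossInd s t A S = crossInd s' t' A S' := by
  have h : (∃ e ∈ A, ¬ (s e ∈ S ↔ t e ∈ S)) ↔ ∃ e ∈ A, ¬ (s' e ∈ S' ↔ t' e ∈ S') := by
    simp only [h1, h2]
  unfold crossInd
  by_cases hh : ∃ e ∈ A, ¬ (s e ∈ S ↔ t e ∈ S)
  · rw [if_pos hh, if_pos (h.1 hh)]
  · rw [if_neg hh, if_neg (fun h' => hh (h.2 h'))]

/-- The cut conditions which do not separate `u` and `v`. -/
def KCond (s t : E → W) (A : Finset E) (b : E → ℤ) (u v : W) (δ : W → ℤ) : Prop :=
  ∑ w, δ w = ∑ f ∈ A, b f ∧
    ∀ S : Finset W, (u ∈ S ↔ v ∈ S) → inside s t A b S + crossInd s t A S ≤ ∑ w ∈ S, δ w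

omit [DecidableEq E] in
theorem isScore_contr_iff (s t : E → W) (A : Finset E) (b : E → ℤ) (e : E) (hne : s e ≠ t e)
    (d : {w : W // w ≠ t e} → ℤ) :
    IsScore (cs s t e hne) (ct s t e hne) A b d ↔ KCond s t A b (s e) (t e) (ext0 (t e) d) := by
  unfold IsScore KCond
  have htot : ∑ w, ext0 (t e) d w = ∑ w, d w := sum_ext0 (t e) d univ univ (by simp)
  rw [htot]
  refine and_congr Iff.rfl ⟨fun h S hS => ?_, fun h S' => ?_⟩
  · have h1 := h (univ.filter fun w' => w'.1 ∈ S)
    have hmem : ∀ w : W, contr (s e) (t e) hne w ∈ (univ.filter fun w' : {w : W // w ≠ t e} =>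
        w'.1 ∈ S) ↔ w ∈ S := by
      intro w
      simp only [Finset.mem_filter, Finset.mem_univ, true_and]
      by_cases hw : w = t e
      · subst hw; rw [contr_of_eq]; exact hS
      · rw [contr_of_ne hne hw]
    rw [sum_ext0 (t e) d S (univ.filter fun w' => w'.1 ∈ S) (by simp)]
    refine le_trans (le_of_eq ?_) h1
    congr 1
    · unfold inside
      refine Finset.sum_congr rfl fun f _ => ?_
      unfold cs ct
      simp only [hmem]
    · exact crossInd_congr (fun f => (hmem (s f)).symm) (fun f => (hmem (t f)).symm)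
  · have h1 := h (univ.filter fun w => contr (s e) (t e) hne w ∈ S') (by
      simp only [Finset.mem_filter, Finset.mem_univ, true_and]
      rw [contr_of_eq, contr_of_ne hne hne])
    rw [sum_ext0 (t e) d _ S' (by
      rintro ⟨w, hw⟩
      simp only [Finset.mem_filter, Finset.mem_univ, true_and]
      rw [contr_of_ne hne hw])] at h1
    refine le_trans (le_of_eq ?_) h1
    congr 1
    · unfold inside
      refine Finset.sum_congr rfl fun f _ => ?_
      unfold cs ct
      simp only [Finset.mem_filter, Finset.mem_univ, true_and]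
    · refine crossInd_congr (fun f => ?_) (fun f => ?_)
      · simp only [Finset.mem_filter, Finset.mem_univ, true_and]; rfl
      · simp only [Finset.mem_filter, Finset.mem_univ, true_and]; rfl

/-- Split the vertex `u` into `u, v` with values `x` and `δ u + β - x`. -/
def lam (u v : W) (β : ℤ) (δ : W → ℤ) (x : ℤ) (w : W) : ℤ :=
  δ w + (if w = u then x - δ u else 0) + (if w = v then δ u + β - x else 0)

omit [Fintype W] in
theorem sum_lam (u v : W) (β : ℤ) (δ : W → ℤ) (x : ℤ) (S : Finset W) :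
    ∑ w ∈ S, lam u v β δ x w = ∑ w ∈ S, δ w + (if u ∈ S then x - δ u else 0) +
      (if v ∈ S then δ u + β - x else 0) := by
  unfold lam
  rw [Finset.sum_add_distrib, Finset.sum_add_distrib, Finset.sum_ite_eq', Finset.sum_ite_eq']

/-- Sets containing `u` but not `v`. -/
def sep (u v : W) : Finset (Finset W) := univ.filter fun S : Finset W => u ∈ S ∧ v ∉ S

theorem sep_nonempty {u v : W} (hne : u ≠ v) : (sep u v).Nonempty :=
  ⟨{u}, by simp [sep, hne.symm]⟩

theorem mem_sep {u v : W} {S : Finset W} : S ∈ sep u v ↔ u ∈ S ∧ v ∉ S := by simp [sep]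

/-- Lower bound for the value at `u`. -/
noncomputable def lo (s t : E → W) (A : Finset E) (b : E → ℤ) (u v : W) (hne : u ≠ v)
    (δ : W → ℤ) : ℤ :=
  (sep u v).sup' (sep_nonempty hne)
    (fun S => inside s t A b S + 1 - ∑ w ∈ S, δ w + δ u)

/-- Upper bound for the value at `u` (up to the multiplicity of the contracted edge). -/
noncomputable def hi (s t : E → W) (A : Finset E) (b : E → ℤ) (u v : W) (hne : u ≠ v)
    (δ : W → ℤ) : ℤ :=
  (sep v u).inf' (sep_nonempty hne.symm)
    (fun S => δ u + ∑ w ∈ S, δ w - inside s t A b S - 1)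

omit [DecidableEq E] in
theorem lo_le_iff (s t : E → W) (A : Finset E) (b : E → ℤ) {u v : W} (hne : u ≠ v)
    (δ : W → ℤ) (x : ℤ) : lo s t A b u v hne δ ≤ x ↔
      ∀ S : Finset W, u ∈ S → v ∉ S → inside s t A b S + 1 - ∑ w ∈ S, δ w + δ u ≤ x := by
  unfold lo
  rw [Finset.sup'_le_iff]
  simp only [mem_sep, and_imp]

omit [DecidableEq E] in
theorem le_hi_iff (s t : E → W) (A : Finset E) (b : E → ℤ) {u v : W} (hne : u ≠ v)
    (δ : W → ℤ) (x : ℤ) : x ≤ hi s t A b u v hne δ ↔
      ∀ S : Finset W, v ∈ S → u ∉ S → x ≤ δ u + ∑ w ∈ S, δ w - inside s t A b S - 1 := by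
  unfold hi
  rw [Finset.le_inf'_iff]
  simp only [mem_sep, and_imp]

/-- Hypotheses relating the edge set `B` (with the edge `e` or with `e` deleted) to `A`. -/
structure Split (s t : E → W) (A B : Finset E) (b : E → ℤ) (u v : W) (β : ℤ) : Prop where
  tot : ∑ f ∈ B, b f = ∑ f ∈ A, b f + β
  both : ∀ S : Finset W, u ∈ S → v ∈ S →
    inside s t B b S + crossInd s t B S = inside s t A b S + crossInd s t A S + β
  none : ∀ S : Finset W, u ∉ S → v ∉ S →
    inside s t B b S + crossInd s t B S = inside s t A b S + crossInd s t A S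
  one : ∀ S : Finset W, ¬ (u ∈ S ↔ v ∈ S) →
    inside s t B b S + crossInd s t B S = inside s t A b S + 1

omit [DecidableEq E] in
theorem isScore_lam_iff {s t : E → W} {A B : Finset E} {b : E → ℤ} {u v : W} (hne : u ≠ v)
    {β : ℤ} (hs : Split s t A B b u v β) (δ : W → ℤ) (x : ℤ) :
    IsScore s t B b (lam u v β δ x) ↔
      KCond s t A b u v δ ∧ lo s t A b u v hne δ ≤ x ∧ x ≤ hi s t A b u v hne δ + β := by
  rw [← sub_le_iff_le_add, le_hi_iff, lo_le_iff]
  unfold IsScore KCond
  simp only [sum_lam, Finset.mem_univ, if_true]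
  constructor
  · rintro ⟨h1, h2⟩
    refine ⟨⟨?_, ?_⟩, ?_, ?_⟩
    · rw [hs.tot] at h1; linarith
    · intro S hS
      have := h2 S
      by_cases hu : u ∈ S
      · have hv := hS.1 hu
        rw [hs.both S hu hv, if_pos hu, if_pos hv] at this
        linarith
      · have hv : v ∉ S := fun h => hu (hS.2 h)
        rw [hs.none S hu hv, if_neg hu, if_neg hv] at this
        linarith
    · intro S hu hv
      have := h2 S
      rw [hs.one S (by simp [hu, hv]), if_pos hu, if_neg hv] at this
      linarith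
    · intro S hv hu
      have := h2 S
      rw [hs.one S (by simp [hu, hv]), if_neg hu, if_pos hv] at this
      linarith
  · rintro ⟨⟨h1, h2⟩, h3, h4⟩
    refine ⟨?_, ?_⟩
    · rw [hs.tot]; linarith
    · intro S
      by_cases hu : u ∈ S
      · by_cases hv : v ∈ S
        · rw [hs.both S hu hv, if_pos hu, if_pos hv]
          have := h2 S (by simp [hu, hv])
          linarith
        · rw [hs.one S (by simp [hu, hv]), if_pos hu, if_neg hv]
          have := h3 S hu hv
          linarith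
      · by_cases hv : v ∈ S
        · rw [hs.one S (by simp [hu, hv]), if_neg hu, if_pos hv]
          have := h4 S hv hu
          linarith
        · rw [hs.none S hu hv, if_neg hu, if_neg hv]
          have := h2 S (by simp [hu, hv])
          linarith

/-- Merge `u` and `v`. -/
def merge (u v : W) (β : ℤ) (d : W → ℤ) (w : {w : W // w ≠ v}) : ℤ :=
  if w.1 = u then d u + d v - β else d w.1

omit [Fintype W] in
theorem lam_merge {u v : W} (hne : u ≠ v) (β : ℤ) (d : W → ℤ) :
    lam u v β (ext0 v (merge u v β d)) (d u) = d := by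
  funext w
  unfold lam
  by_cases hv : w = v
  · subst hv
    rw [ext0_self, ext0_of_ne w _ hne, if_neg hne.symm, if_pos rfl]
    simp [merge]
  · rw [ext0_of_ne v _ hv, ext0_of_ne v _ hne, if_neg hv]
    by_cases hu : w = u
    · subst hu; simp [merge]
    · rw [if_neg hu]; simp [merge, hu]

omit [Fintype W] in
theorem merge_lam {u v : W} (hne : u ≠ v) (β : ℤ) (δ : {w : W // w ≠ v} → ℤ) (x : ℤ) :
    merge u v β (lam u v β (ext0 v δ) x) = δ := by
  funext w
  obtain ⟨w, hv⟩ := w
  unfold merge lam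
  by_cases hu : w = u
  · subst hu
    simp only [if_true]
    rw [ext0_self, ext0_of_ne v δ hv, if_neg hne, if_neg hne.symm]
    ring
  · simp only [if_neg hu, if_neg hv]
    rw [ext0_of_ne v δ hv]; ring

omit [Fintype W] in
theorem lam_apply_u {u v : W} (hne : u ≠ v) (β : ℤ) (δ : W → ℤ) (x : ℤ) :
    lam u v β δ x u = x := by
  unfold lam
  rw [if_pos rfl, if_neg hne]; ring

theorem card_scores_split (s t : E → W) {A B : Finset E} {b : E → ℤ} (e : E)
    (hne : s e ≠ t e) {β : ℤ} (hs : Split s t A B b (s e) (t e) β) (hA : ∀ f ∈ A, 0 ≤ b f)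
    (hB : ∀ f ∈ B, 0 ≤ b f) :
    (scores s t B b).card = ∑ d ∈ scores (cs s t e hne) (ct s t e hne) A b,
      (hi s t A b (s e) (t e) hne (ext0 (t e) d) + β + 1 -
        lo s t A b (s e) (t e) hne (ext0 (t e) d)).toNat := by
  have h1 : ∀ d ∈ scores (cs s t e hne) (ct s t e hne) A b,
      (hi s t A b (s e) (t e) hne (ext0 (t e) d) + β + 1 -
        lo s t A b (s e) (t e) hne (ext0 (t e) d)).toNat =
      (Finset.Icc (lo s t A b (s e) (t e) hne (ext0 (t e) d))
        (hi s t A b (s e) (t e) hne (ext0 (t e) d) + β)).card := by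
    intro d _
    rw [Int.card_Icc]
  rw [Finset.sum_congr rfl h1, ← Finset.card_sigma]
  refine Finset.card_nbij' (fun d => ⟨merge (s e) (t e) β d, d (s e)⟩)
    (fun p => lam (s e) (t e) β (ext0 (t e) p.1) p.2) ?_ ?_ ?_ ?_
  · intro d hd
    rw [Finset.mem_coe, mem_scores hB] at hd
    rw [Finset.mem_coe, Finset.mem_sigma]
    have h2 := hd
    rw [← lam_merge hne β d, isScore_lam_iff hne hs] at h2
    refine ⟨?_, ?_⟩
    · rw [mem_scores hA, isScore_contr_iff]
      exact h2.1
    · rw [Finset.mem_Icc]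
      exact h2.2
  · rintro ⟨d, x⟩ hd
    rw [Finset.mem_coe, Finset.mem_sigma] at hd
    obtain ⟨hd1, hd2⟩ := hd
    change d ∈ _ at hd1
    change x ∈ _ at hd2
    rw [mem_scores hA, isScore_contr_iff] at hd1
    rw [Finset.mem_Icc] at hd2
    rw [Finset.mem_coe, mem_scores hB, isScore_lam_iff hne hs]
    exact ⟨hd1, hd2⟩
  · intro d _
    exact lam_merge hne β d
  · rintro ⟨d, x⟩ _
    exact Sigma.ext (merge_lam hne β d x) (heq_of_eq (lam_apply_u hne β _ x))

end Pool.Agent.Lib.MP_8b1b48_lc
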