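import Pool.Agent.Lib.MP_8b1b48_lc.Lift
import Pool.Agent.Lib.MP_8b1b48_lc.Binom

/-!
The weighted number of states and its comparison with the signed forest sum.
-/

namespace Pool.Agent.Lib.MP_8b1b48_lc

open Finset

variable {V E : Type} [Fintype V] [DecidableEq V] [Fintype E] [DecidableEq E]

theorem card_fiber {N : ℕ} (k : V → ℕ) :
    (univ.filter fun B : Finset (V × Fin N) =>
      ∀ v, (univ.filter fun i : Fin N => (v, i) ∈ B).card = k v).card = ∏ v, N.choose (k v) := by
  have h1 : ∏ v, N.choose (k v) =
      (Fintype.piFinset fun v : V => Finset.powersetCard (k v) (univ : Finset (Fin N))).card := by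
    rw [Fintype.card_piFinset]
    refine Finset.prod_congr rfl fun v _ => ?_
    rw [Finset.card_powersetCard, Finset.card_univ, Fintype.card_fin]
  rw [h1]
  refine Finset.card_nbij' (fun B v => univ.filter fun i : Fin N => (v, i) ∈ B)
    (fun g => univ.filter fun x : V × Fin N => x.2 ∈ g x.1) ?_ ?_ ?_ ?_
  · intro B hB
    rw [Finset.mem_coe, Finset.mem_filter] at hB
    rw [Finset.mem_coe, Fintype.mem_piFinset]
    intro v
    rw [Finset.mem_powersetCard]
    exact ⟨Finset.subset_univ _, hB.2 v⟩
  · intro g hg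
    rw [Finset.mem_coe, Fintype.mem_piFinset] at hg
    rw [Finset.mem_coe, Finset.mem_filter]
    refine ⟨Finset.mem_univ _, fun v => ?_⟩
    have := hg v
    rw [Finset.mem_powersetCard] at this
    rw [← this.2]
    congr 1
    ext i; simp
  · intro B _
    ext x; simp
  · intro g _
    funext v
    ext i; simp

/-- Number of lifts of the scores with given multiplicities. -/
noncomputable def nlift (s t : E → V) (N L : ℕ) (b : E → ℤ) : ℕ :=
  (open Classical in (univ.filter fun B : Finset (V × Fin N) => IsScore s t univ b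
    (fun v => ((univ.filter fun i : Fin N => (v, i) ∈ B).card : ℤ) - L))).card

theorem nlift_eq (s t : E → V) (N L : ℕ) (b : E → ℤ) (hb : ∀ e, 0 ≤ b e) :
    nlift s t N L b = ∑ d ∈ scores s t univ b, ∏ v, N.choose (L + (d v).toNat) := by
  classical
  unfold nlift
  have hb' : ∀ e ∈ (univ : Finset E), 0 ≤ b e := fun e _ => hb e
  rw [Finset.card_eq_sum_card_fiberwise (t := scores s t univ b)
    (f := fun B : Finset (V × Fin N) =>
      (fun v => ((univ.filter fun i : Fin N => (v, i) ∈ B).card : ℤ) - L)) ?_]
  · refine Finset.sum_congr rfl fun d hd => ?_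
    rw [mem_scores hb'] at hd
    rw [← card_fiber]
    congr 1
    ext B
    rw [Finset.mem_filter, Finset.mem_filter, Finset.mem_filter]
    constructor
    · rintro ⟨_, h2⟩
      refine ⟨Finset.mem_univ _, fun v => ?_⟩
      have h3 : ((univ.filter fun i : Fin N => (v, i) ∈ B).card : ℤ) - L = d v := congrFun h2 v
      have h4 := hd.nonneg hb' v
      omega
    · rintro ⟨_, h2⟩
      have h3 : (fun v => ((univ.filter fun i : Fin N => (v, i) ∈ B).card : ℤ) - L) = d := by
        funext v
        have h4 := hd.nonneg hb' v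
        have h5 := h2 v
        omega
      rw [h3]
      exact ⟨⟨Finset.mem_univ _, hd⟩, rfl⟩
  · intro B hB
    rw [Finset.mem_coe, Finset.mem_filter] at hB
    rw [Finset.mem_coe, mem_scores hb']
    exact hB.2

/-- The number of lifts is almost `choose (2L) L ^ |V|` times the number of scores. -/
theorem nlift_bounds (s t : E → V) (L : ℕ) (hL : 0 < L) (b : E → ℤ) (hb : ∀ e, 0 ≤ b e) (D : ℝ)
    (hD : (∑ e, (b e : ℝ)) ≤ D) :
    (1 - D ^ 2 / L) * ((2 * L).choose L : ℝ) ^ (Fintype.card V) * (scores s t univ b).card ≤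
      (nlift s t (2 * L) L b : ℝ) ∧
    (nlift s t (2 * L) L b : ℝ) ≤
      ((2 * L).choose L : ℝ) ^ (Fintype.card V) * (scores s t univ b).card := by
  have hb' : ∀ e ∈ (univ : Finset E), 0 ≤ b e := fun e _ => hb e
  rw [nlift_eq s t _ L b hb]
  push_cast
  have hsum : ∀ d ∈ scores s t univ b, ∑ v, ((d v).toNat : ℝ) ≤ D := by
    intro d hd
    rw [mem_scores hb'] at hd
    have h1 : ∑ v, ((d v).toNat : ℝ) = ∑ v, (d v : ℝ) := by
      refine Finset.sum_congr rfl fun v _ => ?_
      have h4 := hd.nonneg hb' v
      have h5 : (((d v).toNat : ℤ) : ℝ) = ((d v : ℤ) : ℝ) :=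
        congrArg _ (Int.toNat_of_nonneg h4)
      rw [Int.cast_natCast] at h5
      exact h5
    rw [h1]
    have h2 : ((∑ v, d v : ℤ) : ℝ) = ((∑ e, b e : ℤ) : ℝ) := by rw [hd.1]
    push_cast at h2
    rw [h2]; exact hD
  constructor
  · rw [mul_comm _ ((scores s t univ b).card : ℝ), ← nsmul_eq_mul, ← Finset.sum_const]
    exact Finset.sum_le_sum fun d hd =>
      (prod_choose_bounds L hL (fun v => (d v).toNat) D (hsum d hd)).1
  · rw [mul_comm _ ((scores s t univ b).card : ℝ), ← nsmul_eq_mul, ← Finset.sum_const]
    exact Finset.sum_le_sum fun d hd =>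
      (prod_choose_bounds L hL (fun v => (d v).toNat) D (hsum d hd)).2

/-- Multiplicities given by a subset of `E × Fin a`. -/
def cmul {a : ℕ} (n : ℕ) (C : Finset (E × Fin a)) (e : E) : ℤ :=
  (n : ℤ) + a - ((univ.filter fun i : Fin a => (e, i) ∈ C).card : ℤ)

omit [Fintype E] in
theorem cmul_ge {a : ℕ} (n : ℕ) (C : Finset (E × Fin a)) (e : E) : (n : ℤ) ≤ cmul n C e := by
  unfold cmul
  have h := Finset.card_le_univ (univ.filter fun i : Fin a => (e, i) ∈ C)
  rw [Fintype.card_fin] at h
  have : ((univ.filter fun i : Fin a => (e, i) ∈ C).card : ℤ) ≤ a := by exact_mod_cast h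
  linarith

omit [Fintype E] in
theorem cmul_le {a : ℕ} (n : ℕ) (C : Finset (E × Fin a)) (e : E) :
    cmul n C e ≤ (n : ℤ) + a := by
  unfold cmul
  have : (0 : ℤ) ≤ ((univ.filter fun i : Fin a => (e, i) ∈ C).card : ℤ) := by positivity
  linarith

open Classical in
/-- The weighted number of states. -/
noncomputable def stateSum (s t : E → V) (L n a : ℕ) (lam : ℝ) : ℝ :=
  ∑ B : Finset (Ground V E (2 * L) a), if IsState s t L n B then lam ^ B.toRight.card else 0

theorem stateSum_eq (s t : E → V) (L n a : ℕ) (lam : ℝ) :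
    stateSum s t L n a lam = ∑ C : Finset (E × Fin a),
      lam ^ C.card * (nlift s t (2 * L) L (cmul n C) : ℝ) := by
  classical
  unfold stateSum
  rw [← (Finset.sumEquiv.symm.toEquiv).sum_comp, Fintype.sum_prod_type, Finset.sum_comm]
  refine Finset.sum_congr rfl fun C _ => ?_
  unfold nlift
  rw [Finset.card_filter]
  push_cast
  rw [Finset.mul_sum]
  refine Finset.sum_congr rfl fun B _ => ?_
  have h1 : (Finset.sumEquiv.symm.toEquiv (B, C) : Finset (Ground V E (2 * L) a)) =
      B.disjSum C := rfl
  rw [h1]
  have h2 : IsState s t L n (B.disjSum C) ↔ IsScore s t univ (cmul n C)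
      (fun v => ((univ.filter fun i : Fin (2 * L) => (v, i) ∈ B).card : ℤ) - L) := by
    unfold IsState
    have h3 : mval n (B.disjSum C) = cmul n C := by
      funext e
      unfold mval cmul
      simp only [Finset.inr_mem_disjSum]
    have h4 : dval L (B.disjSum C) =
        (fun v => ((univ.filter fun i : Fin (2 * L) => (v, i) ∈ B).card : ℤ) - L) := by
      funext v
      unfold dval
      simp only [Finset.inl_mem_disjSum]
    rw [h3, h4]
  rw [Finset.toRight_disjSum]
  by_cases h : IsState s t L n (B.disjSum C)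
  · rw [if_pos h, if_pos (h2.1 h)]; ring
  · rw [if_neg h, if_neg (fun h' => h (h2.2 h'))]; ring

/-- Averaging identity. -/
theorem average_fsum (s t : E → V) (n a : ℕ) (lam q κ : ℝ)
    (h1 : q * ∑ S : Finset (Fin a), lam ^ S.card * ((n : ℝ) + a - S.card) = κ)
    (h0 : q * ∑ S : Finset (Fin a), lam ^ S.card = 1) :
    q ^ (Fintype.card E) * ∑ C : Finset (E × Fin a),
      lam ^ C.card * fsum s t univ (fun e => (cmul n C e : ℝ)) = fsum s t univ (fun _ => κ) := by
  classical
  have key : ∀ F : Finset E, q ^ (Fintype.card E) * ∑ C : Finset (E × Fin a),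
      lam ^ C.card * ∏ e ∈ F, (cmul n C e : ℝ) = ∏ _e ∈ F, κ := by
    intro F
    have hbij : ∑ C : Finset (E × Fin a), lam ^ C.card * ∏ e ∈ F, (cmul n C e : ℝ) =
        ∑ g ∈ Fintype.piFinset (fun _ : E => (univ : Finset (Finset (Fin a)))),
          ∏ e, (lam ^ (g e).card * (if e ∈ F then (n : ℝ) + a - (g e).card else 1)) := by
      refine Finset.sum_nbij' (fun C e => univ.filter fun i : Fin a => (e, i) ∈ C)
        (fun g => univ.filter fun x : E × Fin a => x.2 ∈ g x.1) ?_ ?_ ?_ ?_ ?_
      · intro C _; simp
      · intro g _; simp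
      · intro C _; ext x; simp
      · intro g _; funext e; ext i; simp
      · intro C _
        rw [Finset.prod_mul_distrib]
        congr 1
        · rw [Finset.prod_pow_eq_pow_sum]
          congr 1
          rw [Finset.card_eq_sum_card_fiberwise (f := Prod.fst) (t := (univ : Finset E))
            (fun x _ => Finset.mem_coe.2 (Finset.mem_univ _))]
          refine Finset.sum_congr rfl fun e _ => ?_
          refine Finset.card_bij (fun x _ => x.2) ?_ ?_ ?_
          · intro x hx
            rw [Finset.mem_filter] at hx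
            obtain ⟨hx1, rfl⟩ := hx
            simpa using hx1
          · intro x hx y hy hxy
            rw [Finset.mem_filter] at hx hy
            exact Prod.ext (hx.2.trans hy.2.symm) hxy
          · intro i hi
            rw [Finset.mem_filter] at hi
            exact ⟨(e, i), Finset.mem_filter.2 ⟨hi.2, rfl⟩, rfl⟩
        · rw [Finset.prod_ite_mem, Finset.univ_inter]
          refine Finset.prod_congr rfl fun e _ => ?_
          unfold cmul
          push_cast; ring
    have hps := (Finset.prod_univ_sum (fun _ : E => (univ : Finset (Finset (Fin a))))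
      (fun e S => lam ^ S.card * (if e ∈ F then (n : ℝ) + a - S.card else 1))).symm
    rw [hbij, hps, Finset.card_univ.symm, ← Finset.prod_const, ← Finset.prod_mul_distrib]
    have : ∀ e : E, q * ∑ S : Finset (Fin a), lam ^ S.card *
        (if e ∈ F then (n : ℝ) + a - S.card else 1) = if e ∈ F then κ else 1 := by
      intro e
      by_cases he : e ∈ F
      · simp only [he, if_true]; exact h1
      · simp only [he, if_false, mul_one]; exact h0
    rw [Finset.prod_congr rfl (fun e _ => this e), Finset.prod_ite_mem, Finset.univ_inter]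
  unfold fsum
  simp only [Finset.mul_sum]
  rw [Finset.sum_comm]
  refine Finset.sum_congr rfl fun F _ => ?_
  by_cases hF : IsForest s t F
  · simp only [hF, if_true]
    rw [← key F, Finset.mul_sum, Finset.mul_sum]
    refine Finset.sum_congr rfl fun C _ => ?_
    ring
  · simp only [hF, if_false, mul_zero, Finset.sum_const_zero]

/-- The weighted number of states approximates the signed forest sum. -/
theorem stateSum_bounds (s t : E → V) (L n a : ℕ) (hL : 0 < L) (hn : 1 ≤ n) (lam q κ : ℝ)
    (hlam : 0 ≤ lam) (hq : 0 < q)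
    (h1 : q * ∑ S : Finset (Fin a), lam ^ S.card * ((n : ℝ) + a - S.card) = κ)
    (h0 : q * ∑ S : Finset (Fin a), lam ^ S.card = 1) :
    (1 - (((n : ℝ) + a) * Fintype.card E) ^ 2 / L) * fsum s t univ (fun _ => κ) ≤
      q ^ (Fintype.card E) / ((2 * L).choose L : ℝ) ^ (Fintype.card V) *
        stateSum s t L n a lam ∧
    q ^ (Fintype.card E) / ((2 * L).choose L : ℝ) ^ (Fintype.card V) *
        stateSum s t L n a lam ≤ fsum s t univ (fun _ => κ) := by
  have hc : (0 : ℝ) < ((2 * L).choose L : ℝ) ^ (Fintype.card V) := by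
    have : 0 < (2 * L).choose L := Nat.choose_pos (by omega)
    positivity
  have hcm : ∀ C : Finset (E × Fin a), ∀ e, 0 ≤ cmul n C e := by
    intro C e
    have := cmul_ge n C e
    have h : (1 : ℤ) ≤ n := by exact_mod_cast hn
    linarith
  have hcm1 : ∀ C : Finset (E × Fin a), ∀ e ∈ (univ : Finset E), 1 ≤ cmul n C e := by
    intro C e _
    have := cmul_ge n C e
    have h : (1 : ℤ) ≤ n := by exact_mod_cast hn
    linarith
  have hD : ∀ C : Finset (E × Fin a), (∑ e, (cmul n C e : ℝ)) ≤
      ((n : ℝ) + a) * Fintype.card E := by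
    intro C
    calc (∑ e, (cmul n C e : ℝ)) ≤ ∑ _e : E, ((n : ℝ) + a) := by
          refine Finset.sum_le_sum fun e _ => ?_
          exact_mod_cast cmul_le n C e
      _ = ((n : ℝ) + a) * Fintype.card E := by
          rw [Finset.sum_const, Finset.card_univ, nsmul_eq_mul]; ring
  rw [← average_fsum s t n a lam q κ h1 h0, stateSum_eq]
  have hqe : 0 < q ^ (Fintype.card E) := by positivity
  constructor
  · have : (1 - (((n : ℝ) + a) * Fintype.card E) ^ 2 / L) * (q ^ (Fintype.card E) *
        ∑ C : Finset (E × Fin a), lam ^ C.card * fsum s t univ (fun e => (cmul n C e : ℝ))) =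
        q ^ (Fintype.card E) / ((2 * L).choose L : ℝ) ^ (Fintype.card V) *
        ∑ C : Finset (E × Fin a), lam ^ C.card *
          ((1 - (((n : ℝ) + a) * Fintype.card E) ^ 2 / L) *
            ((2 * L).choose L : ℝ) ^ (Fintype.card V) * (scores s t univ (cmul n C)).card) := by
      have h2 : ∀ C : Finset (E × Fin a), lam ^ C.card *
          ((1 - (((n : ℝ) + a) * Fintype.card E) ^ 2 / L) *
            ((2 * L).choose L : ℝ) ^ (Fintype.card V) * (scores s t univ (cmul n C)).card) =
          ((1 - (((n : ℝ) + a) * Fintype.card E) ^ 2 / L) *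
            ((2 * L).choose L : ℝ) ^ (Fintype.card V)) * (lam ^ C.card *
              fsum s t univ (fun e => (cmul n C e : ℝ))) := by
        intro C
        rw [card_scores_eq_fsum univ V s t (cmul n C) (hcm1 C)]; ring
      rw [Finset.sum_congr rfl (fun C _ => h2 C), ← Finset.mul_sum]
      field_simp
    rw [this]
    refine mul_le_mul_of_nonneg_left ?_ (by positivity)
    refine Finset.sum_le_sum fun C _ => ?_
    exact mul_le_mul_of_nonneg_left (nlift_bounds s t L hL _ (hcm C) _ (hD C)).1 (by positivity)
  · have : (q ^ (Fintype.card E) *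
        ∑ C : Finset (E × Fin a), lam ^ C.card * fsum s t univ (fun e => (cmul n C e : ℝ))) =
        q ^ (Fintype.card E) / ((2 * L).choose L : ℝ) ^ (Fintype.card V) *
        ∑ C : Finset (E × Fin a), lam ^ C.card *
          (((2 * L).choose L : ℝ) ^ (Fintype.card V) * (scores s t univ (cmul n C)).card) := by
      have h2 : ∀ C : Finset (E × Fin a), lam ^ C.card *
          (((2 * L).choose L : ℝ) ^ (Fintype.card V) * (scores s t univ (cmul n C)).card) =
          (((2 * L).choose L : ℝ) ^ (Fintype.card V)) * (lam ^ C.card *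
              fsum s t univ (fun e => (cmul n C e : ℝ))) := by
        intro C
        rw [card_scores_eq_fsum univ V s t (cmul n C) (hcm1 C)]; ring
      rw [Finset.sum_congr rfl (fun C _ => h2 C), ← Finset.mul_sum]
      field_simp
    rw [this]
    refine mul_le_mul_of_nonneg_left ?_ (by positivity)
    refine Finset.sum_le_sum fun C _ => ?_
    exact mul_le_mul_of_nonneg_left (nlift_bounds s t L hL _ (hcm C) _ (hD C)).2 (by positivity)

end Pool.Agent.Lib.MP_8b1b48_lc
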