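import Pool.Agent.Lib.MP_8b1b48_lc.Tutte
import Pool.Agent.Lib.MP_8b1b48_lc.Flow
import Pool.Agent.Lib.MP_8b1b48_lc.Mix6

/-!
The family of states as a weighted exchange family.
-/

namespace Pool.Agent.Lib.MP_8b1b48_lc

open Finset

variable {V E : Type} [Fintype V] [DecidableEq V] [Fintype E] [DecidableEq E]

theorem mem_states {s t : E → V} {L n a : ℕ} {B : Finset (Ground V E (2 * L) a)} :
    B ∈ states s t L n a ↔ IsState s t L n B := by
  unfold states
  simp only [Finset.mem_filter, Finset.mem_univ, true_and]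
  exact flowState_iff s t L n B

omit [Fintype V] [Fintype E] [DecidableEq V] [DecidableEq E] in
theorem wt_gw (lam : ℝ) {N a : ℕ} (B : Finset (Ground V E N a)) :
    Mix.wt (gw lam) B = lam ^ B.toRight.card := by
  unfold Mix.wt gw
  conv_lhs => rw [← Finset.toLeft_disjSum_toRight (u := B)]
  rw [Finset.prod_disjSum]
  simp

theorem Z_gw (s t : E → V) (L n a : ℕ) (lam : ℝ) :
    Mix.Z (gw lam) (states s t L n a) = stateSum s t L n a lam := by
  classical
  unfold Mix.Z states stateSum
  rw [Finset.sum_filter]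
  refine Finset.sum_congr rfl fun B _ => ?_
  rw [wt_gw]
  by_cases h : FlowState s t L n B
  · rw [if_pos h, if_pos ((flowState_iff s t L n B).1 h)]
  · rw [if_neg h, if_neg (fun h' => h ((flowState_iff s t L n B).2 h'))]

theorem states_exch (s t : E → V) (L : ℕ) {n : ℕ} (hn : 1 ≤ n) (a : ℕ) :
    Mix.Exch (states s t L n a) := by
  intro B hB B' hB' x hx hx'
  rw [mem_states] at hB hB'
  obtain ⟨y, h1, h2, h3⟩ := state_exchange s t L hn hB hB' hx hx'
  exact ⟨y, h1, h2, mem_states.2 h3⟩

theorem states_unif (s t : E → V) (L n a : ℕ) :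
    Mix.Unif (states s t L n a) (rank V E L n a) := by
  intro B hB
  rw [mem_states] at hB
  have h1 := hB.1
  have h2 : B.card = ∑ q : V ⊕ E, (B.filter fun x => coord x = q).card :=
    Finset.card_eq_sum_card_fiberwise (fun x _ => Finset.mem_univ _)
  rw [Fintype.sum_sum_type] at h2
  have h3 : (B.card : ℤ) = ∑ v, (dval L B v + L) + ∑ e, ((n : ℤ) + a - mval n B e) := by
    rw [h2]
    push_cast
    congr 1
    · refine Finset.sum_congr rfl fun v _ => ?_
      rw [card_coord_inl]; unfold dval; ring
    · refine Finset.sum_congr rfl fun e _ => ?_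
      rw [card_coord_inr]; unfold mval; ring
  rw [Finset.sum_add_distrib, Finset.sum_sub_distrib, h1, Finset.sum_const, Finset.sum_const,
    Finset.card_univ, Finset.card_univ, nsmul_eq_mul, nsmul_eq_mul] at h3
  have h4 : (B.card : ℤ) = (rank V E L n a : ℕ) := by
    rw [h3]; unfold rank; push_cast; ring
  exact_mod_cast h4

omit [DecidableEq V] [DecidableEq E] in
theorem rank_pos [Nonempty V] {L : ℕ} (hL : 0 < L) (n a : ℕ) : 0 < rank V E L n a := by
  unfold rank
  have : 0 < Fintype.card V := Fintype.card_pos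
  positivity

/-- The states form the bases of a matroid, if there are any. -/
theorem states_matroid (s t : E → V) (L : ℕ) {n : ℕ} (hn : 1 ≤ n) (a : ℕ)
    (h : (states s t L n a).Nonempty) :
    ∃ M : Matroid (Ground V E (2 * L) a), M.E = Set.univ ∧
      ∀ B : Finset (Ground V E (2 * L) a), M.IsBase (B : Set _) ↔ B ∈ states s t L n a := by
  obtain ⟨B₀, hB₀⟩ := h
  refine ⟨Matroid.ofIsBaseOfFinite (E := Set.univ) (Set.toFinite _)
    (fun X => ∃ B ∈ states s t L n a, (B : Set (Ground V E (2 * L) a)) = X) ⟨_, B₀, hB₀, rfl⟩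
    ?_ (fun _ _ => Set.subset_univ _), rfl, ?_⟩
  · rintro X Y ⟨B, hB, rfl⟩ ⟨B', hB', rfl⟩ x hx
    have hx1 : x ∈ B := by simpa using hx.1
    have hx2 : x ∉ B' := by simpa using hx.2
    obtain ⟨y, h1, h2, h3⟩ := states_exch s t L hn a B hB B' hB' x hx1 hx2
    refine ⟨y, ⟨by simpa using h1, by simpa using h2⟩, _, h3, ?_⟩
    rw [Finset.coe_insert, Finset.coe_erase]
  · intro B
    change (∃ B' ∈ states s t L n a, (B' : Set (Ground V E (2 * L) a)) = B) ↔ _
    constructor
    · rintro ⟨B', hB', h⟩
      rw [Finset.coe_inj] at h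
      exact h ▸ hB'
    · intro h; exact ⟨B, h, rfl⟩

omit [Fintype V] [DecidableEq V] [DecidableEq E] in
theorem card_toRight_le {N a : ℕ} (ha : a ≤ 1) (B : Finset (Ground V E N a)) :
    B.toRight.card ≤ Fintype.card E := by
  calc B.toRight.card ≤ Fintype.card (E × Fin a) := Finset.card_le_univ _
    _ = Fintype.card E * a := by rw [Fintype.card_prod, Fintype.card_fin]
    _ ≤ Fintype.card E * 1 := Nat.mul_le_mul_left _ ha
    _ = _ := mul_one _

/-- Total weight against the weight of one state. -/
theorem ratio_le (s t : E → V) (L n a : ℕ) {lam : ℝ} {Λ : ℕ} (hΛ : 1 ≤ Λ)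
    (hcase : a = 0 ∨ (a = 1 ∧ 0 < lam ∧ lam ≤ Λ ∧ 1 / lam ≤ Λ))
    (B₀ : Finset (Ground V E (2 * L) a)) :
    Mix.Z (gw lam) (states s t L n a) / Mix.wt (gw lam) B₀ ≤
      2 ^ (2 * L * Fintype.card V + a * Fintype.card E) * (Λ : ℝ) ^ (2 * Fintype.card E) := by
  have hΛr : (1 : ℝ) ≤ Λ := by exact_mod_cast hΛ
  have hone : ∀ B : Finset (Ground V E (2 * L) a),
      Mix.wt (gw lam) B / Mix.wt (gw lam) B₀ ≤ (Λ : ℝ) ^ (2 * Fintype.card E) := by
    intro B
    rw [wt_gw, wt_gw]
    rcases hcase with ha | ⟨ha, h0, h1, h2⟩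
    · subst ha
      have h3 : ∀ B : Finset (Ground V E (2 * L) 0), B.toRight.card = 0 := by
        intro B
        rw [Finset.card_eq_zero]
        exact Finset.eq_empty_of_isEmpty _
      rw [h3, h3, pow_zero, div_one]
      exact one_le_pow₀ hΛr
    · have hb := card_toRight_le ha.le B
      have hb0 := card_toRight_le ha.le B₀
      calc lam ^ B.toRight.card / lam ^ B₀.toRight.card =
            lam ^ B.toRight.card * (1 / lam) ^ B₀.toRight.card := by
            rw [one_div, inv_pow]; rfl
        _ ≤ (Λ : ℝ) ^ B.toRight.card * (Λ : ℝ) ^ B₀.toRight.card := by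
            refine mul_le_mul (pow_le_pow_left₀ h0.le h1 _) (pow_le_pow_left₀ (by positivity) h2 _)
              (by positivity) (by positivity)
        _ ≤ (Λ : ℝ) ^ (Fintype.card E) * (Λ : ℝ) ^ (Fintype.card E) := by
            refine mul_le_mul (pow_le_pow_right₀ hΛr hb) (pow_le_pow_right₀ hΛr hb0)
              (by positivity) (by positivity)
        _ = _ := by rw [← pow_add]; congr 1; omega
  unfold Mix.Z
  rw [Finset.sum_div]
  calc ∑ B ∈ states s t L n a, Mix.wt (gw lam) B / Mix.wt (gw lam) B₀
      ≤ ∑ _B ∈ states s t L n a, (Λ : ℝ) ^ (2 * Fintype.card E) :=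
        Finset.sum_le_sum fun B _ => hone B
    _ = ((states s t L n a).card : ℝ) * (Λ : ℝ) ^ (2 * Fintype.card E) := by
        rw [Finset.sum_const, nsmul_eq_mul]
    _ ≤ _ := by
        refine mul_le_mul_of_nonneg_right ?_ (by positivity)
        have h1 : (states s t L n a).card ≤ 2 ^ (2 * L * Fintype.card V + a * Fintype.card E) := by
          calc (states s t L n a).card ≤ Fintype.card (Finset (Ground V E (2 * L) a)) :=
                Finset.card_le_univ _
            _ = 2 ^ (2 * L * Fintype.card V + a * Fintype.card E) := by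
                rw [Fintype.card_finset]
                congr 1
                unfold Ground
                rw [Fintype.card_sum, Fintype.card_prod, Fintype.card_prod, Fintype.card_fin,
                  Fintype.card_fin]
                ring
        exact_mod_cast h1

theorem startState_mem (s t : E → V) {L n a : ℕ} (hna : 2 ≤ n + a)
    (hL : (n + a) * Fintype.card E ≤ L) : startState s t L n a ∈ states s t L n a := by
  rw [mem_states]
  have hsc : ∀ v, startScore s t n a v ≤ L := by
    intro v
    unfold startScore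
    calc _ ≤ ∑ _e : E, (n + a) := by
          refine Finset.sum_le_sum fun e _ => ?_
          split_ifs <;> omega
      _ = (n + a) * Fintype.card E := by
          rw [Finset.sum_const, Finset.card_univ, smul_eq_mul, mul_comm]
      _ ≤ L := hL
  have hd : dval L (startState s t L n a) = fun v => (startScore s t n a v : ℤ) := by
    funext v
    unfold dval startState
    simp only [Finset.inl_mem_disjSum, Finset.mem_filter, Finset.mem_univ, true_and]
    have h1 : (univ.filter fun i : Fin (2 * L) => (i : ℕ) < L + startScore s t n a v).card =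
        L + startScore s t n a v := by
      rw [Fin.card_filter_val_lt]
      have := hsc v
      omega
    rw [h1]; push_cast; ring
  have hm : mval n (startState s t L n a) = fun _ => (n : ℤ) + a := by
    funext e
    unfold mval startState
    simp
  unfold IsState
  rw [hd, hm]
  have hsum : ∀ S : Finset V, ∑ v ∈ S, (startScore s t n a v : ℤ) =
      ∑ e, ((if s e ∈ S then (1 : ℤ) else 0) + (if t e ∈ S then ((n : ℤ) + a - 1) else 0)) := by
    intro S
    unfold startScore
    push_cast
    rw [Finset.sum_comm]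
    refine Finset.sum_congr rfl fun e _ => ?_
    rw [Finset.sum_add_distrib, Finset.sum_ite_eq, Finset.sum_ite_eq]
    congr 1
    have : ((n + a - 1 : ℕ) : ℤ) = (n : ℤ) + a - 1 := by omega
    rw [this]
  have hna' : (2 : ℤ) ≤ (n : ℤ) + a := by exact_mod_cast hna
  refine ⟨?_, ?_⟩
  · rw [hsum]
    refine Finset.sum_congr rfl fun e _ => ?_
    simp
  · intro S
    rw [hsum]
    have h1 : ∀ e : E, (if s e ∈ S ∧ t e ∈ S then (n : ℤ) + a else 0) +
        (if ¬ (s e ∈ S ↔ t e ∈ S) then (1 : ℤ) else 0) ≤
        (if s e ∈ S then (1 : ℤ) else 0) + (if t e ∈ S then ((n : ℤ) + a - 1) else 0) := by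
      intro e
      by_cases hs : s e ∈ S <;> by_cases ht : t e ∈ S <;> simp [hs, ht]
      linarith
    have h2 : crossInd s t univ S ≤ ∑ e : E, (if ¬ (s e ∈ S ↔ t e ∈ S) then (1 : ℤ) else 0) := by
      by_cases h : ∃ e ∈ (univ : Finset E), ¬ (s e ∈ S ↔ t e ∈ S)
      · rw [crossInd_eq_one h]
        obtain ⟨e, he, hne⟩ := h
        calc (1 : ℤ) = if ¬ (s e ∈ S ↔ t e ∈ S) then (1 : ℤ) else 0 := by rw [if_pos hne]
          _ ≤ _ := Finset.single_le_sum (f := fun e => if ¬ (s e ∈ S ↔ t e ∈ S) then (1 : ℤ) else 0)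
            (fun e _ => by split_ifs <;> norm_num) he
      · rw [crossInd_eq_zero (fun e he => by
          by_contra hne
          exact h ⟨e, he, hne⟩)]
        exact Finset.sum_nonneg fun e _ => by split_ifs <;> norm_num
    calc inside s t univ (fun _ => (n : ℤ) + a) S + crossInd s t univ S
        ≤ ∑ e : E, (if s e ∈ S ∧ t e ∈ S then (n : ℤ) + a else 0) +
          ∑ e : E, (if ¬ (s e ∈ S ↔ t e ∈ S) then (1 : ℤ) else 0) := by
          unfold inside; linarith
      _ = ∑ e : E, ((if s e ∈ S ∧ t e ∈ S then (n : ℤ) + a else 0) +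
          (if ¬ (s e ∈ S ↔ t e ∈ S) then (1 : ℤ) else 0)) := by rw [Finset.sum_add_distrib]
      _ ≤ _ := Finset.sum_le_sum fun e _ => h1 e

end Pool.Agent.Lib.MP_8b1b48_lc
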