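import Pool.Agent.Lib.MP_8b1b48_lc.StateSum

/-!
The Tutte polynomial on the line `y = 1` and its approximation by weighted numbers of states.
-/

namespace Pool.Agent.Lib.MP_8b1b48_lc

open Finset

variable {V E : Type} [Fintype V] [DecidableEq V] [Fintype E] [DecidableEq E]

omit [DecidableEq V] in
theorem tutte_one (s t : E → V) {x : ℝ} (hx : x < 1) :
    tutte s t x 1 = (1 - x) ^ (rk s t univ) * fsum s t univ (fun _ => 1 / (1 - x)) := by
  classical
  unfold tutte fsum
  rw [Finset.mul_sum, Finset.powerset_univ]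
  refine Finset.sum_congr rfl fun A _ => ?_
  have hpos : 0 < 1 - x := by linarith
  have hc := comps_le s t A
  have hge := card_le_card_add_comps s t A
  by_cases h : IsForest s t A
  · have h1 := card_le_rk (Finset.subset_univ A) h
    have h2 : rk s t A = A.card := by
      unfold IsForest at h
      unfold rk
      omega
    rw [if_pos h, h2, Nat.sub_self, pow_zero, mul_one, Finset.prod_const]
    have h3 : (x - 1) ^ (rk s t univ - A.card) =
        (-1) ^ (rk s t univ - A.card) * (1 - x) ^ (rk s t univ - A.card) := by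
      rw [← mul_pow]; congr 1; ring
    have h4 : (1 - x) ^ (rk s t univ) = (1 - x) ^ (rk s t univ - A.card) * (1 - x) ^ A.card := by
      rw [← pow_add]; congr 1; omega
    have h5 : (1 - x) ^ A.card * (1 / (1 - x)) ^ A.card = 1 := by
      rw [← mul_pow, mul_one_div_cancel hpos.ne', one_pow]
    rw [h3, h4]
    calc (-1 : ℝ) ^ (rk s t univ - A.card) * (1 - x) ^ (rk s t univ - A.card)
        = (1 - x) ^ (rk s t univ - A.card) * ((-1) ^ (rk s t univ - A.card)) *
          ((1 - x) ^ A.card * (1 / (1 - x)) ^ A.card) := by rw [h5]; ring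
      _ = _ := by ring
  · have h2 : A.card - rk s t A ≠ 0 := by
      unfold IsForest at h
      unfold rk
      omega
    rw [if_neg h, sub_self, zero_pow h2, mul_zero, mul_zero]

/-- Approximation of `T(G; x, 1)` for `0 ≤ x < 1`. -/
theorem tutte_bounds (s t : E → V) {x : ℝ} (hx0 : 0 ≤ x) (hx1 : x < 1) (n a L : ℕ) (p : ℝ)
    (hL : 0 < L) (hn : 1 ≤ n) (hcase : (a = 0 ∧ p = 0 ∧ 1 / (1 - x) = n) ∨
      (a = 1 ∧ 0 < p ∧ p < 1 ∧ 1 / (1 - x) = n + p)) :
    (1 - (((n : ℝ) + a) * Fintype.card E) ^ 2 / L) * tutte s t x 1 ≤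
      (1 - x) ^ (rk s t univ) * p ^ (a * Fintype.card E) /
        ((2 * L).choose L : ℝ) ^ (Fintype.card V) * stateSum s t L n a ((1 - p) / p) ∧
    (1 - x) ^ (rk s t univ) * p ^ (a * Fintype.card E) /
        ((2 * L).choose L : ℝ) ^ (Fintype.card V) * stateSum s t L n a ((1 - p) / p) ≤
      tutte s t x 1 := by
  have hpos : 0 < 1 - x := by linarith
  have hr : 0 < (1 - x) ^ (rk s t univ) := by positivity
  rw [tutte_one s t hx1]
  have key : ∃ q : ℝ, 0 < q ∧ q ^ (Fintype.card E) = p ^ (a * Fintype.card E) ∧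
      q * ∑ S : Finset (Fin a), ((1 - p) / p) ^ S.card * ((n : ℝ) + a - S.card) = 1 / (1 - x) ∧
      q * ∑ S : Finset (Fin a), ((1 - p) / p) ^ S.card = 1 ∧ 0 ≤ (1 - p) / p := by
    rcases hcase with ⟨rfl, hp, hκ⟩ | ⟨rfl, hp0, hp1, hκ⟩
    · refine ⟨1, one_pos, by simp, ?_, ?_, by rw [hp]; simp⟩
      · rw [hκ, Fintype.sum_eq_single (∅ : Finset (Fin 0))]
        · simp
        · intro S hS
          exact absurd (Finset.eq_empty_of_isEmpty S) hS
      · rw [Fintype.sum_eq_single (∅ : Finset (Fin 0))]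
        · simp
        · intro S hS
          exact absurd (Finset.eq_empty_of_isEmpty S) hS
    · have hsum : ∀ f : Finset (Fin 1) → ℝ, ∑ S : Finset (Fin 1), f S = f ∅ + f {0} := by
        intro f
        have : (univ : Finset (Finset (Fin 1))) = {∅, {0}} := by decide
        rw [this, Finset.sum_pair (by decide)]
      refine ⟨p, hp0, by rw [one_mul], ?_, ?_, by
        apply div_nonneg <;> linarith⟩
      · rw [hκ, hsum]
        simp only [Finset.card_empty, Finset.card_singleton, pow_zero, pow_one]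
        field_simp
        push_cast; ring
      · rw [hsum]
        simp only [Finset.card_empty, Finset.card_singleton, pow_zero, pow_one]
        field_simp
        ring
  obtain ⟨q, hq, hqp, h1, h0, hlam⟩ := key
  have hb := stateSum_bounds s t L n a hL hn ((1 - p) / p) q (1 / (1 - x)) hlam hq h1 h0
  rw [← hqp]
  constructor
  · calc _ = (1 - x) ^ (rk s t univ) * ((1 - (((n : ℝ) + a) * Fintype.card E) ^ 2 / L) *
          fsum s t univ (fun _ => 1 / (1 - x))) := by ring
      _ ≤ (1 - x) ^ (rk s t univ) * (q ^ (Fintype.card E) /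
          ((2 * L).choose L : ℝ) ^ (Fintype.card V) * stateSum s t L n a ((1 - p) / p)) :=
          mul_le_mul_of_nonneg_left hb.1 hr.le
      _ = _ := by ring
  · calc _ = (1 - x) ^ (rk s t univ) * (q ^ (Fintype.card E) /
          ((2 * L).choose L : ℝ) ^ (Fintype.card V) * stateSum s t L n a ((1 - p) / p)) := by ring
      _ ≤ _ := mul_le_mul_of_nonneg_left hb.2 hr.le

end Pool.Agent.Lib.MP_8b1b48_lc
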